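import Pool.Agent.Q59.QP.Quasi

/-!
# Boolean combinations of affine sets
-/

namespace Pool.Agent.Q59.QP

open Finset

section Good

variable {ι : Type*} [Fintype ι]

/-- the combinations of the indicator functions of the affine sets -/
def AffSpan (ι : Type*) [Fintype ι] : Submodule ℤ ((ι → UnitAddCircle) → ℤ) :=
  Submodule.span ℤ {f | ∃ X : Set (ι → UnitAddCircle), Aff X ∧ f = X.indicator 1}

/-- the Boolean combinations of affine sets -/
def Good (X : Set (ι → UnitAddCircle)) : Prop := X.indicator 1 ∈ AffSpan ι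

lemma AffSpan.mul {f g : (ι → UnitAddCircle) → ℤ} (hf : f ∈ AffSpan ι) (hg : g ∈ AffSpan ι) :
    f * g ∈ AffSpan ι := by
  have h1 : f * g ∈ AffSpan ι * AffSpan ι := Submodule.mul_mem_mul hf hg
  unfold AffSpan at h1 ⊢
  rw [Submodule.span_mul_span] at h1
  refine Submodule.span_mono ?_ h1
  rintro h ⟨_, ⟨X, hX, rfl⟩, _, ⟨Y, hY, rfl⟩, rfl⟩
  exact ⟨X ∩ Y, hX.inter hY, Set.inter_indicator_one.symm⟩

lemma Aff.good {X : Set (ι → UnitAddCircle)} (hX : Aff X) : Good X :=
  Submodule.subset_span ⟨X, hX, rfl⟩

lemma Good.univ : Good (Set.univ : Set (ι → UnitAddCircle)) := Aff.univ.good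

lemma Good.inter {X Y : Set (ι → UnitAddCircle)} (hX : Good X) (hY : Good Y) : Good (X ∩ Y) := by
  unfold Good at *
  rw [Set.inter_indicator_one]
  exact AffSpan.mul hX hY

lemma Good.compl {X : Set (ι → UnitAddCircle)} (hX : Good X) : Good Xᶜ := by
  unfold Good at *
  have h := (AffSpan ι).sub_mem (Good.univ (ι := ι)) hX
  have h1 : (Xᶜ.indicator 1 : (ι → UnitAddCircle) → ℤ) = Set.univ.indicator 1 - X.indicator 1 := by
    rw [Set.indicator_compl, Set.indicator_univ]
  rw [h1]
  exact h

lemma Good.union {X Y : Set (ι → UnitAddCircle)} (hX : Good X) (hY : Good Y) : Good (X ∪ Y) := by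
  have h := (hX.compl.inter hY.compl).compl
  rwa [Set.compl_inter, compl_compl, compl_compl] at h

lemma Good.empty : Good (∅ : Set (ι → UnitAddCircle)) := by
  simpa using (Good.univ (ι := ι)).compl

lemma Good.biUnion {α : Type*} {s : Set α} (hs : s.Finite) {X : α → Set (ι → UnitAddCircle)}
    (hX : ∀ a ∈ s, Good (X a)) : Good (⋃ a ∈ s, X a) := by
  induction s, hs using Set.Finite.induction_on with
  | empty => simpa using Good.empty
  | @insert a s _ _ ih =>
    rw [Set.biUnion_insert]
    exact (hX a (Set.mem_insert _ _)).union (ih fun b hb => hX b (Set.mem_insert_of_mem _ hb))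

lemma Good.iInter {α : Type*} [Finite α] {X : α → Set (ι → UnitAddCircle)}
    (hX : ∀ a, Good (X a)) : Good (⋂ a, X a) := by
  have h := (Good.biUnion (s := Set.univ) Set.finite_univ (X := fun a => (X a)ᶜ)
    fun a _ => (hX a).compl).compl
  rw [Set.biUnion_univ, Set.compl_iUnion] at h
  simpa using h

/-- **Good sets have a quasi-polynomial number of torsion points.** -/
theorem Good.isQP [DecidableEq ι] {X : Set (ι → UnitAddCircle)} (hX : Good X)
    [DecidablePred (· ∈ X)] :
    IsQP (fun m => ((((TT ι m).filter (· ∈ X)).card : ℕ) : ℚ)) := by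
  have hmain : ∀ f ∈ AffSpan ι, IsQP (fun m => ((∑ x ∈ TT ι m, f x : ℤ) : ℚ)) := by
    intro f hf
    unfold AffSpan at hf
    induction hf using Submodule.span_induction with
    | mem f hf =>
      classical
      obtain ⟨Y, hY, rfl⟩ := hf
      refine hY.isQP.congr fun m _ => ?_
      have h1 : ∀ x, (Y.indicator 1 : (ι → UnitAddCircle) → ℤ) x = if x ∈ Y then 1 else 0 :=
        fun x => Set.indicator_apply Y 1 x
      simp only [h1]
      rw [sum_boole]
      simp
    | zero =>
      refine (IsQP.const 0).congr fun m _ => ?_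
      simp
    | add f g _ _ h1 h2 =>
      refine (h1.add h2).congr fun m _ => ?_
      simp only [Pi.add_apply, sum_add_distrib, Int.cast_add]
    | smul r f _ h1 =>
      refine ((IsQP.const (r : ℚ)).mul h1).congr fun m _ => ?_
      simp only [Pi.smul_apply, smul_eq_mul]
      rw [← mul_sum, Int.cast_mul]
  refine (hmain _ hX).congr fun m _ => ?_
  have h1 : ∀ x, (X.indicator 1 : (ι → UnitAddCircle) → ℤ) x = if x ∈ X then 1 else 0 := by
    intro x
    rw [Set.indicator_apply]
    by_cases hx : x ∈ X
    · rw [if_pos hx, if_pos hx]; rfl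
    · rw [if_neg hx, if_neg hx]
  simp only [h1]
  rw [sum_boole]
  simp

end Good

section Datum

variable {ι : Type*} [Fintype ι]

/-- **The cosets are affine.** -/
theorem Datum.aff (D : Datum ι) : Aff {x | D.Mem x} := by
  classical
  obtain ⟨c, k, τ⟩ := D
  -- Bezout
  have hbez : ∀ r : ι, ∃ g : ℤ, ∃ u : ι → ℤ, (∑ j, u j * (if c j = r then k j else 0) = g) ∧
      ∀ j, c j = r → g ∣ k j := by
    intro r
    set v : ι → ℤ := fun j => if c j = r then k j else 0 with hv
    set I : Ideal ℤ := Ideal.span (Set.range v) with hI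
    have hmem : Submodule.IsPrincipal.generator I ∈ I := Submodule.IsPrincipal.generator_mem I
    rw [hI, Ideal.mem_span_range_iff_exists_fun] at hmem
    obtain ⟨u, hu⟩ := hmem
    refine ⟨_, u, hu, fun j hj => ?_⟩
    have h1 : v j ∈ I := Ideal.subset_span ⟨j, rfl⟩
    have h2 := (Submodule.IsPrincipal.mem_iff_generator_dvd I).mp h1
    have h3 : v j = k j := if_pos hj
    rw [h3] at h2
    exact h2
  choose g u hu hg using hbez
  set n : ι → ℤ := fun i => k i / g (c i) with hn
  have hgn : ∀ i, g (c i) * n i = k i := fun i => Int.mul_ediv_cancel' (hg (c i) i rfl)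
  -- the equations
  set w : ι → ι → ℤ := fun i j =>
    (if j = i then 1 else 0) - n i * (if c j = c i then u (c i) j else 0) with hw
  refine ⟨Set.range fun i => (w i, ∑ j, w i j • τ j), ?_⟩
  have hpair : ∀ (i : ι) (z : ι → UnitAddCircle), ∑ j, w i j • z j =
      z i - n i • ∑ j, (if c j = c i then u (c i) j else 0) • z j := by
    intro i z
    rw [hw]
    simp only [sub_smul, sum_sub_distrib, mul_smul, ← smul_sum]
    congr 1
    rw [sum_eq_single i]
    · rw [if_pos rfl, one_smul]
    · intro j _ hj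
      rw [if_neg hj, zero_smul]
    · intro h
      exact absurd (mem_univ i) h
  have hB : ∀ (r : ι) (a : ι → UnitAddCircle),
      ∑ j, (if c j = r then u r j else 0) • (k j • a (c j)) = g r • a r := by
    intro r a
    rw [← hu r, sum_smul]
    refine sum_congr rfl fun j _ => ?_
    by_cases hj : c j = r
    · rw [if_pos hj, if_pos hj, hj, smul_smul]
    · rw [if_neg hj, if_neg hj, zero_smul, mul_zero, zero_smul]
  ext x
  simp only [Set.mem_ofPred_eq, Set.mem_range, forall_exists_index, forall_apply_eq_imp_iff]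
  constructor
  · rintro ⟨a, ha⟩ i
    simp only at ha
    have h1 : ∑ j, w i j • x j = ∑ j, w i j • (k j • a (c j)) + ∑ j, w i j • τ j := by
      rw [← sum_add_distrib]
      exact sum_congr rfl fun j _ => by rw [ha j, smul_add]
    rw [h1, hpair i fun j => k j • a (c j), hB, smul_smul, mul_comm, hgn, sub_self, zero_add]
  · intro h
    set b : ι → UnitAddCircle := fun r => ∑ j, (if c j = r then u r j else 0) • (x j - τ j) with hb
    have hdiv : ∀ r, ∃ y : UnitAddCircle, g r ≠ 0 → g r • y = b r := by
      intro r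
      by_cases hr : g r = 0
      · exact ⟨0, fun h => absurd hr h⟩
      · obtain ⟨y, hy⟩ := exists_div (g r) hr (b r)
        exact ⟨y, fun _ => hy⟩
    choose a ha using hdiv
    refine ⟨a, fun i => ?_⟩
    simp only
    have h1 : ∑ j, w i j • (x j - τ j) = 0 := by
      have h2 := h i
      rw [← sub_eq_zero, ← sum_sub_distrib] at h2
      rw [← h2]
      exact sum_congr rfl fun j _ => smul_sub _ _ _
    rw [hpair i fun j => x j - τ j] at h1
    have h2 : x i - τ i = n i • b (c i) := sub_eq_zero.mp h1
    have h3 : n i • b (c i) = k i • a (c i) := by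
      by_cases hr : g (c i) = 0
      · have h4 : n i = 0 := by rw [hn]; simp only; rw [hr, Int.ediv_zero]
        have h5 : k i = 0 := by rw [← hgn i, hr, zero_mul]
        rw [h4, h5, zero_smul, zero_smul]
      · rw [← ha (c i) hr, smul_smul, mul_comm, hgn]
    rw [← h3, ← h2, sub_add_cancel]

lemma aff_zero (i : ι) : Aff {x : ι → UnitAddCircle | x i = 0} := by
  classical
  refine ⟨{(Pi.single i 1, 0)}, ?_⟩
  ext x
  simp only [Set.mem_ofPred_eq, Set.mem_singleton_iff, forall_eq]
  rw [sum_eq_single i]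
  · rw [Pi.single_eq_same, one_smul]
  · intro j _ hj
    rw [Pi.single_eq_of_ne hj, zero_smul]
  · intro h
    exact absurd (mem_univ i) h

/-- finite unions of cosets outside of the coordinate hyperplanes -/
theorem isQP_datum [DecidableEq ι] {W : Set (Datum ι)} (hW : W.Finite)
    [DecidablePred fun x : ι → UnitAddCircle => (∃ D ∈ W, D.Mem x) ∧ ∀ i, x i ≠ 0] :
    IsQP (fun m => ((((TT ι m).filter fun x => (∃ D ∈ W, D.Mem x) ∧ ∀ i, x i ≠ 0).card : ℕ) : ℚ))
    := by
  classical
  have h1 : Good ((⋃ D ∈ W, {x : ι → UnitAddCircle | D.Mem x}) ∩ ⋂ i, {x | x i = 0}ᶜ) :=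
    (Good.biUnion hW fun D _ => D.aff.good).inter (Good.iInter fun i => (aff_zero i).good.compl)
  refine h1.isQP.congr fun m _ => ?_
  congr 2
  ext x
  simp

end Datum

end Pool.Agent.Q59.QP
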