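import Pool.Agent.Q59.QP.Dim

/-!
# The number of the unions of opposite pairs
-/

namespace Pool.Agent.Q59.QP

open Finset
open scoped Nat

/-- the perfect matchings, as fixed point free involutions -/
def MM (k : ℕ) : Finset (Equiv.Perm (Fin (2 * k))) :=
  univ.filter fun π => (∀ i, π (π i) = i) ∧ ∀ i, π i ≠ i

lemma card_MM {k : ℕ} (hk : 0 < k) : (MM k).card = (2 * k - 1)‼ := by
  have h1 : MM k = univ.filter fun g : Equiv.Perm (Fin (2 * k)) =>
      g.cycleType = Multiset.replicate k 2 := by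
    unfold MM
    refine filter_congr fun g _ => ?_
    have hpow : g ^ 2 = 1 ↔ ∀ i, g (g i) = i := by
      rw [Equiv.ext_iff]
      rfl
    have hsupp : g.support = univ ↔ ∀ i, g i ≠ i := by
      rw [eq_univ_iff_forall]
      exact forall_congr' fun i => Equiv.Perm.mem_support
    have : Fact (Nat.Prime 2) := ⟨Nat.prime_two⟩
    rw [← hpow, ← hsupp, Equiv.Perm.pow_prime_eq_one_iff]
    constructor
    · rintro ⟨h2, h3⟩
      rw [Multiset.eq_replicate]
      refine ⟨?_, h2⟩
      have h4 := Multiset.eq_replicate.mpr ⟨rfl, h2⟩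
      have h5 := g.sum_cycleType
      rw [h4, Multiset.sum_replicate, h3, card_univ, Fintype.card_fin, smul_eq_mul] at h5
      omega
    · intro h2
      have h5 := g.sum_cycleType
      rw [h2, Multiset.sum_replicate, smul_eq_mul] at h5
      refine ⟨fun c hc => ?_, ?_⟩
      · rw [h2] at hc
        exact Multiset.eq_of_mem_replicate hc
      · rw [← card_eq_iff_eq_univ, Fintype.card_fin]
        omega
  have h2 := Equiv.Perm.card_of_cycleType_mul_eq (Fin (2 * k)) (Multiset.replicate k 2)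
  rw [← h1, if_pos, Multiset.sum_replicate, Multiset.prod_replicate, Fintype.card_fin,
    smul_eq_mul, mul_comm k 2, Nat.sub_self, Nat.factorial_zero, one_mul,
    Multiset.toFinset_replicate, if_neg hk.ne', prod_singleton, Multiset.count_replicate_self] at h2
  · obtain ⟨n, rfl⟩ : ∃ n, k = n + 1 := ⟨k - 1, by omega⟩
    have h3 : (2 * (n + 1))! = (2 * (n + 1))‼ * (2 * n + 1)‼ :=
      Nat.factorial_eq_mul_doubleFactorial (2 * n + 1)
    rw [Nat.doubleFactorial_two_mul] at h3
    rw [h3, mul_comm] at h2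
    have h4 : 0 < 2 ^ (n + 1) * (n + 1)! := by positivity
    have h5 := Nat.eq_of_mul_eq_mul_left h4 h2
    rw [h5]
    rfl
  · refine ⟨?_, fun a ha => ?_⟩
    · rw [Multiset.sum_replicate, Fintype.card_fin, smul_eq_mul, mul_comm]
    · rw [Multiset.eq_of_mem_replicate ha]

section Count

variable {k : ℕ}

/-- counting by restriction to a set of coordinates -/
lemma card_le_pow {ι : Type*} [Fintype ι] [DecidableEq ι] (S : Finset ι) {m : ℕ} (hm : 0 < m)
    {P : (ι → UnitAddCircle) → Prop} [DecidablePred P]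
    (hP : ∀ x y, P x → P y → (∀ i ∈ S, x i = y i) → x = y) :
    ((TT ι m).filter P).card ≤ m ^ S.card := by
  classical
  have h1 : (Fintype.piFinset fun _ : S => tm m).card = m ^ S.card := by
    rw [Fintype.card_piFinset, prod_const, card_tm hm, card_univ, Fintype.card_coe]
  rw [← h1]
  refine card_le_card_of_injOn (fun x (i : S) => x i) ?_ ?_
  · intro x hx
    have hx' := (mem_TT hm).mp (mem_filter.mp hx).1
    exact Fintype.mem_piFinset.mpr fun i => (mem_tm hm).mpr (hx' i)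
  · intro x hx y hy hxy
    exact hP x y (mem_filter.mp hx).2 (mem_filter.mp hy).2 fun i hi => congrFun hxy ⟨i, hi⟩

/-- the representatives of the orbits -/
def RP (π : Equiv.Perm (Fin (2 * k))) : Finset (Fin (2 * k)) := univ.filter fun i => i < π i

lemma card_RP {π : Equiv.Perm (Fin (2 * k))} (hπ : π ∈ MM k) : (RP π).card = k := by
  obtain ⟨-, h1, h2⟩ := mem_filter.mp hπ
  have h3 : (univ.filter fun i => π i < i).card = (RP π).card := by
    unfold RP
    refine card_bij (fun i _ => π i) ?_ ?_ ?_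
    · intro i hi
      rw [mem_filter] at hi ⊢
      rw [h1]
      exact ⟨mem_univ _, hi.2⟩
    · intro i _ j _ h
      exact π.injective h
    · intro i hi
      refine ⟨π i, ?_, h1 i⟩
      rw [mem_filter] at hi ⊢
      rw [h1]
      exact ⟨mem_univ _, hi.2⟩
  have h4 : (univ.filter fun i => i < π i).card + (univ.filter fun i => ¬ i < π i).card = 2 * k := by
    rw [card_filter_add_card_filter_not, card_univ, Fintype.card_fin]
  have h5 : (univ.filter fun i => ¬ i < π i) = univ.filter fun i => π i < i := by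
    refine filter_congr fun i _ => ?_
    have := h2 i
    constructor
    · intro h
      exact lt_of_le_of_ne (not_lt.mp h) this
    · intro h h'
      exact lt_asymm h h'
  rw [h5, h3] at h4
  change (RP π).card + _ = _ at h4
  omega

lemma rep {π : Equiv.Perm (Fin (2 * k))} (hπ : π ∈ MM k) (i : Fin (2 * k)) :
    i ∈ RP π ∨ π i ∈ RP π := by
  obtain ⟨-, h1, h2⟩ := mem_filter.mp hπ
  unfold RP
  rcases lt_or_gt_of_ne (h2 i) with h | h
  · right
    rw [mem_filter, h1]
    exact ⟨mem_univ _, h⟩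
  · left
    exact mem_filter.mpr ⟨mem_univ _, h⟩

lemma eq_of_RP {π : Equiv.Perm (Fin (2 * k))} (hπ : π ∈ MM k) {x y : Fin (2 * k) → UnitAddCircle}
    (hx : ∀ i, x (π i) = -x i) (hy : ∀ i, y (π i) = -y i) (h : ∀ i ∈ RP π, x i = y i) : x = y := by
  funext i
  rcases rep hπ i with hi | hi
  · exact h i hi
  · have h1 := h _ hi
    rw [hx, hy] at h1
    exact neg_injective h1

variable {m : ℕ}

lemma card_pi_le (hm : 0 < m) {π : Equiv.Perm (Fin (2 * k))} (hπ : π ∈ MM k)
    [DecidablePred fun x : Fin (2 * k) → UnitAddCircle => (∀ i, x i ≠ 0) ∧ ∀ i, x (π i) = -x i] :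
    ((TT (Fin (2 * k)) m).filter fun x => (∀ i, x i ≠ 0) ∧ ∀ i, x (π i) = -x i).card ≤ m ^ k := by
  have h := card_le_pow (RP π) hm
    (P := fun x : Fin (2 * k) → UnitAddCircle => (∀ i, x i ≠ 0) ∧ ∀ i, x (π i) = -x i)
    fun x y hx hy h => eq_of_RP hπ hx.2 hy.2 h
  rwa [card_RP hπ] at h

lemma le_card_pi (hm : 0 < m) {π : Equiv.Perm (Fin (2 * k))} (hπ : π ∈ MM k)
    [DecidablePred fun x : Fin (2 * k) → UnitAddCircle => (∀ i, x i ≠ 0) ∧ ∀ i, x (π i) = -x i] :
    (m - 1) ^ k ≤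
      ((TT (Fin (2 * k)) m).filter fun x => (∀ i, x i ≠ 0) ∧ ∀ i, x (π i) = -x i).card := by
  classical
  obtain ⟨-, h1, h2⟩ := mem_filter.mp hπ
  have h3 : (Fintype.piFinset fun _ : RP π => (tm m).erase 0).card = (m - 1) ^ k := by
    rw [Fintype.card_piFinset, prod_const, card_univ, Fintype.card_coe, card_RP hπ,
      card_erase_of_mem ((mem_tm hm).mpr (nsmul_zero m)), card_tm hm]
  rw [← h3]
  refine card_le_card_of_injOn
    (fun y i => if h : i ∈ RP π then y ⟨i, h⟩ else if h' : π i ∈ RP π then -y ⟨π i, h'⟩ else 0)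
    ?_ ?_
  · intro y hy
    have hy' := Fintype.mem_piFinset.mp hy
    have hne : ∀ i, i ∈ RP π → π i ∉ RP π := by
      intro i hi hi'
      unfold RP at hi hi'
      rw [mem_filter] at hi hi'
      rw [h1] at hi'
      exact lt_asymm hi.2 hi'.2
    refine mem_filter.mpr ⟨(mem_TT hm).mpr fun i => ?_, fun i => ?_, fun i => ?_⟩
    · by_cases h : i ∈ RP π
      · simp only [dif_pos h]
        exact (mem_tm hm).mp (mem_of_mem_erase (hy' _))
      · have h' := (rep hπ i).resolve_left h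
        simp only [dif_neg h, dif_pos h']
        rw [smul_neg, (mem_tm hm).mp (mem_of_mem_erase (hy' _)), neg_zero]
    · by_cases h : i ∈ RP π
      · simp only [dif_pos h]
        exact ne_of_mem_erase (hy' _)
      · have h' := (rep hπ i).resolve_left h
        simp only [dif_neg h, dif_pos h']
        exact neg_ne_zero.mpr (ne_of_mem_erase (hy' _))
    · by_cases h : i ∈ RP π
      · have h' := hne i h
        have h'' : π (π i) ∈ RP π := by rw [h1]; exact h
        simp only [dif_pos h, dif_neg h', dif_pos h'']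
        congr 2
        exact Subtype.ext (h1 i)
      · have h' := (rep hπ i).resolve_left h
        simp only [dif_neg h, dif_pos h', neg_neg]
  · intro y _ y' _ hyy
    funext ⟨i, hi⟩
    have h4 := congrFun hyy i
    simp only [dif_pos hi] at h4
    exact h4

lemma card_inter_le (hm : 0 < m) {π π' : Equiv.Perm (Fin (2 * k))} (hπ : π ∈ MM k)
    (hπ' : π' ∈ MM k) (hne : π ≠ π')
    [DecidablePred fun x : Fin (2 * k) → UnitAddCircle =>
      ((∀ i, x i ≠ 0) ∧ ∀ i, x (π i) = -x i) ∧ ((∀ i, x i ≠ 0) ∧ ∀ i, x (π' i) = -x i)] :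
    ((TT (Fin (2 * k)) m).filter fun x =>
      ((∀ i, x i ≠ 0) ∧ ∀ i, x (π i) = -x i) ∧ ((∀ i, x i ≠ 0) ∧ ∀ i, x (π' i) = -x i)).card ≤
      m ^ (k - 1) := by
  classical
  obtain ⟨-, h1, h2⟩ := mem_filter.mp hπ
  obtain ⟨-, h1', h2'⟩ := mem_filter.mp hπ'
  have hex : ∃ i, π i ≠ π' i := by
    by_contra hcon
    push Not at hcon
    exact hne (Equiv.ext hcon)
  obtain ⟨i, hi⟩ := hex
  -- the representative of `π' i`
  obtain ⟨ρ, hρ, hρ'⟩ : ∃ ρ ∈ RP π, ρ = π' i ∨ ρ = π (π' i) := by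
    rcases rep hπ (π' i) with h | h
    · exact ⟨_, h, Or.inl rfl⟩
    · exact ⟨_, h, Or.inr rfl⟩
  obtain ⟨σ, hσ, hσ'⟩ : ∃ σ ∈ RP π, σ = i ∨ σ = π i := by
    rcases rep hπ i with h | h
    · exact ⟨_, h, Or.inl rfl⟩
    · exact ⟨_, h, Or.inr rfl⟩
  have hρσ : σ ≠ ρ := by
    intro h
    rcases hσ' with hσ' | hσ' <;> rcases hρ' with hρ' | hρ'
    · exact h2' i (by rw [← hρ', ← h, hσ'])
    · apply hi
      have h3 : i = π (π' i) := by rw [← hρ', ← h, hσ']
      have h4 := congrArg π h3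
      rw [h1] at h4
      exact h4
    · exact hi (by rw [← hσ', h, hρ'])
    · exact h2' i (π.injective (by rw [← hρ', ← h, hσ']))
  have hcard : ((RP π).erase ρ).card = k - 1 := by
    rw [card_erase_of_mem hρ, card_RP hπ]
  rw [← hcard]
  refine card_le_pow _ hm fun x y hx hy h => eq_of_RP hπ hx.1.2 hy.1.2 fun l hl => ?_
  by_cases hlρ : l = ρ
  · have h3 : x σ = y σ := h σ (mem_erase.mpr ⟨hρσ, hσ⟩)
    have h4 : x i = y i := by
      rcases hσ' with rfl | rfl
      · exact h3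
      · rw [hx.1.2, hy.1.2] at h3
        exact neg_injective h3
    have h5 : x (π' i) = y (π' i) := by rw [hx.2.2, hy.2.2, h4]
    rw [hlρ]
    rcases hρ' with rfl | rfl
    · exact h5
    · rw [hx.1.2, hy.1.2, h5]
  · exact h l (mem_erase.mpr ⟨hlρ, hl⟩)

lemma paired_iff {x : Fin (2 * k) → UnitAddCircle} :
    Paired x ↔ ∃ π ∈ MM k, ∀ i, x (π i) = -x i := by
  constructor
  · rintro ⟨π, h1, h2, h3⟩
    exact ⟨π, mem_filter.mpr ⟨mem_univ _, h1, h2⟩, h3⟩
  · rintro ⟨π, hπ, h3⟩
    obtain ⟨-, h1, h2⟩ := mem_filter.mp hπ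
    exact ⟨π, h1, h2, h3⟩

/-- **The number of the unions of pairs.** -/
theorem card_paired (hk : 0 < k) (hm : 0 < m)
    [DecidablePred fun x : Fin (2 * k) → UnitAddCircle => Paired x ∧ ∀ i, x i ≠ 0] :
    |(((TT (Fin (2 * k)) m).filter fun x => Paired x ∧ ∀ i, x i ≠ 0).card : ℚ) -
      ((2 * k - 1)‼ : ℕ) * (m : ℚ) ^ k| ≤
      (k * (2 * k - 1)‼ + (2 * k - 1)‼ ^ 2 : ℕ) * (m : ℚ) ^ (k - 1) := by
  classical
  set c : ℕ := (2 * k - 1)‼ with hc
  have hcM : (MM k).card = c := card_MM hk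
  set X := (TT (Fin (2 * k)) m).filter fun x => Paired x ∧ ∀ i, x i ≠ 0 with hX
  set S : Equiv.Perm (Fin (2 * k)) → (Fin (2 * k) → UnitAddCircle) → Prop :=
    fun π x => (∀ i, x i ≠ 0) ∧ ∀ i, x (π i) = -x i with hS
  have hXS : ∀ x, (Paired x ∧ ∀ i, x i ≠ 0) ↔ ∃ π ∈ MM k, S π x := by
    intro x
    rw [paired_iff]
    constructor
    · rintro ⟨⟨π, hπ, h3⟩, h0⟩
      exact ⟨π, hπ, h0, h3⟩
    · rintro ⟨π, hπ, h0, h3⟩
      exact ⟨⟨π, hπ, h3⟩, h0⟩
  -- the upper bound
  have hup : X.card ≤ c * m ^ k := by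
    have h1 : X ⊆ (MM k).biUnion fun π => (TT (Fin (2 * k)) m).filter (S π) := by
      intro x hx
      obtain ⟨h1, h2⟩ := mem_filter.mp hx
      obtain ⟨π, hπ, h3⟩ := (hXS x).mp h2
      exact mem_biUnion.mpr ⟨π, hπ, mem_filter.mpr ⟨h1, h3⟩⟩
    refine (card_le_card h1).trans (card_biUnion_le.trans ?_)
    calc ∑ π ∈ MM k, ((TT (Fin (2 * k)) m).filter (S π)).card ≤ ∑ _π ∈ MM k, m ^ k :=
          sum_le_sum fun π hπ => card_pi_le hm hπ
      _ = c * m ^ k := by rw [sum_const, hcM, smul_eq_mul]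
  -- the lower bound
  have hlow : c * (m - 1) ^ k ≤ X.card + c ^ 2 * m ^ (k - 1) := by
    have h1 : c * (m - 1) ^ k ≤ ∑ π ∈ MM k, ((TT (Fin (2 * k)) m).filter (S π)).card := by
      calc c * (m - 1) ^ k = ∑ _π ∈ MM k, (m - 1) ^ k := by rw [sum_const, hcM, smul_eq_mul]
        _ ≤ _ := sum_le_sum fun π hπ => le_card_pi hm hπ
    have h2 : ∑ π ∈ MM k, ((TT (Fin (2 * k)) m).filter (S π)).card =
        ∑ x ∈ TT (Fin (2 * k)) m, ((MM k).filter fun π => S π x).card := by
      simp only [card_filter]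
      exact sum_comm
    have h3 : ∀ x ∈ TT (Fin (2 * k)) m, ((MM k).filter fun π => S π x).card ≤
        (if Paired x ∧ ∀ i, x i ≠ 0 then 1 else 0) +
          ((MM k).filter fun π => S π x).offDiag.card := by
      intro x _
      rw [offDiag_card]
      by_cases hx : Paired x ∧ ∀ i, x i ≠ 0
      · rw [if_pos hx]
        set μ := ((MM k).filter fun π => S π x).card
        rcases Nat.lt_or_ge μ 2 with h | h
        · omega
        · have : 2 * μ ≤ μ * μ := Nat.mul_le_mul_right μ h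
          omega
      · have h4 : (MM k).filter (fun π => S π x) = ∅ := by
          rw [filter_eq_empty_iff]
          intro π hπ hSx
          exact hx ((hXS x).mpr ⟨π, hπ, hSx⟩)
        rw [h4, card_empty]
        exact Nat.zero_le _
    have h4 : ∑ x ∈ TT (Fin (2 * k)) m, (if Paired x ∧ ∀ i, x i ≠ 0 then 1 else 0) = X.card := by
      rw [hX, card_filter]
    have h5 : ∑ x ∈ TT (Fin (2 * k)) m, ((MM k).filter fun π => S π x).offDiag.card ≤
        c ^ 2 * m ^ (k - 1) := by
      have h6 : ∀ x, ((MM k).filter fun π => S π x).offDiag =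
          (MM k).offDiag.filter fun p => S p.1 x ∧ S p.2 x := by
        intro x
        ext ⟨p, q⟩
        simp only [mem_offDiag, mem_filter]
        tauto
      have h7 : ∑ x ∈ TT (Fin (2 * k)) m, ((MM k).filter fun π => S π x).offDiag.card =
          ∑ p ∈ (MM k).offDiag, ((TT (Fin (2 * k)) m).filter fun x => S p.1 x ∧ S p.2 x).card := by
        simp only [h6]
        simp only [card_filter]
        exact sum_comm
      rw [h7]
      have h8 : (MM k).offDiag.card ≤ c ^ 2 := by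
        rw [offDiag_card, hcM, sq]
        exact Nat.sub_le _ _
      refine le_trans (sum_le_sum (g := fun _ => m ^ (k - 1)) fun p hp => ?_) ?_
      · obtain ⟨hp1, hp2, hp3⟩ := mem_offDiag.mp hp
        exact card_inter_le hm hp1 hp2 hp3
      · rw [sum_const, smul_eq_mul]
        exact Nat.mul_le_mul_right _ h8
    calc c * (m - 1) ^ k ≤ ∑ x ∈ TT (Fin (2 * k)) m, ((MM k).filter fun π => S π x).card :=
          h1.trans_eq h2
      _ ≤ ∑ x ∈ TT (Fin (2 * k)) m, ((if Paired x ∧ ∀ i, x i ≠ 0 then 1 else 0) +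
          ((MM k).filter fun π => S π x).offDiag.card) := sum_le_sum h3
      _ = X.card + ∑ x ∈ TT (Fin (2 * k)) m, ((MM k).filter fun π => S π x).offDiag.card := by
          rw [sum_add_distrib, h4]
      _ ≤ _ := Nat.add_le_add_left h5 _
  -- Bernoulli
  have hbern : (m : ℚ) ^ k - k * (m : ℚ) ^ (k - 1) ≤ (((m - 1 : ℕ) : ℚ)) ^ k := by
    have hm' : (0 : ℚ) < m := by exact_mod_cast hm
    have hm1 : (1 : ℚ) ≤ m := by exact_mod_cast hm
    rw [Nat.cast_sub hm, Nat.cast_one]
    have h1 : -2 ≤ -1 / (m : ℚ) := by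
      rw [le_div_iff₀ hm']
      linarith
    have h2 := one_add_mul_le_pow h1 k
    have h3 : ((m : ℚ) - 1) ^ k = (m : ℚ) ^ k * (1 + -1 / (m : ℚ)) ^ k := by
      rw [← mul_pow]
      congr 1
      field_simp
      ring
    have h4 : (m : ℚ) ^ k = (m : ℚ) ^ (k - 1) * m := by
      rw [← pow_succ, Nat.sub_add_cancel hk]
    rw [h3]
    calc (m : ℚ) ^ k - k * (m : ℚ) ^ (k - 1) = (m : ℚ) ^ k * (1 + k * (-1 / (m : ℚ))) := by
          rw [h4]
          field_simp
          ring
      _ ≤ _ := mul_le_mul_of_nonneg_left h2 (by positivity)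
  have hup' : (X.card : ℚ) ≤ c * (m : ℚ) ^ k := by exact_mod_cast hup
  have hlow' : (c : ℚ) * (((m - 1 : ℕ) : ℚ)) ^ k ≤ X.card + c ^ 2 * (m : ℚ) ^ (k - 1) := by
    exact_mod_cast hlow
  have hc0 : (0 : ℚ) ≤ c := Nat.cast_nonneg c
  have hmk : (0 : ℚ) ≤ (m : ℚ) ^ (k - 1) := by positivity
  rw [abs_le]
  push_cast
  constructor
  · have h5 := mul_le_mul_of_nonneg_left hbern hc0
    nlinarith
  · have h5 : (0 : ℚ) ≤ (k * c + c ^ 2) * (m : ℚ) ^ (k - 1) := by positivity
    linarith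

end Count

end Pool.Agent.Q59.QP
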