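import Pool.Agent.Q59.QP.Quasi

/-!
# Degrees of quasi-polynomials
-/

namespace Pool.Agent.Q59.QP

open Filter Topology Polynomial

lemma tendsto_prog {P j : ℕ} (hP : 0 < P) :
    Tendsto (fun n : ℕ => ((j + P * n : ℕ) : ℚ)) atTop atTop := by
  apply tendsto_natCast_atTop_atTop.comp
  apply tendsto_atTop_mono (f := fun n => n) _ tendsto_id
  intro n
  nlinarith

lemma natDegree_le_of_bound {q : ℚ[X]} {P j : ℕ} (hP : 0 < P) {d : ℕ} {C : ℚ}
    (h : ∀ n : ℕ, 0 < n → |q.eval ((j + P * n : ℕ) : ℚ)| ≤ C * ((j + P * n : ℕ) : ℚ) ^ d) :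
    q.natDegree ≤ d := by
  by_contra hcon
  push Not at hcon
  have hdeg : (X ^ d : ℚ[X]).degree < q.degree := by
    have hq0 : q ≠ 0 := by
      rintro rfl
      rw [natDegree_zero] at hcon
      omega
    rw [degree_X_pow, degree_eq_natDegree hq0]
    exact_mod_cast hcon
  have h1 := (Polynomial.abs_div_tendsto_atTop_atTop_of_degree_gt q (X ^ d) hdeg
    (pow_ne_zero d X_ne_zero)).comp (tendsto_prog (P := P) (j := j) hP)
  have h2 := (h1.eventually (eventually_gt_atTop C)).and (eventually_gt_atTop 0)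
  obtain ⟨n, hn, hn0⟩ := h2.exists
  have h3 := h n hn0
  simp only [Function.comp_apply, eval_pow, eval_X] at hn
  have hpos : (0 : ℚ) < ((j + P * n : ℕ) : ℚ) ^ d := by
    have : 0 < j + P * n := by
      have := Nat.mul_pos hP hn0
      omega
    positivity
  rw [abs_div, abs_of_pos hpos, lt_div_iff₀ hpos] at hn
  linarith

lemma eq_zero_of_bound {q : ℚ[X]} {P j : ℕ} (hP : 0 < P)
    (h : ∀ n : ℕ, 0 < n → q.eval ((j + P * n : ℕ) : ℚ) = 0) : q = 0 := by
  apply Polynomial.eq_zero_of_infinite_isRoot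
  have hinj : Function.Injective (fun n : ℕ => ((j + P * (n + 1) : ℕ) : ℚ)) := by
    intro a b hab
    simp only [Nat.cast_inj] at hab
    have h1 : P * (a + 1) = P * (b + 1) := by omega
    have h2 := Nat.eq_of_mul_eq_mul_left hP h1
    omega
  refine (Set.infinite_range_of_injective hinj).mono ?_
  rintro _ ⟨n, rfl⟩
  exact h (n + 1) (Nat.succ_pos n)

end Pool.Agent.Q59.QP
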