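import Pool.Agent.Q59.QP.Match
import Pool.Agent.Q59.QP.Deg

/-!
# Unions of pairs are algebraic; the system of all Hodge characters
-/

namespace Pool.Agent.Q59.QP

open Finset Pool.Agent.H916R2
open Pool.Agent.Q59.RL (B0 half_add_half Adm AdmSys)
open Pool.Agent.Q59.SX (sum_of_generated)
open Pool.Agent.Q59.DN (isHodge_of_iota)

section HodgeSys

variable {m : ℕ} [NeZero m]

lemma saw_oddDist (t : (ZMod m)ˣ) : OddDist (fun a : ZMod m => saw ((t : ZMod m) * a)) where
  neg a := by rw [mul_neg, saw_neg]
  half a ha := by
    apply saw_half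
    rw [← mul_add, ha, mul_zero]
  dist p d _ hpd a := saw_dist_unit hpd t a

lemma hodge_of_gen {s : Multiset (ZMod m)} (h : Generated m (B0 m) s) : IsHodge m s := by
  obtain ⟨h0, hev⟩ := h.good (fun _ h => h.elim)
  exact isHodge_of_saw h0 hev fun t => sum_of_generated (saw_oddDist t) (fun _ h => h.elim) h

/-- the system of all Hodge characters -/
lemma hodgeSys : AdmSys (fun m s => IsHodge m s) where
  adm m hm := by
    have : NeZero m := ⟨hm.ne'⟩
    exact {
      hodge := fun _ h => h
      neg := fun _ h => h.neg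
      pair := fun a ha => hodge_of_gen (Generated.pair a ha)
      standard := fun p hp hp2 hpm a ha => hodge_of_gen (Generated.standard p hp hp2 hpm a ha)
      standardTwo := fun h2 a ha => hodge_of_gen (Generated.standardTwo h2 a ha)
      join := fun s t hs ht => by
        refine isHodge_of_saw ?_ ?_ fun u => ?_
        · rw [Multiset.mem_add]
          exact fun h => h.elim hs.1 ht.1
        · rw [Multiset.card_add]
          exact hs.2.1.add ht.2.1
        · rw [Multiset.map_add, Multiset.sum_add, hs.saw_sum, ht.saw_sum, add_zero]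
      cancel := fun a s h => by
        refine isHodge_of_saw ?_ ?_ fun u => ?_
        · exact fun h0 => h.1 (Multiset.mem_cons_of_mem (Multiset.mem_cons_of_mem h0))
        · have h1 := h.2.1
          rw [Multiset.card_cons, Multiset.card_cons, Nat.even_add_one, Nat.even_add_one,
            not_not] at h1
          exact h1
        · have h1 := h.saw_sum u
          rw [Multiset.map_cons, Multiset.map_cons, Multiset.sum_cons, Multiset.sum_cons, mul_neg,
            saw_neg, add_neg_cancel_left] at h1
          exact h1 }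
  level N m M hM h s := by
    have : NeZero M := ⟨hM.ne'⟩
    have : NeZero m := ⟨fun h0 => hM.ne' (by rw [← h, h0, mul_zero])⟩
    exact ⟨fun hs => hs.iota h, fun hs => isHodge_of_iota h hs⟩

end HodgeSys

section Pairs

variable {A : ∀ m : ℕ, Multiset (ZMod m) → Prop}

lemma alg_pairs (hA : AdmSys A) {m : ℕ} (hm : 0 < m) (u : Multiset (ZMod m)) (h0 : (0 : ZMod m) ∉ u) :
    A m (u + u.map Neg.neg) := by
  induction u using Multiset.induction_on with
  | empty => simpa using hA.empty hm
  | cons a u ih =>
    have ha : a ≠ 0 := fun h => h0 (by rw [h]; exact Multiset.mem_cons_self _ _)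
    have h1 := (hA.adm m hm).join _ _ ((hA.adm m hm).pair a ha)
      (ih fun h => h0 (Multiset.mem_cons_of_mem h))
    rw [Multiset.insert_eq_cons, Multiset.cons_add, Multiset.singleton_add] at h1
    rw [Multiset.map_cons, Multiset.cons_add, Multiset.add_cons]
    exact h1

lemma alg_paired (hA : AdmSys A) {k m : ℕ} [NeZero m] {s : Fin (2 * k) → ZMod m}
    (hp : Paired (tps s)) (h0 : ∀ i, tps s i ≠ 0) :
    A m ((univ : Finset (Fin (2 * k))).val.map s) := by
  rw [paired_iff] at hp
  obtain ⟨π, hπ, hs⟩ := hp
  obtain ⟨-, h1, h2⟩ := mem_filter.mp hπ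
  have hs' : ∀ i, s (π i) = -s i := by
    intro i
    apply tp_inj
    rw [tp_neg]
    exact hs i
  have hdisj : ∀ i, i ∈ RP π → π i ∉ RP π := by
    intro i hi hi'
    unfold RP at hi hi'
    rw [mem_filter] at hi hi'
    rw [h1] at hi'
    exact lt_asymm hi.2 hi'.2
  have hcompl : (RP π)ᶜ = (RP π).map π.toEmbedding := by
    ext i
    rw [mem_compl, mem_map]
    constructor
    · intro h
      exact ⟨π i, (rep hπ i).resolve_left h, h1 i⟩
    · rintro ⟨j, hj, rfl⟩
      exact hdisj j hj
  have hval : (univ : Finset (Fin (2 * k))).val = (RP π).val + ((RP π)ᶜ).val := by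
    have h3 : (univ : Finset (Fin (2 * k))) = (RP π).disjUnion (RP π)ᶜ disjoint_compl_right := by
      rw [disjUnion_eq_union, union_compl]
    conv_lhs => rw [h3]
    rfl
  have h4 : (univ : Finset (Fin (2 * k))).val.map s =
      (RP π).val.map s + ((RP π).val.map s).map Neg.neg := by
    rw [hval, Multiset.map_add, hcompl, map_val, Multiset.map_map, Multiset.map_map]
    congr 1
    exact Multiset.map_congr rfl fun i _ => hs' i
  rw [h4]
  apply alg_pairs hA (NeZero.pos m)
  intro h
  obtain ⟨i, -, hi⟩ := Multiset.mem_map.mp h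
  exact h0 i (tp_eq_zero.mpr hi)

end Pairs

end Pool.Agent.Q59.QP
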