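import Pool.Agent.Q59.QP.Bridge
import Pool.Agent.Q59.DN.Sys

/-!
# The algebraic characters as points of cosets
-/

namespace Pool.Agent.Q59.QP

open Finset Pool.Agent.H916R2
open Pool.Agent.Q59.DN (gen_B0 adm_sub gen_of_B0)
open Pool.Agent.Q59.RL (B0 half_add_half Adm AdmSys)

section res

variable (N : ℕ) [NeZero N]

open Classical in
/-- the residue of a point killed by `N` -/
noncomputable def res (z : UnitAddCircle) : ZMod N :=
  if h : ∃ a : ZMod N, tp a = z then h.choose else 0

variable {N}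

lemma tp_res {z : UnitAddCircle} (h : N • z = 0) : tp (res N z) = z := by
  unfold res
  rw [dif_pos (exists_tp h)]
  exact (exists_tp h).choose_spec

lemma res_tp (a : ZMod N) : res N (tp a) = a := tp_inj (tp_res (nsmul_tp a))

lemma res_eq {z : UnitAddCircle} {a : ZMod N} (h : tp a = z) : res N z = a := by
  rw [← h, res_tp]

lemma tp_add (a b : ZMod N) : tp (a + b) = tp a + tp b := by
  obtain ⟨n, rfl⟩ : ∃ n : ℕ, a = (n : ZMod N) := ⟨a.val, (ZMod.natCast_zmod_val a).symm⟩
  obtain ⟨n', rfl⟩ : ∃ n : ℕ, b = (n : ZMod N) := ⟨b.val, (ZMod.natCast_zmod_val b).symm⟩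
  rw [← Nat.cast_add, tp_natCast (NeZero.pos N), tp_natCast (NeZero.pos N),
    tp_natCast (NeZero.pos N), pt_add]

lemma tp_neg (a : ZMod N) : tp (-a) = -tp a := by
  have h := tp_add a (-a)
  rw [add_neg_cancel, tp_zero] at h
  exact (neg_eq_of_add_eq_zero_right h.symm).symm

lemma res_neg {z : UnitAddCircle} (h : N • z = 0) : res N (-z) = -res N z :=
  res_eq (by rw [tp_neg, tp_res h])

lemma pt_mul {κ : ℕ} (hκ : 0 < κ) (c r : ℕ) (hc : 0 < c) : pt (κ * c) (r * c) = pt κ r := by
  unfold pt
  congr 1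
  have h1 : (κ : ℝ) ≠ 0 := by exact_mod_cast hκ.ne'
  have h2 : (c : ℝ) ≠ 0 := by exact_mod_cast hc.ne'
  push_cast
  field_simp

end res

section psi

variable {N : ℕ} [NeZero N] {Q : Type*} [AddCommGroup Q] {φ : ZMod N → Q}

/-- sums over two digits -/
lemma sum_digits {M : Type*} [AddCommMonoid M] {a b : ℕ} (ha : 0 < a) (f : ℕ → M) :
    ∑ j ∈ range (a * b), f j = ∑ r ∈ range a, ∑ s ∈ range b, f (r + a * s) := by
  rw [← sum_product']
  symm
  refine sum_nbij' (fun x => x.1 + a * x.2) (fun j => (j % a, j / a)) ?_ ?_ ?_ ?_ ?_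
  · rintro ⟨r, s⟩ h
    rw [mem_product, mem_range, mem_range] at h
    rw [mem_range]
    simp only at h ⊢
    calc r + a * s < a + a * s := by omega
      _ = a * (s + 1) := by ring
      _ ≤ a * b := Nat.mul_le_mul_left a (by omega)
  · intro j hj
    rw [mem_range] at hj
    rw [mem_product, mem_range, mem_range]
    exact ⟨Nat.mod_lt _ ha, Nat.div_lt_of_lt_mul hj⟩
  · rintro ⟨r, s⟩ h
    rw [mem_product, mem_range, mem_range] at h
    simp only at h ⊢
    rw [Nat.add_mul_mod_self_left, Nat.mod_eq_of_lt h.1, Nat.add_mul_div_left _ _ ha,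
      Nat.div_eq_of_lt h.1, zero_add]
  · intro j _
    exact Nat.mod_add_div j a
  · rintro ⟨r, s⟩ _
    rfl

/-- the multiplication theorem for odd distributions -/
lemma psi_nsmul (hφ : OddDist φ) (κ : ℕ) : κ ∣ N → ∀ z : UnitAddCircle, N • z = 0 →
    φ (res N (κ • z)) = ∑ r ∈ range κ, φ (res N (z + pt κ r)) := by
  induction κ using induction_on_primes with
  | zero =>
    intro h
    exact absurd (Nat.eq_zero_of_zero_dvd h) (NeZero.ne N)
  | one =>
    intro _ z _
    rw [one_nsmul, range_one, sum_singleton, pt_eq, zero_nsmul, add_zero]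
  | prime_mul p a hp ih =>
    intro hd z hz
    have ha0 : 0 < a := by
      rcases Nat.eq_zero_or_pos a with h | h
      · rw [h, mul_zero] at hd
        exact absurd (Nat.eq_zero_of_zero_dvd hd) (NeZero.ne N)
      · exact h
    have hpN : p ∣ N := (Dvd.intro a rfl).trans hd
    have haN : a ∣ N := (Dvd.intro_left p rfl).trans hd
    have hprime : ∀ w : UnitAddCircle, N • w = 0 →
        φ (res N (p • w)) = ∑ r ∈ range p, φ (res N (w + pt p r)) := by
      intro w hw
      obtain ⟨b, rfl⟩ := exists_tp (m := N) hw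
      rw [← tp_mul, res_tp]
      obtain ⟨d, hd'⟩ := hpN
      have hd0 : 0 < d := by
        rcases Nat.eq_zero_or_pos d with h | h
        · rw [h, mul_zero] at hd'
          exact absurd hd' (NeZero.ne N)
        · exact h
      rw [← hφ.dist p d hp hd'.symm b]
      refine sum_congr rfl fun r _ => ?_
      congr 1
      symm
      apply res_eq
      rw [tp_add, ← Nat.cast_mul, tp_natCast (NeZero.pos N)]
      congr 1
      rw [hd']
      exact pt_mul hp.pos d r hd0
    have haz : N • (a • z) = 0 := by rw [smul_comm, hz, nsmul_zero]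
    rw [mul_nsmul', hprime _ haz]
    have h1 : ∀ r, a • z + pt p r = a • (z + pt (p * a) r) := by
      intro r
      rw [smul_add]
      congr 1
      rw [pt_eq (p * a) r, smul_comm, ← pt_eq, pt_eq p r]
      congr 1
      have := pt_mul hp.pos a 1 ha0
      rw [one_mul] at this
      exact this.symm
    have hpa : 0 < p * a := Nat.mul_pos hp.pos ha0
    have h2 : ∀ r, N • (z + pt (p * a) r) = 0 := by
      intro r
      obtain ⟨c, hc⟩ := hd
      rw [smul_add, hz, zero_add, hc, mul_comm, mul_nsmul', nsmul_pt hpa, nsmul_zero]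
    rw [sum_digits hp.pos]
    refine sum_congr rfl fun r _ => ?_
    rw [h1, ih haN _ (h2 r)]
    refine sum_congr rfl fun s _ => ?_
    congr 2
    rw [pt_add, add_assoc]
    congr 2
    rw [mul_comm p a, mul_comm p s]
    exact (pt_mul ha0 p s hp.pos).symm

lemma psi_zsmul (hφ : OddDist φ) {k : ℤ} (hk : k ≠ 0) (hkN : k.natAbs ∣ N) {z : UnitAddCircle}
    (hz : N • z = 0) :
    φ (res N (k • z)) = k.sign • ∑ r ∈ range k.natAbs, φ (res N (z + pt k.natAbs r)) := by
  rw [← psi_nsmul hφ k.natAbs hkN z hz]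
  rcases lt_or_gt_of_ne hk with h | h
  · rw [Int.sign_eq_neg_one_of_neg h]
    have h1 : k • z = -(k.natAbs • z) := by
      conv_lhs => rw [Int.eq_neg_comm.mp (Int.ofNat_natAbs_of_nonpos h.le), neg_smul, natCast_zsmul]
    rw [h1, res_neg (by rw [smul_comm, hz, nsmul_zero]), hφ.neg, neg_one_smul]
  · rw [Int.sign_eq_one_of_pos h]
    have h1 : k • z = k.natAbs • z := by
      conv_lhs => rw [← Int.natAbs_of_nonneg h.le, natCast_zsmul]
    rw [h1, one_smul]

/-- **Formal relations are relations in the universal odd distribution.** -/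
theorem class_sum (hφ : OddDist φ) {ι : Type*} {C : Finset ι} {k : ι → ℤ} {τ : ι → UnitAddCircle}
    (hk : ∀ i ∈ C, k i ≠ 0) (hJ : ∀ y, jump C k τ y = 0) {L : ℕ}
    (hL : ∀ i ∈ C, L • τ i = 0) (hLN : ∀ i ∈ C, L * (k i).natAbs ∣ N)
    {y : UnitAddCircle} (hy : N • y = 0) :
    ∑ i ∈ C, φ (res N (k i • y + τ i)) = 0 := by
  have hw : ∀ i : ι, ∃ w : UnitAddCircle, i ∈ C → k i • w = -τ i := by
    intro i
    by_cases hi : i ∈ C
    · obtain ⟨w, hw⟩ := exists_div (k i) (hk i hi) (-τ i)
      exact ⟨w, fun _ => hw⟩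
    · exact ⟨0, fun h => absurd h hi⟩
  choose w hw using hw
  have h1 := sum_solutions hk hJ hw (fun v => φ (res N (y - v)))
  rw [← h1]
  refine sum_congr rfl fun i hi => ?_
  have hpos : 0 < (k i).natAbs := Int.natAbs_pos.mpr (hk i hi)
  have hwN : N • w i = 0 := by
    obtain ⟨c, hc⟩ := hLN i hi
    have h3 : k i • (L • w i) = 0 := by
      rw [smul_comm, hw i hi, smul_neg, hL i hi, neg_zero]
    have h4 := natAbs_nsmul_eq_zero.mpr h3
    rw [hc, show L * (k i).natAbs * c = c * ((k i).natAbs * L) by ring, mul_nsmul', mul_nsmul', h4,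
      nsmul_zero]
  have h2 : k i • y + τ i = k i • (y - w i) := by
    rw [smul_sub, hw i hi, sub_neg_eq_add]
  rw [h2, psi_zsmul hφ (hk i hi) ((Dvd.intro_left L rfl).trans (hLN i hi))
    (by rw [smul_sub, hy, hwN, sub_zero])]
  congr 1
  have h3 : ∀ r, y - (w i + pt (k i).natAbs r) =
      (y - w i) + ((k i).natAbs - 1) • pt (k i).natAbs r := by
    intro r
    have h5 : -pt (k i).natAbs r = ((k i).natAbs - 1) • pt (k i).natAbs r := by
      have h5 := nsmul_pt hpos r
      rw [neg_eq_iff_add_eq_zero]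
      conv_rhs => rw [← h5]
      conv_lhs => rw [← one_nsmul (pt (k i).natAbs r)]
      rw [one_nsmul, ← succ_nsmul', Nat.sub_add_cancel hpos]
    rw [← h5]
    abel
  simp only [h3]
  symm
  refine sum_pt_mul hpos ?_ (fun v => φ (res N (y - w i + v)))
  rw [Nat.coprime_comm]
  exact (Nat.coprime_self_sub_right hpos).mpr (Nat.coprime_one_right _)

end psi

section Main

open Classical in
/-- the constant part of a datum as a multiset of residues -/
noncomputable def D0 {ι : Type*} [Fintype ι] (L : ℕ) [NeZero L] (D : Datum ι) :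
    Multiset (ZMod L) :=
  (univ.filter fun i => D.k i = 0).val.map fun i => res L (D.τ i)

open Classical in
/-- the constant part, made even -/
noncomputable def D0' {ι : Type*} [Fintype ι] (L : ℕ) [NeZero L] (D : Datum ι) :
    Multiset (ZMod L) :=
  if Even (Multiset.card (D0 L D)) then D0 L D else ((L / 2 : ℕ) : ZMod L) ::ₘ D0 L D

lemma tp_iota {κ m N : ℕ} [NeZero m] [NeZero N] (h : κ * m = N) (a : ZMod m) :
    tp (iota κ a : ZMod N) = tp a := by
  have hκ : 0 < κ := Nat.pos_of_ne_zero fun h0 => NeZero.ne N (by rw [← h, h0, zero_mul])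
  unfold iota
  rw [tp_natCast (NeZero.pos N), ← h, mul_comm κ m, mul_comm κ a.val,
    pt_mul (NeZero.pos m) κ _ hκ]
  rfl

lemma iota_res {κ m N : ℕ} [NeZero m] [NeZero N] (h : κ * m = N) {z : UnitAddCircle}
    (hz : m • z = 0) : (iota κ (res m z) : ZMod N) = res N z := by
  symm
  apply res_eq
  rw [tp_iota h, tp_res hz]

variable {A : ∀ m : ℕ, Multiset (ZMod m) → Prop}

/-- **The algebraicity depends on the constant part only.** -/
theorem alg_iff_const (hA : AdmSys A) {ι : Type*} [Fintype ι] (hι : Even (Fintype.card ι))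
    {L : ℕ} [NeZero L] (hL2 : 2 ∣ L) {D : Datum ι} (hD : D.Formal) (hτ : ∀ i, L • D.τ i = 0)
    {m : ℕ} [NeZero m] {s : ι → ZMod m} (hx : D.Mem (tps s)) (h0 : ∀ i, tps s i ≠ 0) :
    A m ((univ : Finset ι).val.map s) ↔ A L (D0' L D) := by
  classical
  obtain ⟨a, ha⟩ := hx
  set N : ℕ := m * (L * kprod D.k) with hN
  have hNpos : 0 < N := Nat.mul_pos (NeZero.pos m) (Nat.mul_pos (NeZero.pos L) (kprod_pos _))
  have : NeZero N := ⟨hNpos.ne'⟩
  have hN2 : 2 ∣ N := by
    rw [hN]
    exact (hL2.mul_right _).mul_left m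
  have h2N : 2 ≤ N := Nat.le_of_dvd hNpos hN2
  -- everything in degree `N`
  set x : ι → UnitAddCircle := tps s with hxdef
  have hmx : ∀ i, m • x i = 0 := fun i => nsmul_tp _
  have hNx : ∀ i, N • x i = 0 := by
    intro i
    rw [hN, mul_comm, mul_nsmul', hmx, nsmul_zero]
  set y : ι → ZMod N := fun i => res N (x i) with hy
  have hy0 : ∀ i, y i ≠ 0 := by
    intro i h
    apply h0 i
    rw [← tp_res (hNx i)]
    change tp (y i) = 0
    rw [h, tp_zero]
  have hlevel : A m ((univ : Finset ι).val.map s) ↔ A N ((univ : Finset ι).val.map y) := by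
    rw [hA.level (L * kprod D.k) m N hNpos (by rw [hN, mul_comm]), Multiset.map_map]
    have h1 : (iota (L * kprod D.k) ∘ s : ι → ZMod N) = y := by
      funext i
      rw [hy]
      simp only [Function.comp_apply]
      symm
      apply res_eq
      rw [tp_iota (by rw [hN, mul_comm])]
      rfl
    rw [h1]
  set s0 : Multiset (ZMod N) := (univ.filter fun i => D.k i = 0).val.map y with hs0
  set s1 : Multiset (ZMod N) := (univ.filter fun i => ¬ D.k i = 0).val.map y with hs1
  have hsum : (univ : Finset ι).val.map y = s0 + s1 := by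
    rw [hs0, hs1, ← Multiset.map_add]
    congr 1
    have h2 := disjUnion_eq_union _ _ (disjoint_filter_filter_not univ univ fun i => D.k i = 0)
    have h3 : (univ : Finset ι) = (univ.filter fun i => D.k i = 0).disjUnion
        (univ.filter fun i => ¬ D.k i = 0) (disjoint_filter_filter_not _ _ _) := by
      rw [disjUnion_eq_union, filter_union_filter_not_eq]
    conv_lhs => rw [h3]
    rfl
  -- the constant part
  have hs0' : s0 = (D0 L D).map (iota (m * kprod D.k) : ZMod L → ZMod N) := by
    unfold D0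
    rw [hs0, Multiset.map_map]
    refine Multiset.map_congr rfl fun i hi => ?_
    have hi' : D.k i = 0 := (mem_filter.mp hi).2
    rw [Function.comp_apply, iota_res (by rw [hN]; ring) (hτ i), hy]
    simp only
    rw [ha i, hi', zero_smul, zero_add]
  -- the class of the other part
  have hcl : ∀ {Q : Type} [AddCommGroup Q] {φ : ZMod N → Q}, OddDist φ → (s1.map φ).sum = 0 := by
    intro Q _ φ hφ
    rw [hs1, Multiset.map_map]
    change ∑ i with ¬ D.k i = 0, φ (y i) = 0
    rw [← sum_fiberwise (univ.filter fun i => ¬ D.k i = 0) D.c]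
    refine sum_eq_zero fun r _ => ?_
    rw [filter_filter]
    have hset : (univ.filter fun i => ¬ D.k i = 0 ∧ D.c i = r) =
        univ.filter fun i => D.c i = r ∧ D.k i ≠ 0 := by
      ext i
      simp only [mem_filter, mem_univ, true_and]
      tauto
    rw [hset]
    rcases (univ.filter fun i => D.c i = r ∧ D.k i ≠ 0).eq_empty_or_nonempty with hemp | ⟨i0, hi0⟩
    · rw [hemp, sum_empty]
    · obtain ⟨-, hc0, hk0⟩ := mem_filter.mp hi0
      have haN : N • a r = 0 := by
        have h1 : D.k i0 • a r = x i0 - D.τ i0 := by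
          rw [ha i0, hc0, add_sub_cancel_right]
        have h2 : D.k i0 • ((m * L) • a r) = 0 := by
          rw [smul_comm, h1, smul_sub, mul_comm m L, mul_nsmul', hmx, nsmul_zero, mul_comm L m,
            mul_nsmul', hτ, nsmul_zero, sub_zero]
        have h3 := natAbs_nsmul_eq_zero.mpr h2
        obtain ⟨d, hd⟩ := natAbs_dvd_kprod D.k hk0
        rw [hN, hd, show m * (L * ((D.k i0).natAbs * d)) = d * ((D.k i0).natAbs * (m * L)) by ring,
          mul_nsmul', mul_nsmul', h3, nsmul_zero]
      have h4 := class_sum hφ (C := univ.filter fun i => D.c i = r ∧ D.k i ≠ 0) (k := D.k)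
        (τ := D.τ) (fun i hi => (mem_filter.mp hi).2.2) (hD.jump r) (L := L)
        (fun i _ => hτ i) (fun i hi => by
          rw [hN]
          exact (Nat.mul_dvd_mul_left L (natAbs_dvd_kprod D.k (mem_filter.mp hi).2.2)).mul_left m)
        haN
      rw [← h4]
      refine sum_congr rfl fun i hi => ?_
      rw [hy]
      simp only
      rw [ha i, (mem_filter.mp hi).2.1]
  have h01 : (0 : ZMod N) ∉ s1 := by
    intro h
    obtain ⟨i, -, hi⟩ := Multiset.mem_map.mp h
    exact hy0 i hi
  have hAN := hA.adm N hNpos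
  have hcard : Multiset.card s0 + Multiset.card s1 = Fintype.card ι := by
    have h1 := congrArg Multiset.card hsum
    rw [Multiset.card_map, Multiset.card_add] at h1
    rw [← h1]
    rfl
  have hcard0 : Multiset.card s0 = Multiset.card (D0 L D) := by
    rw [hs0', Multiset.card_map]
  rw [hlevel, hsum]
  have hLN : m * kprod D.k * L = N := by rw [hN]; ring
  by_cases hev : Even (Multiset.card (D0 L D))
  · have hev1 : Even (Multiset.card s1) := by
      rw [← hcard, hcard0] at hι
      exact (Nat.even_add.mp hι).mp hev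
    have hg : A N s1 := gen_of_B0 hAN (gen_B0 h2N h01 hev1 (hcl (cQ_oddDist (m := N))))
    unfold D0'
    rw [if_pos hev, hA.level (m * kprod D.k) L N hNpos hLN, ← hs0']
    exact ⟨fun h => adm_sub hAN h hg, fun h => hAN.join _ _ h hg⟩
  · have hodd1 : ¬ Even (Multiset.card s1) := by
      rw [← hcard, hcard0] at hι
      exact fun h => hev ((Nat.even_add.mp hι).mpr h)
    have hhh := half_add_half hN2
    have hneg : -((N / 2 : ℕ) : ZMod N) = ((N / 2 : ℕ) : ZMod N) :=
      neg_eq_of_add_eq_zero_left hhh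
    have hhalf0 : ((N / 2 : ℕ) : ZMod N) ≠ 0 := by
      intro h
      rw [ZMod.natCast_eq_zero_iff] at h
      have h1 := Nat.le_of_dvd (by omega) h
      omega
    have hg : A N (((N / 2 : ℕ) : ZMod N) ::ₘ s1) := by
      refine gen_of_B0 hAN (gen_B0 h2N ?_ ?_ ?_)
      · rw [Multiset.mem_cons]
        rintro (h | h)
        · exact hhalf0 h.symm
        · exact h01 h
      · rw [Multiset.card_cons]
        exact Nat.even_add_one.mpr hodd1
      · rw [Multiset.map_cons, Multiset.sum_cons, hcl (cQ_oddDist (m := N)),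
          (cQ_oddDist (m := N)).half _ hhh, zero_add]
    have hL2' : (iota (m * kprod D.k) ((L / 2 : ℕ) : ZMod L) : ZMod N) = ((N / 2 : ℕ) : ZMod N) := by
      rw [iota_natCast hLN]
      congr 1
      obtain ⟨d, hd⟩ := hL2
      rw [← hLN, hd, Nat.mul_div_cancel_left d two_pos,
        show m * kprod D.k * (2 * d) = 2 * (m * kprod D.k * d) by ring,
        Nat.mul_div_cancel_left _ two_pos]
    unfold D0'
    rw [if_neg hev, hA.level (m * kprod D.k) L N hNpos hLN, Multiset.map_cons, hL2', ← hs0']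
    have h1 : ((N / 2 : ℕ) : ZMod N) ::ₘ -((N / 2 : ℕ) : ZMod N) ::ₘ (s0 + s1) =
        ((N / 2 : ℕ) : ZMod N) ::ₘ s0 + ((N / 2 : ℕ) : ZMod N) ::ₘ s1 := by
      rw [hneg, Multiset.add_cons, Multiset.cons_add]
    constructor
    · intro h
      have h2 : A N (((N / 2 : ℕ) : ZMod N) ::ₘ -((N / 2 : ℕ) : ZMod N) ::ₘ (s0 + s1)) := by
        have h3 := hAN.join _ _ (hAN.pair _ hhalf0) h
        rw [Multiset.insert_eq_cons, Multiset.cons_add, Multiset.singleton_add] at h3
        exact h3
      rw [h1] at h2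
      exact adm_sub hAN h2 hg
    · intro h
      apply hAN.cancel ((N / 2 : ℕ) : ZMod N)
      rw [h1]
      exact hAN.join _ _ h hg

end Main

end Pool.Agent.Q59.QP
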