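import Pool.Agent.Q59.QP.Avg

/-!
# The sawtooth function on the circle and continuous approximations
-/

namespace Pool.Agent.Q59.QP

open Finset MeasureTheory

/-- the sawtooth function on the circle -/
noncomputable def sw (z : UnitAddCircle) : ℝ :=
  AddCircle.liftIco 1 0 (fun y : ℝ => if y = 0 then 0 else y - 1 / 2) z

lemma sw_coe {y : ℝ} (h0 : 0 ≤ y) (h1 : y < 1) :
    sw (y : UnitAddCircle) = if y = 0 then 0 else y - 1 / 2 := by
  unfold sw
  rw [AddCircle.liftIco_coe_apply (by simpa using ⟨h0, h1⟩)]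

lemma abs_sw_le (z : UnitAddCircle) : |sw z| ≤ 1 := by
  obtain ⟨y, ⟨h0, h1⟩, rfl⟩ := AddCircle.eq_coe_Ico z
  rw [sw_coe h0 h1]
  split_ifs
  · simp
  · rw [abs_le]
    constructor <;> linarith

/-- the bump at zero -/
noncomputable def uK (K : ℕ) (y : ℝ) : ℝ := (1 - y) ^ (K + 1) + y ^ (K + 1)

/-- the bump at zero on the circle, real valued -/
noncomputable def uR (K : ℕ) (z : UnitAddCircle) : ℝ := AddCircle.liftIco 1 0 (uK K) z

/-- the bump at zero on the circle -/
noncomputable def U (K : ℕ) : C(UnitAddCircle, ℂ) where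
  toFun := AddCircle.liftIco 1 0 (fun y => ((uK K y : ℝ) : ℂ))
  continuous_toFun := by
    apply AddCircle.liftIco_zero_continuous
    · simp [uK]
    · apply Continuous.continuousOn
      unfold uK
      fun_prop

/-- the continuous approximation of the sawtooth function -/
noncomputable def Gs (K : ℕ) : C(UnitAddCircle, ℂ) where
  toFun := AddCircle.liftIco 1 0 (fun y => (((y - 1 / 2) * (1 - uK K y) : ℝ) : ℂ))
  continuous_toFun := by
    apply AddCircle.liftIco_zero_continuous
    · simp [uK]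
    · apply Continuous.continuousOn
      unfold uK
      fun_prop

lemma U_coe (K : ℕ) {y : ℝ} (h0 : 0 ≤ y) (h1 : y < 1) :
    U K (y : UnitAddCircle) = ((uK K y : ℝ) : ℂ) := by
  change AddCircle.liftIco (1 : ℝ) 0 (fun y => ((uK K y : ℝ) : ℂ)) (y : UnitAddCircle) = _
  rw [AddCircle.liftIco_coe_apply (by simpa using ⟨h0, h1⟩)]

lemma uR_coe (K : ℕ) {y : ℝ} (h0 : 0 ≤ y) (h1 : y < 1) :
    uR K (y : UnitAddCircle) = uK K y := by
  unfold uR
  rw [AddCircle.liftIco_coe_apply (by simpa using ⟨h0, h1⟩)]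

lemma Gs_coe (K : ℕ) {y : ℝ} (h0 : 0 ≤ y) (h1 : y < 1) :
    Gs K (y : UnitAddCircle) = (((y - 1 / 2) * (1 - uK K y) : ℝ) : ℂ) := by
  change AddCircle.liftIco (1 : ℝ) 0 (fun y => (((y - 1 / 2) * (1 - uK K y) : ℝ) : ℂ))
    (y : UnitAddCircle) = _
  rw [AddCircle.liftIco_coe_apply (by simpa using ⟨h0, h1⟩)]

lemma U_apply (K : ℕ) (z : UnitAddCircle) : U K z = (uR K z : ℂ) := by
  obtain ⟨y, ⟨h0, h1⟩, rfl⟩ := AddCircle.eq_coe_Ico z
  rw [U_coe K h0 h1, uR_coe K h0 h1]

lemma uK_nonneg (K : ℕ) {y : ℝ} (h0 : 0 ≤ y) (h1 : y ≤ 1) : 0 ≤ uK K y := by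
  unfold uK
  have : 0 ≤ 1 - y := by linarith
  positivity

lemma norm_sw_sub_le (K : ℕ) (z : UnitAddCircle) : ‖(sw z : ℂ) - Gs K z‖ ≤ uR K z := by
  obtain ⟨y, ⟨h0, h1⟩, rfl⟩ := AddCircle.eq_coe_Ico z
  rw [Gs_coe K h0 h1, uR_coe K h0 h1, sw_coe h0 h1, ← Complex.ofReal_sub, Complex.norm_real, Real.norm_eq_abs]
  have hu := uK_nonneg K h0 h1.le
  split_ifs with hy
  · subst hy
    simp [uK]
  · have e3 : y - 1 / 2 - (y - 1 / 2) * (1 - uK K y) = (y - 1 / 2) * uK K y := by ring
    rw [e3, abs_mul, abs_of_nonneg hu]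
    have h3 : |y - 1 / 2| ≤ 1 := by
      rw [abs_le]
      constructor <;> linarith
    nlinarith

lemma integral_uK (K : ℕ) : ∫ y in (0 : ℝ)..1, uK K y = 2 / (K + 2) := by
  unfold uK
  rw [intervalIntegral.integral_add (by apply Continuous.intervalIntegrable; fun_prop)
    (by apply Continuous.intervalIntegrable; fun_prop)]
  have h1 : ∫ y in (0 : ℝ)..1, (1 - y) ^ (K + 1) = ∫ y in (0 : ℝ)..1, y ^ (K + 1) := by
    rw [intervalIntegral.integral_comp_sub_left (fun y => y ^ (K + 1)) 1]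
    simp
  rw [h1, integral_pow]
  push_cast
  simp
  ring

lemma fourierCoeff_U (K : ℕ) : fourierCoeff (U K) 0 = ((2 / (K + 2) : ℝ) : ℂ) := by
  rw [fourierCoeff_eq_intervalIntegral _ _ 0, zero_add, div_one, one_smul, ← integral_uK,
    ← intervalIntegral.integral_ofReal]
  refine intervalIntegral.integral_congr_Ioo_of_le zero_le_one fun x hx => ?_
  rw [U_coe K hx.1.le hx.2, neg_zero, fourier_zero, one_smul]

lemma norm_fourierCoeff_sub_le (K : ℕ) (N : ℤ) :
    ‖fourierCoeff (Gs K) N - bernoulliFourierCoeff 1 N‖ ≤ 2 / (K + 2) := by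
  have h1 : fourierCoeff (Gs K) N = ∫ x in (0 : ℝ)..1, fourier (-N) (x : UnitAddCircle) •
      (((x - 1 / 2) * (1 - uK K x) : ℝ) : ℂ) := by
    rw [fourierCoeff_eq_intervalIntegral _ _ 0, zero_add, div_one, one_smul]
    refine intervalIntegral.integral_congr_Ioo_of_le zero_le_one fun x hx => ?_
    rw [Gs_coe K hx.1.le hx.2]
  have h2 : bernoulliFourierCoeff 1 N = ∫ x in (0 : ℝ)..1, fourier (-N) (x : UnitAddCircle) •
      ((x - 1 / 2 : ℝ) : ℂ) := by
    unfold bernoulliFourierCoeff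
    rw [fourierCoeffOn_eq_integral]
    simp only [sub_zero, div_one, one_smul, bernoulliFun_one]
    refine intervalIntegral.integral_congr fun x _ => ?_
    simp only [fourier_coe_apply]
    norm_num
  rw [h1, h2, ← intervalIntegral.integral_sub, ← integral_uK]
  · refine intervalIntegral.norm_integral_le_of_norm_le zero_le_one ?_ ?_
    · refine Filter.Eventually.of_forall fun x hx => ?_
      rw [← smul_sub, norm_smul, ← Complex.ofReal_sub, Complex.norm_real, Real.norm_eq_abs]
      have e3 : (x - 1 / 2) * (1 - uK K x) - (x - 1 / 2) = -((x - 1 / 2) * uK K x) := by ring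
      have hu := uK_nonneg K hx.1.le hx.2
      have h4 : |x - 1 / 2| ≤ 1 := by
        rw [abs_le]
        constructor <;> linarith [hx.1, hx.2]
      rw [e3, abs_neg, abs_mul, abs_of_nonneg hu, fourier_apply, Circle.norm_coe, one_mul]
      nlinarith
    · apply Continuous.intervalIntegrable
      unfold uK
      fun_prop
  · apply Continuous.intervalIntegrable
    unfold uK
    have : Continuous fun x : ℝ => fourier (-N) (x : UnitAddCircle) :=
      (map_continuous _).comp (AddCircle.continuous_mk' 1)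
    fun_prop
  · apply Continuous.intervalIntegrable
    have : Continuous fun x : ℝ => fourier (-N) (x : UnitAddCircle) :=
      (map_continuous _).comp (AddCircle.continuous_mk' 1)
    fun_prop

end Pool.Agent.Q59.QP
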