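import Mathlib

/-!
# Averages of characters over the units congruent to one
-/

namespace Pool.Agent.Q59.QP

open Finset

/-- the character `x ↦ exp (2 π i x)` of the circle -/
noncomputable def e (z : UnitAddCircle) : ℂ := (AddCircle.toCircle z : ℂ)

lemma e_add (z w : UnitAddCircle) : e (z + w) = e z * e w := by
  unfold e
  rw [AddCircle.toCircle_add]
  simp

@[simp] lemma e_zero : e 0 = 1 := by
  unfold e
  rw [AddCircle.toCircle_zero]
  simp

@[simp] lemma norm_e (z : UnitAddCircle) : ‖e z‖ = 1 := by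
  unfold e
  exact Circle.norm_coe _

lemma e_eq_one_iff {z : UnitAddCircle} : e z = 1 ↔ z = 0 := by
  constructor
  · intro h
    apply AddCircle.injective_toCircle one_ne_zero
    apply Circle.ext
    rw [AddCircle.toCircle_zero, Circle.coe_one]
    exact h
  · rintro rfl
    exact e_zero

lemma e_nsmul (n : ℕ) (z : UnitAddCircle) : e (n • z) = e z ^ n := by
  induction n with
  | zero => simp
  | succ n ih => rw [succ_nsmul, e_add, ih, pow_succ]

lemma e_neg (z : UnitAddCircle) : e (-z) = (e z)⁻¹ := by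
  have h : e (-z) * e z = 1 := by rw [← e_add, neg_add_cancel, e_zero]
  exact eq_inv_of_mul_eq_one_left h

lemma fourier_eq (k : ℤ) (z : UnitAddCircle) : fourier k z = e (k • z) := rfl

/-- a nontrivial sum over multiples vanishes -/
lemma sum_e_eq_zero {l : ℕ} {z : UnitAddCircle} (h1 : l • z = 0) (h2 : z ≠ 0) :
    ∑ j ∈ range l, e (j • z) = 0 := by
  have h3 : e z ≠ 1 := fun h => h2 (e_eq_one_iff.mp h)
  have h4 : (∑ j ∈ range l, e z ^ j) * (e z - 1) = 0 := by
    rw [geom_sum_mul, ← e_nsmul, h1, e_zero, sub_self]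
  have h5 := (mul_eq_zero.mp h4).resolve_right (sub_ne_zero.mpr h3)
  rw [← h5]
  exact sum_congr rfl fun j _ => e_nsmul j z

/-- the units modulo `m` congruent to one modulo `L` -/
def T (m L : ℕ) : Finset ℕ := (range m).filter fun t => t.Coprime m ∧ t ≡ 1 [MOD L]

lemma mem_T {m L t : ℕ} : t ∈ T m L ↔ t < m ∧ t.Coprime m ∧ t ≡ 1 [MOD L] := by
  unfold T
  rw [mem_filter, mem_range]

lemma mul_mod_mem {m L : ℕ} (hm : 0 < m) (hL : L ∣ m) {t u : ℕ} (ht : t.Coprime m)
    (ht1 : t ≡ 1 [MOD L]) (hu : u.Coprime m) (hu1 : u ≡ 1 [MOD L]) : t * u % m ∈ T m L := by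
  refine mem_T.mpr ⟨Nat.mod_lt _ hm, ?_, ?_⟩
  · have h : (t * u).Coprime m := Nat.Coprime.mul_left ht hu
    unfold Nat.Coprime at h ⊢
    rw [← h, ← Nat.gcd_rec, Nat.gcd_comm]
  · exact ((Nat.mod_modEq (t * u) m).of_dvd hL).trans (ht1.mul hu1)

lemma T_card_pos {m L : ℕ} (hm : 0 < m) (hL : L ∣ m) : 0 < (T m L).card := by
  refine card_pos.mpr ⟨1 * 1 % m, ?_⟩
  exact mul_mod_mem hm hL (Nat.coprime_one_left m) rfl (Nat.coprime_one_left m) rfl

/-- the average over these units -/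
noncomputable def avg (m L : ℕ) (F : ℕ → ℂ) : ℂ := (∑ t ∈ T m L, F t) / (T m L).card

section

variable {m L : ℕ}

lemma avg_congr {F G : ℕ → ℂ} (h : ∀ t ∈ T m L, F t = G t) : avg m L F = avg m L G := by
  unfold avg
  rw [sum_congr rfl h]

lemma avg_add (F G : ℕ → ℂ) : avg m L (fun t => F t + G t) = avg m L F + avg m L G := by
  unfold avg
  rw [sum_add_distrib, add_div]

lemma avg_sub (F G : ℕ → ℂ) : avg m L (fun t => F t - G t) = avg m L F - avg m L G := by
  unfold avg
  rw [sum_sub_distrib, sub_div]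

lemma avg_mul_left (c : ℂ) (F : ℕ → ℂ) : avg m L (fun t => c * F t) = c * avg m L F := by
  unfold avg
  rw [← mul_sum, mul_div_assoc]

lemma avg_sum {ι : Type*} (s : Finset ι) (F : ι → ℕ → ℂ) :
    avg m L (fun t => ∑ i ∈ s, F i t) = ∑ i ∈ s, avg m L (F i) := by
  unfold avg
  rw [sum_comm, sum_div]

lemma norm_avg_le {F : ℕ → ℂ} {C : ℝ} (hC : 0 ≤ C) (h : ∀ t ∈ T m L, ‖F t‖ ≤ C) :
    ‖avg m L F‖ ≤ C := by
  unfold avg
  rw [norm_div, Complex.norm_natCast]
  apply div_le_of_le_mul₀ (Nat.cast_nonneg _) hC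
  refine (norm_sum_le_of_le _ h).trans ?_
  rw [sum_const, nsmul_eq_mul, mul_comm]

lemma norm_avg_le_avg {F : ℕ → ℂ} {g : ℕ → ℝ} (h : ∀ t ∈ T m L, ‖F t‖ ≤ g t) :
    ‖avg m L F‖ ≤ ‖avg m L (fun t => (g t : ℂ))‖ := by
  unfold avg
  rw [norm_div, norm_div, Complex.norm_natCast]
  apply div_le_div_of_nonneg_right _ (Nat.cast_nonneg _)
  refine (norm_sum_le_of_le _ h).trans ?_
  rw [← Complex.ofReal_sum, Complex.norm_real]
  exact le_abs_self _

/-- invariance under multiplication -/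
lemma avg_mul (hm : 0 < m) (hL : L ∣ m) {u : ℕ} (hu : u.Coprime m) (hu1 : u ≡ 1 [MOD L])
    {F : ℕ → ℂ} (hF : ∀ t, F (t % m) = F t) : avg m L (fun t => F (t * u)) = avg m L F := by
  unfold avg
  congr 1
  have hinj : Set.InjOn (fun t => t * u % m) (T m L : Set ℕ) := by
    intro a ha b hb hab
    have h1 : a ≡ b [MOD m] := by
      apply Nat.ModEq.cancel_right_of_coprime (c := u)
      · rw [Nat.gcd_comm]; exact hu
      · exact hab
    have h2 := (mem_T.mp ha).1
    have h3 := (mem_T.mp hb).1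
    exact Nat.ModEq.eq_of_lt_of_lt h1 h2 h3
  have himg : (T m L).image (fun t => t * u % m) = T m L := by
    apply eq_of_subset_of_card_le
    · intro x hx
      obtain ⟨t, ht, rfl⟩ := mem_image.mp hx
      obtain ⟨-, h2, h3⟩ := mem_T.mp ht
      exact mul_mod_mem hm hL h2 h3 hu hu1
    · rw [card_image_of_injOn hinj]
  calc ∑ t ∈ T m L, F (t * u) = ∑ t ∈ T m L, F (t * u % m) :=
        sum_congr rfl fun t _ => (hF _).symm
    _ = ∑ x ∈ (T m L).image (fun t => t * u % m), F x := (sum_image hinj).symm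
    _ = _ := by rw [himg]

end

/-- multiples of a torsion point -/
lemma mod_nsmul {m : ℕ} {z : UnitAddCircle} (hz : m • z = 0) (t : ℕ) : (t % m) • z = t • z := by
  conv_rhs => rw [← Nat.mod_add_div t m, mul_comm m, add_nsmul, mul_nsmul', hz, nsmul_zero, add_zero]

/-- the average of a point killed by `L` -/
lemma avg_of_killed {m L : ℕ} (hm : 0 < m) (hL : L ∣ m) {z : UnitAddCircle} (hz : L • z = 0)
    (F : UnitAddCircle → ℂ) : avg m L (fun t => F (t • z)) = F z := by
  have h1 : ∀ t ∈ T m L, F (t • z) = F z := by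
    intro t ht
    have h2 := (mem_T.mp ht).2.2
    have h3 : t • z = z := by
      rw [← mod_nsmul hz t, h2, mod_nsmul hz, one_nsmul]
    rw [h3]
  rw [avg_congr h1]
  unfold avg
  rw [sum_const, nsmul_eq_mul]
  have h4 : ((T m L).card : ℂ) ≠ 0 := by
    have := T_card_pos hm hL
    exact_mod_cast this.ne'
  field_simp

end Pool.Agent.Q59.QP
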