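import Pool.Agent.Q59.QP.Good
import Pool.Agent.Q59.DT.Main

/-!
# Hodge characters as points of the cosets
-/

namespace Pool.Agent.Q59.QP

open Finset Pool.Agent.H916R2

section

variable {m : ℕ}

/-- the point of the circle -/
noncomputable def tp (a : ZMod m) : UnitAddCircle := pt m a.val

variable [NeZero m]

omit [NeZero m] in
lemma tp_natCast (hm : 0 < m) (n : ℕ) : tp ((n : ℕ) : ZMod m) = pt m n := by
  have : NeZero m := ⟨hm.ne'⟩
  unfold tp
  rw [ZMod.val_natCast, pt_eq, mod_nsmul (nsmul_pt hm 1), ← pt_eq]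

lemma tp_mul (t : ℕ) (a : ZMod m) : tp ((t : ZMod m) * a) = t • tp a := by
  obtain ⟨n, rfl⟩ : ∃ n : ℕ, a = (n : ZMod m) := ⟨a.val, (ZMod.natCast_zmod_val a).symm⟩
  rw [← Nat.cast_mul, tp_natCast (NeZero.pos m), tp_natCast (NeZero.pos m), pt_eq, pt_eq m n,
    mul_nsmul']

lemma nsmul_tp (a : ZMod m) : m • tp a = 0 := nsmul_pt (NeZero.pos m) _

lemma tp_inj {a b : ZMod m} (h : tp a = tp b) : a = b :=
  ZMod.val_injective m (pt_inj (NeZero.pos m) (ZMod.val_lt a) (ZMod.val_lt b) h)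

omit [NeZero m] in
lemma tp_zero : tp (0 : ZMod m) = 0 := by
  unfold tp
  rw [ZMod.val_zero, pt_eq, zero_nsmul]

lemma tp_eq_zero {a : ZMod m} : tp a = 0 ↔ a = 0 := by
  rw [← tp_zero (m := m)]
  exact ⟨fun h => tp_inj h, fun h => by rw [h]⟩

lemma exists_tp {z : UnitAddCircle} (h : m • z = 0) : ∃ a : ZMod m, tp a = z := by
  obtain ⟨r, hr, rfl⟩ := exists_pt (NeZero.pos m) h
  exact ⟨(r : ZMod m), tp_natCast (NeZero.pos m) r⟩

lemma saw_eq (a : ZMod m) : (saw a : ℝ) = 2 * m * sw (tp a) := by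
  have hm : (0 : ℝ) < m := by exact_mod_cast NeZero.pos m
  by_cases ha : a = 0
  · subst ha
    rw [saw_zero, tp_zero, sw_zero]
    simp
  · rw [saw_of_ne_zero ha]
    unfold tp pt
    have h1 : (a.val : ℝ) < m := by exact_mod_cast ZMod.val_lt a
    have h2 : (a.val : ℝ) / m ≠ 0 := by
      have : a.val ≠ 0 := fun h => ha ((ZMod.val_eq_zero a).mp h)
      positivity
    rw [sw_coe (by positivity) ((div_lt_one hm).mpr h1), if_neg h2]
    push_cast
    field_simp

/-- the tuple of points -/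
noncomputable def tps {ι : Type*} (s : ι → ZMod m) : ι → UnitAddCircle := fun i => tp (s i)

lemma hodge_iff {k : ℕ} (s : Fin (2 * k) → ZMod m) :
    IsHodge m ((univ : Finset (Fin (2 * k))).val.map s) ↔
      (∀ i, tps s i ≠ 0) ∧ ∀ t : ℕ, t.Coprime m → ∑ i, sw (t • tps s i) = 0 := by
  have hm : (m : ℝ) ≠ 0 := by exact_mod_cast NeZero.ne m
  have hkey : ∀ t : (ZMod m)ˣ,
      ((((univ : Finset (Fin (2 * k))).val.map s).map fun a => saw ((t : ZMod m) * a)).sum : ℝ) =
        2 * m * ∑ i, sw ((t : ZMod m).val • tps s i) := by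
    intro t
    rw [Multiset.map_map]
    change ((∑ i, saw ((t : ZMod m) * s i) : ℤ) : ℝ) = _
    rw [Int.cast_sum, mul_sum]
    refine sum_congr rfl fun i _ => ?_
    rw [saw_eq]
    congr 2
    unfold tps
    rw [← tp_mul, ZMod.natCast_zmod_val]
  constructor
  · intro hs
    refine ⟨fun i hi => hs.1 ?_, fun t ht => ?_⟩
    · rw [← tp_eq_zero.mp hi]
      exact Multiset.mem_map_of_mem s (mem_univ i)
    · have h1 := hkey (ZMod.unitOfCoprime t ht)
      rw [hs.saw_sum] at h1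
      have h2 : ∀ i, sw (((ZMod.unitOfCoprime t ht : (ZMod m)ˣ) : ZMod m).val • tps s i) =
          sw (t • tps s i) := by
        intro i
        congr 1
        refine smul_congr (nsmul_tp (s i)) ?_
        rw [ZMod.coe_unitOfCoprime, ZMod.val_natCast]
        exact Nat.mod_modEq t m
      simp only [h2] at h1
      rw [Int.cast_zero] at h1
      have h3 := mul_eq_zero.mp h1.symm
      rcases h3 with h3 | h3
      · exact absurd h3 (mul_ne_zero two_ne_zero hm)
      · exact h3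
  · rintro ⟨h0, hr⟩
    refine isHodge_of_saw ?_ ?_ fun t => ?_
    · intro h
      obtain ⟨i, -, hi⟩ := Multiset.mem_map.mp h
      exact h0 i (tp_eq_zero.mpr hi)
    · rw [Multiset.card_map]
      change Even (univ : Finset (Fin (2 * k))).card
      rw [card_univ, Fintype.card_fin]
      exact even_two_mul k
    · have h1 := hkey t
      rw [hr _ (ZMod.val_coe_unit_coprime t), mul_zero] at h1
      exact_mod_cast h1

end

section

/-- the finite set of data -/
def WW (k H : ℕ) : Set (Datum (Fin (2 * k))) := {D | D.Formal ∧ D.Bounded H}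

lemma finite_bounded (ι : Type*) [Fintype ι] (H : ℕ) : {D : Datum ι | D.Bounded H}.Finite := by
  have h1 : {z : ℤ | z.natAbs ≤ H}.Finite := by
    refine (Set.finite_Icc (-(H : ℤ)) H).subset fun z hz => ?_
    have : z.natAbs ≤ H := hz
    constructor <;> omega
  have h2 : {z : UnitAddCircle | H.factorial • z = 0}.Finite := by
    refine (tm H.factorial).finite_toSet.subset fun z hz => ?_
    exact (mem_tm H.factorial_pos).mpr hz
  have h3 := (Set.finite_univ (α := ι → ι)).prod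
    ((Set.Finite.pi' (t := fun _ : ι => {z : ℤ | z.natAbs ≤ H}) fun _ => h1).prod
      (Set.Finite.pi' (t := fun _ : ι => {z : UnitAddCircle | H.factorial • z = 0}) fun _ => h2))
  refine Set.Finite.of_finite_image (f := fun D : Datum ι => (D.c, D.k, D.τ)) (h3.subset ?_) ?_
  · rintro _ ⟨D, hD, rfl⟩
    exact ⟨Set.mem_univ _, fun i => (hD i).1, fun i => (hD i).2⟩
  · rintro ⟨c, k, τ⟩ _ ⟨c', k', τ'⟩ _ h
    simp only [Prod.mk.injEq] at h
    obtain ⟨rfl, rfl, rfl⟩ := h
    rfl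

lemma finite_WW (k H : ℕ) : (WW k H).Finite :=
  (finite_bounded _ H).subset fun _ hD => hD.2

/-- the characterisation of the Hodge characters -/
theorem exists_WW (k : ℕ) : ∃ H : ℕ, 2 ≤ H ∧ ∀ m : ℕ, [NeZero m] → ∀ s : Fin (2 * k) → ZMod m,
    IsHodge m ((univ : Finset (Fin (2 * k))).val.map s) ↔
      (∃ D ∈ WW k H, D.Mem (tps s)) ∧ ∀ i, tps s i ≠ 0 := by
  obtain ⟨H0, hH0⟩ := exists_bound (Fin (2 * k))
  refine ⟨H0 + 2, by omega, fun m _ s => ?_⟩
  rw [hodge_iff]
  constructor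
  · rintro ⟨h0, hr⟩
    obtain ⟨D, hD1, hD2, hD3⟩ := hH0 (tps s) ⟨m, NeZero.pos m, fun i => nsmul_tp _, hr⟩
    refine ⟨⟨D, ⟨hD1, fun i => ⟨(hD2 i).1.trans (by omega), ?_⟩⟩, hD3⟩, h0⟩
    obtain ⟨d, hd⟩ := Nat.factorial_dvd_factorial (show H0 ≤ H0 + 2 by omega)
    rw [hd, mul_comm, mul_nsmul', (hD2 i).2, nsmul_zero]
  · rintro ⟨⟨D, hD, hDx⟩, h0⟩
    exact ⟨h0, fun t ht => hD.1.rel hDx (NeZero.pos m) (fun i => nsmul_tp _) ht⟩

/-- counting tuples of residues through points of the circle -/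
lemma card_eq_TT {k m : ℕ} [NeZero m] {P : (Fin (2 * k) → ZMod m) → Prop}
    {Q : (Fin (2 * k) → UnitAddCircle) → Prop} [DecidablePred Q]
    (h : ∀ s, P s ↔ Q (tps s)) :
    Nat.card {s : Fin (2 * k) → ZMod m // P s} = ((TT (Fin (2 * k)) m).filter Q).card := by
  classical
  rw [Nat.card_eq_fintype_card, Fintype.card_subtype]
  refine card_bij (fun s _ => tps s) ?_ ?_ ?_
  · intro s hs
    rw [mem_filter, mem_TT (NeZero.pos m)]
    exact ⟨fun i => nsmul_tp _, (h s).mp (mem_filter.mp hs).2⟩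
  · intro s _ s' _ hss
    funext i
    exact tp_inj (congrFun hss i)
  · intro x hx
    rw [mem_filter, mem_TT (NeZero.pos m)] at hx
    choose s hs using fun i => exists_tp (hx.1 i)
    have h1 : tps s = x := funext hs
    exact ⟨s, mem_filter.mpr ⟨mem_univ _, (h s).mpr (h1 ▸ hx.2)⟩, h1⟩

end

end Pool.Agent.Q59.QP
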