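import Pool.Agent.Q59.QP.Avg

/-!
# Decay of the averages of characters
-/

namespace Pool.Agent.Q59.QP

open Finset

/-- averaging over the translates `1 + j c` -/
lemma card_mul_norm_avg_le {m L l c : ℕ} (hm : 0 < m) (hL : L ∣ m) (hl : l.Prime) (hlm : l ∣ m)
    (hLc : L ∣ c) {z : UnitAddCircle} (hz : m • z = 0) (hcz : c • z ≠ 0) (hlcz : l • (c • z) = 0)
    {J : Finset ℕ} (hJ : J ⊆ range l) (hJm : ∀ j ∈ J, (1 + j * c).Coprime m) :
    (J.card : ℝ) * ‖avg m L (fun t => e (t • z))‖ ≤ ((range l \ J).card : ℝ) := by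
  have h1 : ∀ j ∈ J, avg m L (fun t => e (t • z)) =
      avg m L (fun t => e (t • z) * e (j • (t • (c • z)))) := by
    intro j hj
    have h2 : 1 + j * c ≡ 1 [MOD L] := by
      have h3 : 1 + j * c ≡ 1 + 0 [MOD L] :=
        Nat.ModEq.add_left 1 ((Nat.modEq_zero_iff_dvd).mpr (hLc.mul_left j))
      exact h3
    rw [← avg_mul hm hL (hJm j hj) h2 (F := fun t => e (t • z))
      (fun t => by simp only [mod_nsmul hz])]
    refine avg_congr fun t _ => ?_
    rw [← e_add]
    congr 1
    rw [mul_add, mul_one, add_nsmul]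
    congr 1
    rw [← mul_nsmul', ← mul_nsmul']
    congr 1
    ring
  have h2 : (J.card : ℂ) * avg m L (fun t => e (t • z)) =
      avg m L (fun t => e (t • z) * ∑ j ∈ J, e (j • (t • (c • z)))) := by
    rw [← nsmul_eq_mul, ← sum_const, sum_congr rfl h1, ← avg_sum]
    exact avg_congr fun t _ => (mul_sum _ _ _).symm
  have h3 : (J.card : ℝ) * ‖avg m L (fun t => e (t • z))‖ =
      ‖(J.card : ℂ) * avg m L (fun t => e (t • z))‖ := by
    rw [norm_mul, Complex.norm_natCast]
  rw [h3, h2]
  refine norm_avg_le (Nat.cast_nonneg _) fun t ht => ?_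
  rw [norm_mul, norm_e, one_mul]
  have h4 : t • (c • z) ≠ 0 := by
    intro h0
    obtain ⟨-, h5, -⟩ := mem_T.mp ht
    have h6 : addOrderOf (c • z) = l := by
      have h7 := addOrderOf_dvd_of_nsmul_eq_zero hlcz
      rcases (Nat.dvd_prime hl).mp h7 with h8 | h8
      · exact absurd (AddMonoid.addOrderOf_eq_one_iff.mp h8) hcz
      · exact h8
    have h7 := addOrderOf_dvd_of_nsmul_eq_zero h0
    rw [h6] at h7
    have h8 := Nat.dvd_gcd h7 hlm
    rw [h5] at h8
    exact hl.one_lt.ne' (Nat.dvd_one.mp h8)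
  have h5 : l • (t • (c • z)) = 0 := by
    rw [← mul_nsmul', mul_comm, mul_nsmul', hlcz, nsmul_zero]
  have h6 := sum_e_eq_zero h5 h4
  rw [← sum_sdiff hJ] at h6
  have h7 : ∑ j ∈ J, e (j • (t • (c • z))) = -∑ j ∈ range l \ J, e (j • (t • (c • z))) :=
    eq_neg_of_add_eq_zero_right h6
  rw [h7, norm_neg]
  refine (norm_sum_le _ _).trans ?_
  simp

/-- **Decay.** -/
theorem norm_avg_e_le {m L X : ℕ} (hm : 0 < m) (hL : L ∣ m) (hX : 0 < X) {z : UnitAddCircle}
    (hz : m • z = 0) (hz' : (L * X.factorial) • z ≠ 0) :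
    ‖avg m L (fun t => e (t • z))‖ ≤ 1 / X := by
  have hL0 : L ≠ 0 := by
    rintro rfl
    exact hz' (by simp)
  have hLX0 : L * X.factorial ≠ 0 := Nat.mul_ne_zero hL0 (Nat.factorial_ne_zero X)
  set q := addOrderOf z with hq
  have hqm : q ∣ m := addOrderOf_dvd_of_nsmul_eq_zero hz
  have hq0 : q ≠ 0 := by
    rintro h0
    rw [h0] at hqm
    exact hm.ne' (Nat.eq_zero_of_zero_dvd hqm)
  have hnd : ¬ q ∣ L * X.factorial := fun h => hz' (addOrderOf_dvd_iff_nsmul_eq_zero.mp h)
  rw [← Nat.factorization_prime_le_iff_dvd hq0 hLX0] at hnd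
  push Not at hnd
  obtain ⟨l, hl, hlt⟩ := hnd
  rw [Nat.factorization_mul hL0 (Nat.factorial_ne_zero X), Finsupp.add_apply] at hlt
  set v := q.factorization l with hv
  have hv1 : 1 ≤ v := by omega
  have hlq : l ∣ q := (hl.dvd_iff_one_le_factorization hq0).mpr hv1
  have hlm : l ∣ m := hlq.trans hqm
  -- the multiplier
  set m' := m / l ^ m.factorization l with hm'
  have hm'm : m' * l ^ m.factorization l = m := Nat.div_mul_cancel (Nat.ordProj_dvd m l)
  have hlm' : ¬ l ∣ m' := Nat.not_dvd_ordCompl hl hm.ne'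
  set c := l ^ (v - 1) * m' with hc
  have hcompl : ∀ d : ℕ, d ∣ m → d / l ^ d.factorization l ∣ m' := fun d hd =>
    Nat.ordCompl_dvd_ordCompl_of_dvd hd l
  have hLc : L ∣ c := by
    have h1 : L = l ^ L.factorization l * (L / l ^ L.factorization l) :=
      (Nat.mul_div_cancel' (Nat.ordProj_dvd L l)).symm
    rw [h1, hc]
    exact mul_dvd_mul (pow_dvd_pow l (by omega)) (hcompl L hL)
  have hqe : q = l ^ v * (q / l ^ v) := (Nat.mul_div_cancel' (Nat.ordProj_dvd q l)).symm
  have hlcz : l • (c • z) = 0 := by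
    rw [← mul_nsmul']
    apply addOrderOf_dvd_iff_nsmul_eq_zero.mp
    rw [← hq, hqe, hc, ← mul_assoc, ← pow_succ', Nat.sub_add_cancel hv1]
    exact mul_dvd_mul_left _ (hcompl q hqm)
  have hcz : c • z ≠ 0 := by
    intro h0
    have h1 := addOrderOf_dvd_of_nsmul_eq_zero h0
    rw [← hq] at h1
    have h2 : l ^ v ∣ l ^ (v - 1) * m' := (Nat.ordProj_dvd q l).trans h1
    have h3 : (l ^ v).Coprime m' := Nat.Coprime.pow_left _ ((Nat.Prime.coprime_iff_not_dvd hl).mpr hlm')
    have h4 := h3.dvd_of_dvd_mul_right h2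
    have h5 := (Nat.pow_dvd_pow_iff_le_right hl.one_lt).mp h4
    omega
  -- coprimality
  have hcop : ∀ j : ℕ, (1 + j * c).Coprime l → (1 + j * c).Coprime m := by
    intro j hj
    have h1 : (1 + j * c).Coprime m' := by
      have h2 : 1 + j * c = 1 + (j * l ^ (v - 1)) * m' := by rw [hc]; ring
      rw [h2, Nat.coprime_add_mul_right_left]
      exact Nat.coprime_one_left m'
    have h2 := h1.mul_right (hj.pow_right (m.factorization l))
    rwa [hm'm] at h2
  rcases Nat.lt_or_ge v 2 with hv2 | hv2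
  · -- `v = 1`, `l` is large
    have hv' : v = 1 := by omega
    have hXl : X < l := by
      by_contra hcon
      have h1 : l ∣ X.factorial := (Nat.Prime.dvd_factorial hl).mpr (by omega)
      have h2 := (hl.dvd_iff_one_le_factorization (Nat.factorial_ne_zero X)).mp h1
      omega
    set J := (range l).filter fun j => (1 + j * c).Coprime l with hJ
    have hJc : (range l \ J).card ≤ 1 := by
      rw [card_le_one]
      intro a ha b hb
      rw [mem_sdiff, hJ, mem_filter, mem_range] at ha hb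
      have ha2 : l ∣ 1 + a * c := by
        by_contra hcon
        exact ha.2 ⟨ha.1, Nat.Coprime.symm ((Nat.Prime.coprime_iff_not_dvd hl).mpr hcon)⟩
      have hb2 : l ∣ 1 + b * c := by
        by_contra hcon
        exact hb.2 ⟨hb.1, Nat.Coprime.symm ((Nat.Prime.coprime_iff_not_dvd hl).mpr hcon)⟩
      have h1 : 1 + a * c ≡ 1 + b * c [MOD l] :=
        ((Nat.modEq_zero_iff_dvd).mpr ha2).trans ((Nat.modEq_zero_iff_dvd).mpr hb2).symm
      have h2 : a * c ≡ b * c [MOD l] := Nat.ModEq.add_left_cancel' 1 h1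
      have h3 : a ≡ b [MOD l] := by
        apply Nat.ModEq.cancel_right_of_coprime (c := c) _ h2
        rw [hc, hv']
        simpa using (Nat.Prime.coprime_iff_not_dvd hl).mpr hlm'
      exact Nat.ModEq.eq_of_lt_of_lt h3 ha.1 hb.1
    have h1 := card_mul_norm_avg_le hm hL hl hlm hLc hz hcz hlcz (J := J) (filter_subset _ _)
      (fun j hj => hcop j (mem_filter.mp hj).2)
    have h2 : (range l \ J).card + J.card = l := by
      rw [card_sdiff_add_card_eq_card (filter_subset _ _), card_range]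
    have h3 : X ≤ J.card := by omega
    have h4 : (0 : ℝ) < X := by exact_mod_cast hX
    have h5 : (X : ℝ) ≤ J.card := by exact_mod_cast h3
    have h6 : ((range l \ J).card : ℝ) ≤ 1 := by exact_mod_cast hJc
    rw [le_div_iff₀ h4, mul_comm]
    calc (X : ℝ) * ‖avg m L (fun t => e (t • z))‖ ≤ J.card * ‖avg m L (fun t => e (t • z))‖ :=
          mul_le_mul_of_nonneg_right h5 (norm_nonneg _)
      _ ≤ 1 := h1.trans h6
  · -- `v ≥ 2`
    have hlc : l ∣ c := by
      rw [hc]
      exact (dvd_pow_self l (by omega)).mul_right m'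
    have h1 := card_mul_norm_avg_le hm hL hl hlm hLc hz hcz hlcz (J := range l) (Subset.refl _)
      (fun j _ => hcop j (by
        obtain ⟨c', hc'⟩ := hlc
        rw [hc', show 1 + j * (l * c') = 1 + (j * c') * l by ring, Nat.coprime_add_mul_right_left]
        exact Nat.coprime_one_left l))
    rw [Finset.sdiff_self, card_empty, Nat.cast_zero, card_range] at h1
    have h2 : (0 : ℝ) < l := by exact_mod_cast hl.pos
    have h3 : ‖avg m L (fun t => e (t • z))‖ ≤ 0 := by
      by_contra hcon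
      push Not at hcon
      have := mul_pos h2 hcon
      linarith
    exact h3.trans (by positivity)

end Pool.Agent.Q59.QP
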