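import Pool.Agent.Q59.QP.Alg

/-!
# The dimension of the cosets
-/

namespace Pool.Agent.Q59.QP

open Finset Pool.Agent.H916R2
open Pool.Agent.Q59.RL (B0 half_add_half Adm AdmSys)

section Dim

variable {ι : Type*} [Fintype ι] [DecidableEq ι]

/-- the active classes -/
noncomputable def RR (D : Datum ι) : Finset ι := (univ.filter fun i => D.k i ≠ 0).image D.c

/-- the number of the torsion points of a coset -/
lemma card_mem_le {D : Datum ι} {L : ℕ} (hL : 0 < L) (hτ : ∀ i, L • D.τ i = 0) {m : ℕ} (hm : 0 < m)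
    [DecidablePred D.Mem] :
    ((TT ι m).filter D.Mem).card ≤ (L * kprod D.k) ^ (RR D).card * m ^ (RR D).card := by
  classical
  set M : ℕ := L * kprod D.k with hM
  have hM0 : 0 < M := Nat.mul_pos hL (kprod_pos _)
  have hmM : 0 < m * M := Nat.mul_pos hm hM0
  set Φ : (RR D → UnitAddCircle) → (ι → UnitAddCircle) := fun a i =>
    if h : D.c i ∈ RR D then D.k i • a ⟨D.c i, h⟩ + D.τ i else D.τ i with hΦ
  have hsub : (TT ι m).filter D.Mem ⊆ (Fintype.piFinset fun _ : RR D => tm (m * M)).image Φ := by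
    intro x hx
    obtain ⟨hx1, a, ha⟩ := mem_filter.mp hx
    rw [mem_TT hm] at hx1
    rw [mem_image]
    refine ⟨fun r => a r.1, ?_, ?_⟩
    · rw [Fintype.mem_piFinset]
      rintro ⟨r, hr⟩
      rw [mem_tm hmM]
      obtain ⟨i0, hi0, hc0⟩ := mem_image.mp hr
      have hk0 : D.k i0 ≠ 0 := (mem_filter.mp hi0).2
      have h1 : D.k i0 • a r = x i0 - D.τ i0 := by
        rw [ha i0, hc0, add_sub_cancel_right]
      have h2 : D.k i0 • ((m * L) • a r) = 0 := by
        rw [smul_comm, h1, smul_sub, mul_comm m L, mul_nsmul', hx1, nsmul_zero, mul_comm L m,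
          mul_nsmul', hτ, nsmul_zero, sub_zero]
      have h3 := natAbs_nsmul_eq_zero.mpr h2
      obtain ⟨d, hd⟩ := natAbs_dvd_kprod D.k hk0
      simp only
      rw [hM, hd, show m * (L * ((D.k i0).natAbs * d)) = d * ((D.k i0).natAbs * (m * L)) by ring,
        mul_nsmul', mul_nsmul', h3, nsmul_zero]
    · funext i
      rw [hΦ]
      simp only
      split_ifs with h
      · exact (ha i).symm
      · have hk : D.k i = 0 := by
          by_contra hk
          exact h (mem_image_of_mem _ (mem_filter.mpr ⟨mem_univ i, hk⟩))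
        rw [ha i, hk, zero_smul, zero_add]
  refine (card_le_card hsub).trans (card_image_le.trans ?_)
  rw [Fintype.card_piFinset, prod_const, card_tm hmM, card_univ, Fintype.card_coe, mul_pow,
    mul_comm]

/-- a bound for the number of the points in cosets of small dimension -/
lemma exists_card_le {W : Set (Datum ι)} (hW : W.Finite) {L : ℕ} (hL : 0 < L)
    (hτ : ∀ D ∈ W, ∀ i, L • D.τ i = 0) (j : ℕ) :
    ∃ C : ℕ, ∀ m : ℕ, 0 < m → ∀ P : (ι → UnitAddCircle) → Prop, ∀ [DecidablePred P],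
      (∀ x, P x → ∃ D ∈ W, (RR D).card ≤ j ∧ D.Mem x) →
      ((TT ι m).filter P).card ≤ C * m ^ j := by
  classical
  refine ⟨∑ D ∈ hW.toFinset, (L * kprod D.k) ^ (RR D).card, fun m hm P _ hP => ?_⟩
  have hsub : (TT ι m).filter P ⊆ (hW.toFinset.filter fun D => (RR D).card ≤ j).biUnion
      fun D => (TT ι m).filter D.Mem := by
    intro x hx
    obtain ⟨hx1, hx2⟩ := mem_filter.mp hx
    obtain ⟨D, hD, hDj, hDx⟩ := hP x hx2
    exact mem_biUnion.mpr ⟨D, mem_filter.mpr ⟨hW.mem_toFinset.mpr hD, hDj⟩,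
      mem_filter.mpr ⟨hx1, hDx⟩⟩
  refine (card_le_card hsub).trans (card_biUnion_le.trans ?_)
  rw [sum_mul]
  refine (sum_le_sum (fun D hD => ?_)).trans
    (sum_le_sum_of_subset (filter_subset (fun D => (RR D).card ≤ j) hW.toFinset))
  obtain ⟨hD1, hD2⟩ := mem_filter.mp hD
  refine (card_mem_le hL (hτ D (hW.mem_toFinset.mp hD1)) hm).trans ?_
  exact Nat.mul_le_mul_left _ (Nat.pow_le_pow_right hm hD2)

lemma Datum.Formal.jump' {D : Datum ι} (hD : D.Formal) {r : ι} {s : Finset ι}
    (hs : ∀ i, i ∈ s ↔ D.c i = r ∧ D.k i ≠ 0) (y : UnitAddCircle) :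
    QP.jump s D.k D.τ y = 0 := by
  have h := hD.jump r y
  have h1 : s = @Finset.filter ι (fun i => D.c i = r ∧ D.k i ≠ 0)
      (fun a => @instDecidableAnd _ _ (Classical.propDecidable _) _) univ := by
    ext i
    rw [hs]
    simp
  rw [h1]
  exact h

/-- a class has at least two elements -/
lemma two_le_class {D : Datum ι} (hD : D.Formal) {r : ι}
    (hr : (univ.filter fun i => D.c i = r ∧ D.k i ≠ 0).Nonempty) :
    2 ≤ (univ.filter fun i => D.c i = r ∧ D.k i ≠ 0).card := by
  by_contra hcon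
  have h1 : (univ.filter fun i => D.c i = r ∧ D.k i ≠ 0).card = 1 := by
    have := card_pos.mpr hr
    omega
  obtain ⟨i, hi⟩ := card_eq_one.mp h1
  have hki : D.k i ≠ 0 := by
    have : i ∈ univ.filter fun i => D.c i = r ∧ D.k i ≠ 0 := by rw [hi]; exact mem_singleton_self i
    exact (mem_filter.mp this).2.2
  obtain ⟨w, hw⟩ := exists_div (D.k i) hki (-D.τ i)
  have h2 := hD.jump' (r := r) (s := univ.filter fun i => D.c i = r ∧ D.k i ≠ 0) (by simp) w
  unfold QP.jump at h2
  rw [hi, sum_singleton, if_pos (by rw [hw, neg_add_cancel]), mul_one, Int.sign_eq_zero_iff_zero] at h2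
  exact hki h2

/-- the dimension is at most half of the number of the moving entries -/
lemma two_mul_RR_le {D : Datum ι} (hD : D.Formal) :
    2 * (RR D).card ≤ (univ.filter fun i => D.k i ≠ 0).card := by
  have h1 : (univ.filter fun i => D.k i ≠ 0).card =
      ∑ r ∈ RR D, ((univ.filter fun i => D.k i ≠ 0).filter fun i => D.c i = r).card :=
    card_eq_sum_card_fiberwise fun i hi => mem_image_of_mem D.c hi
  rw [h1, mul_comm, ← smul_eq_mul, ← sum_const]
  refine sum_le_sum fun r hr => ?_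
  have h2 : ((univ.filter fun i => D.k i ≠ 0).filter fun i => D.c i = r) =
      univ.filter fun i => D.c i = r ∧ D.k i ≠ 0 := by
    rw [filter_filter]
    ext i
    simp only [mem_filter, mem_univ, true_and]
    tauto
  rw [h2]
  obtain ⟨i, hi, hc⟩ := mem_image.mp hr
  exact two_le_class hD ⟨i, mem_filter.mpr ⟨mem_univ i, hc, (mem_filter.mp hi).2⟩⟩

/-- a tuple which is a union of opposite pairs -/
def Paired (x : ι → UnitAddCircle) : Prop :=
  ∃ π : Equiv.Perm ι, (∀ i, π (π i) = i) ∧ (∀ i, π i ≠ i) ∧ ∀ i, x (π i) = -x i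

/-- cosets of maximal dimension consist of unions of pairs -/
theorem paired_of_max {D : Datum ι} (hD : D.Formal) (hmax : 2 * (RR D).card = Fintype.card ι)
    {x : ι → UnitAddCircle} (hx : D.Mem x) : Paired x := by
  -- all multiplicities are nonzero and the classes have two elements
  have h1 : (univ.filter fun i => D.k i ≠ 0).card =
      ∑ r ∈ RR D, ((univ.filter fun i => D.k i ≠ 0).filter fun i => D.c i = r).card :=
    card_eq_sum_card_fiberwise fun i hi => mem_image_of_mem D.c hi
  have hcl : ∀ r, ((univ.filter fun i => D.k i ≠ 0).filter fun i => D.c i = r) =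
      univ.filter fun i => D.c i = r ∧ D.k i ≠ 0 := by
    intro r
    rw [filter_filter]
    ext i
    simp only [mem_filter, mem_univ, true_and]
    tauto
  have hge : ∀ r ∈ RR D, 2 ≤ (univ.filter fun i => D.c i = r ∧ D.k i ≠ 0).card := by
    intro r hr
    obtain ⟨i, hi, hc⟩ := mem_image.mp hr
    exact two_le_class hD ⟨i, mem_filter.mpr ⟨mem_univ i, hc, (mem_filter.mp hi).2⟩⟩
  have hle := card_le_univ (univ.filter fun i => D.k i ≠ 0)
  have h2 := two_mul_RR_le hD
  have hall : (univ.filter fun i => D.k i ≠ 0).card = Fintype.card ι := by omega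
  have hk : ∀ i, D.k i ≠ 0 := by
    intro i
    have h3 : univ.filter (fun i => D.k i ≠ 0) = univ := by
      rw [← card_eq_iff_eq_univ, hall]
    have h4 : i ∈ univ.filter (fun i => D.k i ≠ 0) := by rw [h3]; exact mem_univ i
    exact (mem_filter.mp h4).2
  have heq : ∀ r ∈ RR D, (univ.filter fun i => D.c i = r ∧ D.k i ≠ 0).card = 2 := by
    have h3 : ∑ r ∈ RR D, (univ.filter fun i => D.c i = r ∧ D.k i ≠ 0).card =
        ∑ _r ∈ RR D, 2 := by
      rw [sum_const, smul_eq_mul]
      simp only [hcl] at h1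
      omega
    intro r hr
    exact ((sum_eq_sum_iff_of_le hge).mp h3.symm r hr).symm
  have hRR : ∀ i, D.c i ∈ RR D := fun i =>
    mem_image_of_mem _ (mem_filter.mpr ⟨mem_univ i, hk i⟩)
  -- the partner
  have hex : ∀ i, ∃ j, j ≠ i ∧ D.c j = D.c i ∧ ∀ l, D.c l = D.c i → l = i ∨ l = j := by
    intro i
    obtain ⟨u, v, huv, hset⟩ := card_eq_two.mp (heq (D.c i) (hRR i))
    have hmem : ∀ l, D.c l = D.c i ↔ l = u ∨ l = v := by
      intro l
      have : l ∈ (univ.filter fun j => D.c j = D.c i ∧ D.k j ≠ 0) ↔ l ∈ ({u, v} : Finset ι) := by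
        rw [hset]
      simp only [mem_filter, mem_univ, true_and, mem_insert, mem_singleton] at this
      rw [← this]
      exact ⟨fun h => ⟨h, hk l⟩, fun h => h.1⟩
    rcases (hmem i).mp rfl with rfl | rfl
    · exact ⟨v, huv.symm, (hmem v).mpr (Or.inr rfl), fun l hl => (hmem l).mp hl⟩
    · exact ⟨u, huv, (hmem u).mpr (Or.inl rfl), fun l hl => ((hmem l).mp hl).symm⟩
  choose f hf1 hf2 hf3 using hex
  have hff : ∀ i, f (f i) = i := by
    intro i
    rcases hf3 i (f (f i)) ((hf2 (f i)).trans (hf2 i)) with h | h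
    · exact h
    · exact absurd h (hf1 (f i))
  obtain ⟨a, ha⟩ := hx
  refine ⟨⟨f, f, hff, hff⟩, hff, hf1, fun i => ?_⟩
  change x (f i) = -x i
  -- the jump function of the class
  have hset : (univ.filter fun j => D.c j = D.c i ∧ D.k j ≠ 0) = {i, f i} := by
    ext l
    simp only [mem_filter, mem_univ, true_and, mem_insert, mem_singleton]
    constructor
    · rintro ⟨h, -⟩
      exact hf3 i l h
    · rintro (rfl | rfl)
      · exact ⟨rfl, hk _⟩
      · exact ⟨hf2 i, hk _⟩
  have hJ : ∀ y, (D.k i).sign * (if D.k i • y + D.τ i = 0 then 1 else 0) +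
      (D.k (f i)).sign * (if D.k (f i) • y + D.τ (f i) = 0 then 1 else 0) = 0 := by
    intro y
    have h3 := hD.jump' (r := D.c i) (s := univ.filter fun j => D.c j = D.c i ∧ D.k j ≠ 0)
      (by simp) y
    unfold QP.jump at h3
    rwa [hset, sum_pair (hf1 i).symm] at h3
  have hiff : ∀ y, D.k i • y + D.τ i = 0 ↔ D.k (f i) • y + D.τ (f i) = 0 := by
    intro y
    have h3 := hJ y
    have h4 : (D.k i).sign ≠ 0 := fun h => hk i (Int.sign_eq_zero_iff_zero.mp h)
    have h5 : (D.k (f i)).sign ≠ 0 := fun h => hk (f i) (Int.sign_eq_zero_iff_zero.mp h)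
    constructor
    · intro h
      by_contra h'
      rw [if_pos h, if_neg h', mul_one, mul_zero, add_zero] at h3
      exact h4 h3
    · intro h
      by_contra h'
      rw [if_neg h', if_pos h, mul_one, mul_zero, zero_add] at h3
      exact h5 h3
  obtain ⟨w, hw⟩ := exists_div (D.k i) (hk i) (-D.τ i)
  have hw1 : D.k i • w + D.τ i = 0 := by rw [hw, neg_add_cancel]
  have hw2 := (hiff w).mp hw1
  have hker : ∀ v : UnitAddCircle, D.k i • v = 0 ↔ D.k (f i) • v = 0 := by
    intro v
    have h3 := hiff (w + v)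
    rw [smul_add, smul_add, add_right_comm, add_right_comm (D.k (f i) • w), hw1, hw2, zero_add,
      zero_add] at h3
    exact h3
  have hdvd : ∀ p q : ℤ, p ≠ 0 → (∀ v : UnitAddCircle, p • v = 0 → q • v = 0) →
      p.natAbs ∣ q.natAbs := by
    intro p q hp h
    have hpos : 0 < p.natAbs := Int.natAbs_pos.mpr hp
    have h3 := h (pt p.natAbs 1) (natAbs_nsmul_eq_zero.mp (nsmul_pt hpos 1))
    rw [← natAbs_nsmul_eq_zero, ← addOrderOf_dvd_iff_nsmul_eq_zero, addOrderOf_pt hpos] at h3
    exact h3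
  have hnat : (D.k i).natAbs = (D.k (f i)).natAbs :=
    Nat.dvd_antisymm (hdvd _ _ (hk i) fun v h => (hker v).mp h)
      (hdvd _ _ (hk (f i)) fun v h => (hker v).mpr h)
  have hneg : D.k (f i) = -D.k i := by
    rcases Int.natAbs_eq_natAbs_iff.mp hnat with h | h
    · exfalso
      have h3 := hJ w
      rw [if_pos hw1, if_pos hw2, mul_one, mul_one, ← h] at h3
      have h4 : (D.k i).sign = 0 := by omega
      exact hk i (Int.sign_eq_zero_iff_zero.mp h4)
    · rw [h, neg_neg]
  have h3 : D.τ i = -(D.k i • w) := (neg_eq_of_add_eq_zero_right hw1).symm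
  have h4 : D.τ (f i) = -(D.k (f i) • w) := (neg_eq_of_add_eq_zero_right hw2).symm
  rw [ha (f i), ha i, hf2 i, h3, h4, hneg]
  simp only [neg_smul]
  abel

end Dim

end Pool.Agent.Q59.QP
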