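import Pool.Agent.Q59.QP.Sys

/-!
# The two numbers are quasi-polynomials
-/

namespace Pool.Agent.Q59.QP

open Finset Pool.Agent.H916R2 Polynomial
open Pool.Agent.Q59.RL (B0 half_add_half Adm AdmSys)
open scoped Nat

/-- the number of the Hodge characters -/
noncomputable def hcnt (k m : ℕ) : ℕ :=
  Nat.card {s : Fin (2 * k) → ZMod m // IsHodge m ((univ : Finset (Fin (2 * k))).val.map s)}

/-- the number of the algebraic characters -/
noncomputable def acnt (A : ∀ m : ℕ, Multiset (ZMod m) → Prop) (k m : ℕ) : ℕ :=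
  Nat.card {s : Fin (2 * k) → ZMod m // A m ((univ : Finset (Fin (2 * k))).val.map s)}

/-- Hodge characters with fewer than `2 * T` entries are algebraic -/
def Short (A : ∀ m : ℕ, Multiset (ZMod m) → Prop) (T : ℕ) : Prop :=
  ∀ (m : ℕ) (t : Multiset (ZMod m)), 0 < m → IsHodge m t → Multiset.card t < 2 * T → A m t

variable {A : ∀ m : ℕ, Multiset (ZMod m) → Prop}

lemma short_two (hA : AdmSys A) : Short A 2 := by
  intro m t hm ht hc
  obtain ⟨j, hj⟩ := ht.2.1
  have hj2 : j < 2 := by omega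
  interval_cases j
  · have h0 : t = 0 := Multiset.card_eq_zero.mp hj
    rw [h0]
    exact hA.empty hm
  · obtain ⟨a, b, hab⟩ := Multiset.card_eq_two.mp hj
    subst hab
    have h3 := ht.2.2.1
    rw [Multiset.insert_eq_cons, Multiset.sum_cons, Multiset.sum_singleton] at h3
    have hb : b = -a := (neg_eq_of_add_eq_zero_right h3).symm
    have ha : a ≠ 0 := by
      rintro rfl
      exact ht.1 (by simp)
    rw [hb]
    exact (hA.adm m hm).pair a ha

/-- the comparison of the counts -/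
theorem counts (hA : AdmSys A) {k : ℕ} (hk : 0 < k) :
    IsQP (fun m => (hcnt k m : ℚ)) ∧ IsQP (fun m => (acnt A k m : ℚ)) ∧
    (∀ m, 0 < m → acnt A k m ≤ hcnt k m) ∧
    (∃ C : ℚ, ∀ m, 0 < m →
      |(hcnt k m : ℚ) - ((2 * k - 1)‼ : ℕ) * (m : ℚ) ^ k| ≤ C * (m : ℚ) ^ (k - 1) ∧
      |(acnt A k m : ℚ) - ((2 * k - 1)‼ : ℕ) * (m : ℚ) ^ k| ≤ C * (m : ℚ) ^ (k - 1)) ∧
    ∀ T, 0 < T → Short A T →
      (T ≤ k → ∃ C : ℕ, ∀ m, 0 < m → hcnt k m ≤ acnt A k m + C * m ^ (k - T)) ∧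
      (k < T → ∀ m, 0 < m → hcnt k m = acnt A k m) := by
  classical
  obtain ⟨H, hH2, hchar⟩ := exists_WW k
  set W := WW k H with hW
  have hWfin : W.Finite := finite_WW k H
  set L : ℕ := H.factorial with hL
  have hL0 : 0 < L := H.factorial_pos
  have : NeZero L := ⟨hL0.ne'⟩
  have hL2 : 2 ∣ L := Nat.dvd_factorial two_pos hH2
  have hτ : ∀ D ∈ W, ∀ i, L • D.τ i = 0 := fun D hD i => (hD.2 i).2
  have hFm : ∀ D ∈ W, D.Formal := fun D hD => hD.1
  have hev : Even (Fintype.card (Fin (2 * k))) := by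
    rw [Fintype.card_fin]
    exact even_two_mul k
  set WA : Set (Datum (Fin (2 * k))) := {D | D ∈ W ∧ A L (D0' L D)} with hWA
  have hWAfin : WA.Finite := hWfin.subset fun D hD => hD.1
  set PH : (Fin (2 * k) → UnitAddCircle) → Prop :=
    fun x => (∃ D ∈ W, D.Mem x) ∧ ∀ i, x i ≠ 0 with hPH
  set PA : (Fin (2 * k) → UnitAddCircle) → Prop :=
    fun x => (∃ D ∈ WA, D.Mem x) ∧ ∀ i, x i ≠ 0 with hPA
  set PP : (Fin (2 * k) → UnitAddCircle) → Prop :=
    fun x => Paired x ∧ ∀ i, x i ≠ 0 with hPP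
  have hHs : ∀ m : ℕ, [NeZero m] → ∀ s : Fin (2 * k) → ZMod m,
      IsHodge m ((univ : Finset (Fin (2 * k))).val.map s) ↔ PH (tps s) := fun m _ s => hchar m s
  have hAs : ∀ m : ℕ, [NeZero m] → ∀ s : Fin (2 * k) → ZMod m,
      A m ((univ : Finset (Fin (2 * k))).val.map s) ↔ PA (tps s) := by
    intro m _ s
    constructor
    · intro h
      obtain ⟨⟨D, hD, hDx⟩, h0⟩ := (hHs m s).mp ((hA.adm m (NeZero.pos m)).hodge _ h)
      exact ⟨⟨D, ⟨hD, (alg_iff_const hA hev hL2 (hFm D hD) (hτ D hD) hDx h0).mp h⟩, hDx⟩, h0⟩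
    · rintro ⟨⟨D, hD, hDx⟩, h0⟩
      exact (alg_iff_const hA hev hL2 (hFm D hD.1) (hτ D hD.1) hDx h0).mpr hD.2
  have hch : ∀ m, 0 < m → hcnt k m = ((TT (Fin (2 * k)) m).filter PH).card := by
    intro m hm
    have : NeZero m := ⟨hm.ne'⟩
    exact card_eq_TT (hHs m)
  have hca : ∀ m, 0 < m → acnt A k m = ((TT (Fin (2 * k)) m).filter PA).card := by
    intro m hm
    have : NeZero m := ⟨hm.ne'⟩
    exact card_eq_TT (hAs m)
  have hex : ∀ m, 0 < m → ∀ x ∈ TT (Fin (2 * k)) m, ∃ s : Fin (2 * k) → ZMod m, tps s = x := by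
    intro m hm x hx
    have : NeZero m := ⟨hm.ne'⟩
    choose s hs using fun i => exists_tp ((mem_TT hm).mp hx i)
    exact ⟨s, funext hs⟩
  have hAH : ∀ x, PA x → PH x := by
    rintro x ⟨⟨D, hD, hDx⟩, h0⟩
    exact ⟨⟨D, hD.1, hDx⟩, h0⟩
  have hPPA : ∀ m, 0 < m → ∀ x ∈ TT (Fin (2 * k)) m, PP x → PA x := by
    intro m hm x hx hp
    have : NeZero m := ⟨hm.ne'⟩
    obtain ⟨s, rfl⟩ := hex m hm x hx
    exact (hAs m s).mp (alg_paired hA hp.1 hp.2)
  -- the Hodge characters which are not unions of pairs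
  obtain ⟨C1, hC1⟩ := exists_card_le hWfin hL0 hτ (k - 1)
  have hnp : ∀ m, 0 < m →
      ((TT (Fin (2 * k)) m).filter fun x => PH x ∧ ¬ PP x).card ≤ C1 * m ^ (k - 1) := by
    intro m hm
    refine hC1 m hm _ ?_
    rintro x ⟨⟨⟨D, hD, hDx⟩, h0⟩, hnp⟩
    refine ⟨D, hD, ?_, hDx⟩
    have h1 := two_mul_RR_le (hFm D hD)
    have h2 := card_le_univ (univ.filter fun i => D.k i ≠ 0)
    rw [Fintype.card_fin] at h2
    by_contra hcon
    apply hnp
    refine ⟨paired_of_max (hFm D hD) ?_ hDx, h0⟩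
    rw [Fintype.card_fin]
    omega
  have hsplit : ∀ m, 0 < m → ((TT (Fin (2 * k)) m).filter PH).card ≤
      ((TT (Fin (2 * k)) m).filter PP).card + C1 * m ^ (k - 1) := by
    intro m hm
    refine le_trans ?_ (Nat.add_le_add_left (hnp m hm) _)
    refine le_trans (card_le_card (fun x hx => ?_)) (card_union_le _ _)
    obtain ⟨hx1, hx2⟩ := mem_filter.mp hx
    rw [mem_union, mem_filter, mem_filter]
    by_cases h : PP x
    · exact Or.inl ⟨hx1, h⟩
    · exact Or.inr ⟨hx1, hx2, h⟩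
  have hle1 : ∀ m, 0 < m → ((TT (Fin (2 * k)) m).filter PP).card ≤
      ((TT (Fin (2 * k)) m).filter PA).card := by
    intro m hm
    refine card_le_card fun x hx => ?_
    obtain ⟨hx1, hx2⟩ := mem_filter.mp hx
    exact mem_filter.mpr ⟨hx1, hPPA m hm x hx1 hx2⟩
  have hle2 : ∀ m, 0 < m → ((TT (Fin (2 * k)) m).filter PA).card ≤
      ((TT (Fin (2 * k)) m).filter PH).card := by
    intro m _
    refine card_le_card fun x hx => ?_
    obtain ⟨hx1, hx2⟩ := mem_filter.mp hx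
    exact mem_filter.mpr ⟨hx1, hAH x hx2⟩
  refine ⟨?_, ?_, ?_, ?_, ?_⟩
  · exact (isQP_datum hWfin).congr fun m hm => by rw [hch m hm]
  · exact (isQP_datum hWAfin).congr fun m hm => by rw [hca m hm]
  · intro m hm
    rw [hch m hm, hca m hm]
    exact hle2 m hm
  · refine ⟨(k * (2 * k - 1)‼ + (2 * k - 1)‼ ^ 2 : ℕ) + C1, fun m hm => ?_⟩
    have h1 := card_paired hk hm
    have h2 : (((TT (Fin (2 * k)) m).filter PH).card : ℚ) ≤
        ((TT (Fin (2 * k)) m).filter PP).card + C1 * (m : ℚ) ^ (k - 1) := by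
      exact_mod_cast hsplit m hm
    have h3 : (((TT (Fin (2 * k)) m).filter PP).card : ℚ) ≤
        ((TT (Fin (2 * k)) m).filter PA).card := by exact_mod_cast hle1 m hm
    have h4 : (((TT (Fin (2 * k)) m).filter PA).card : ℚ) ≤
        ((TT (Fin (2 * k)) m).filter PH).card := by exact_mod_cast hle2 m hm
    have h5 : (0 : ℚ) ≤ C1 * (m : ℚ) ^ (k - 1) := by positivity
    have h1' : |(((TT (Fin (2 * k)) m).filter PP).card : ℚ) -
        ((2 * k - 1)‼ : ℕ) * (m : ℚ) ^ k| ≤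
        (k * (2 * k - 1)‼ + (2 * k - 1)‼ ^ 2 : ℕ) * (m : ℚ) ^ (k - 1) := h1
    rw [abs_le] at h1'
    rw [hch m hm, hca m hm, add_mul, abs_le, abs_le]
    refine ⟨⟨?_, ?_⟩, ?_, ?_⟩ <;> linarith [h1'.1, h1'.2]
  · intro T hT hsh
    -- the constant part is long
    have hlong : ∀ m, 0 < m → ∀ x ∈ TT (Fin (2 * k)) m, PH x → ¬ PA x →
        T ≤ k ∧ ∃ D ∈ W, (RR D).card ≤ k - T ∧ D.Mem x := by
      intro m hm x hx hHx hnA
      have : NeZero m := ⟨hm.ne'⟩
      obtain ⟨s, rfl⟩ := hex m hm x hx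
      have hhs := (hHs m s).mpr hHx
      obtain ⟨⟨D, hD, hDx⟩, h0⟩ := hHx
      have h1 : IsHodge L (D0' L D) :=
        (alg_iff_const hodgeSys hev hL2 (hFm D hD) (hτ D hD) hDx h0).mp hhs
      have h2 : 2 * T ≤ Multiset.card (D0' L D) := by
        by_contra hcon
        push Not at hcon
        exact hnA ⟨⟨D, ⟨hD, hsh L _ hL0 h1 hcon⟩, hDx⟩, h0⟩
      have h3 : Multiset.card (D0' L D) ≤ Multiset.card (D0 L D) + 1 := by
        unfold D0'
        split_ifs
        · omega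
        · rw [Multiset.card_cons]
      have h4 : Multiset.card (D0 L D) = (univ.filter fun i => D.k i = 0).card := by
        unfold D0
        rw [Multiset.card_map]
        rfl
      have h5 : (univ.filter fun i => D.k i = 0).card + (univ.filter fun i => D.k i ≠ 0).card =
          2 * k := by
        have := card_filter_add_card_filter_not (s := (univ : Finset (Fin (2 * k))))
          (p := fun i => D.k i = 0)
        rw [card_univ, Fintype.card_fin] at this
        exact this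
      have h6 := two_mul_RR_le (hFm D hD)
      have hTk : T ≤ k := by omega
      exact ⟨hTk, D, hD, by omega, hDx⟩
    refine ⟨fun hTk => ?_, fun hkT m hm => ?_⟩
    · obtain ⟨C, hC⟩ := exists_card_le hWfin hL0 hτ (k - T)
      refine ⟨C, fun m hm => ?_⟩
      rw [hch m hm, hca m hm]
      have h1 := hC m hm (fun x => (PH x ∧ ¬ PA x) ∧ ∃ m', 0 < m' ∧ x ∈ TT (Fin (2 * k)) m')
        (fun x hx => by
          obtain ⟨⟨h1, h2⟩, m', hm', h3⟩ := hx
          exact (hlong m' hm' x h3 h1 h2).2)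
      refine le_trans ?_ (Nat.add_le_add_left h1 _)
      refine le_trans (card_le_card (fun x hx => ?_)) (card_union_le _ _)
      obtain ⟨hx1, hx2⟩ := mem_filter.mp hx
      rw [mem_union, mem_filter, mem_filter]
      by_cases h : PA x
      · exact Or.inl ⟨hx1, h⟩
      · exact Or.inr ⟨hx1, ⟨hx2, h⟩, m, hm, hx1⟩
    · rw [hch m hm, hca m hm]
      congr 1
      refine filter_congr fun x hx => ⟨fun h => ?_, hAH x⟩
      by_contra hnA
      exact absurd (hlong m hm x hx h hnA).1 (by omega)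

/-- **Both numbers are quasi-polynomials with the same leading term.** -/
theorem main (hA : AdmSys A) {k : ℕ} (hk : 0 < k) :
    ∃ P : ℕ, 0 < P ∧ ∃ Qh Qa : ℕ → ℚ[X],
      (∀ j, (Qh j).natDegree ≤ k - 1 ∧ (Qa j).natDegree ≤ k - 1) ∧
      (∀ m, 0 < m →
        (hcnt k m : ℚ) = ((2 * k - 1)‼ : ℕ) * (m : ℚ) ^ k + (Qh (m % P)).eval (m : ℚ) ∧
        (acnt A k m : ℚ) = ((2 * k - 1)‼ : ℕ) * (m : ℚ) ^ k + (Qa (m % P)).eval (m : ℚ)) ∧
      ∀ T, 0 < T → Short A T → ∀ j,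
        (T ≤ k → (Qh j - Qa j).natDegree ≤ k - T) ∧ (k < T → Qh j = Qa j) := by
  obtain ⟨⟨P1, hP1, Q1, hQ1⟩, ⟨P2, hP2, Q2, hQ2⟩, hle, ⟨C, hC⟩, hT⟩ := counts hA hk
  set c : ℕ := (2 * k - 1)‼ with hc
  set P : ℕ := P1 * P2 with hP
  have hP0 : 0 < P := Nat.mul_pos hP1 hP2
  set Qh : ℕ → ℚ[X] := fun j => Q1 (j % P % P1) - Polynomial.C (c : ℚ) * X ^ k with hQh
  set Qa : ℕ → ℚ[X] := fun j => Q2 (j % P % P2) - Polynomial.C (c : ℚ) * X ^ k with hQa
  have hevh : ∀ j m, 0 < m → m % P = j % P →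
      (Qh j).eval (m : ℚ) = (hcnt k m : ℚ) - c * (m : ℚ) ^ k := by
    intro j m hm hj
    have h1 := hQ1 m hm
    simp only at h1
    rw [h1, hQh]
    simp only [eval_sub, eval_mul, eval_C, eval_pow, eval_X]
    rw [← hj, hP, Nat.mod_mul_right_mod]
  have heva : ∀ j m, 0 < m → m % P = j % P →
      (Qa j).eval (m : ℚ) = (acnt A k m : ℚ) - c * (m : ℚ) ^ k := by
    intro j m hm hj
    have h1 := hQ2 m hm
    simp only at h1
    rw [h1, hQa]
    simp only [eval_sub, eval_mul, eval_C, eval_pow, eval_X]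
    rw [← hj, hP, Nat.mod_mul_left_mod]
  have hpos : ∀ j n : ℕ, 0 < n → 0 < j % P + P * n := by
    intro j n hn
    have := Nat.mul_pos hP0 hn
    omega
  have hmod : ∀ j n : ℕ, (j % P + P * n) % P = j % P := by
    intro j n
    rw [Nat.add_mul_mod_self_left, Nat.mod_mod]
  refine ⟨P, hP0, Qh, Qa, fun j => ⟨?_, ?_⟩, fun m hm => ⟨?_, ?_⟩, fun T hT0 hsh j => ⟨?_, ?_⟩⟩
  · refine natDegree_le_of_bound (j := j % P) hP0 (C := C) fun n hn => ?_
    rw [hevh j _ (hpos j n hn) (hmod j n)]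
    exact (hC _ (hpos j n hn)).1
  · refine natDegree_le_of_bound (j := j % P) hP0 (C := C) fun n hn => ?_
    rw [heva j _ (hpos j n hn) (hmod j n)]
    exact (hC _ (hpos j n hn)).2
  · rw [hevh (m % P) m hm (Nat.mod_mod m P).symm]
    ring
  · rw [heva (m % P) m hm (Nat.mod_mod m P).symm]
    ring
  · intro hTk
    obtain ⟨C', hC'⟩ := (hT T hT0 hsh).1 hTk
    refine natDegree_le_of_bound (j := j % P) hP0 (C := (C' : ℚ)) fun n hn => ?_
    have hm := hpos j n hn
    rw [eval_sub, hevh j _ hm (hmod j n), heva j _ hm (hmod j n), sub_sub_sub_cancel_right]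
    have h1 : (acnt A k (j % P + P * n) : ℚ) ≤ hcnt k (j % P + P * n) := by
      exact_mod_cast hle _ hm
    have h2 : (hcnt k (j % P + P * n) : ℚ) ≤ acnt A k (j % P + P * n) +
        C' * ((j % P + P * n : ℕ) : ℚ) ^ (k - T) := by
      exact_mod_cast hC' _ hm
    rw [abs_of_nonneg (by linarith)]
    linarith
  · intro hkT
    rw [← sub_eq_zero]
    refine eq_zero_of_bound (j := j % P) hP0 fun n hn => ?_
    have hm := hpos j n hn
    rw [eval_sub, hevh j _ hm (hmod j n), heva j _ hm (hmod j n), sub_sub_sub_cancel_right,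
      (hT T hT0 hsh).2 hkT _ hm, sub_self]

end Pool.Agent.Q59.QP
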