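import Pool.Agent.Q59.QP.Limit

/-!
# The formal relation of a class
-/

namespace Pool.Agent.Q59.QP

open Finset Filter Topology

variable {𝒰 : Ultrafilter ℕ}

section Tor

variable {z w : ℕ → UnitAddCircle}

lemma Tor.add (h1 : Tor 𝒰 z) (h2 : Tor 𝒰 w) : Tor 𝒰 (fun n => z n + w n) := by
  obtain ⟨p, hp, h1⟩ := h1
  obtain ⟨q, hq, h2⟩ := h2
  refine ⟨p * q, Nat.mul_pos hp hq, ?_⟩
  filter_upwards [h1, h2] with n hn1 hn2
  rw [nsmul_add, mul_comm, mul_nsmul', hn1, nsmul_zero, zero_add, mul_comm, mul_nsmul', hn2,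
    nsmul_zero]

lemma Tor.neg (h1 : Tor 𝒰 z) : Tor 𝒰 (fun n => -z n) := by
  obtain ⟨p, hp, h1⟩ := h1
  refine ⟨p, hp, ?_⟩
  filter_upwards [h1] with n hn1
  rw [smul_neg, hn1, neg_zero]

lemma Tor.sub (h1 : Tor 𝒰 z) (h2 : Tor 𝒰 w) : Tor 𝒰 (fun n => z n - w n) := by
  simpa [sub_eq_add_neg] using h1.add h2.neg

lemma Tor.zsmul (k : ℤ) (h1 : Tor 𝒰 z) : Tor 𝒰 (fun n => k • z n) := by
  obtain ⟨p, hp, h1⟩ := h1
  refine ⟨p, hp, ?_⟩
  filter_upwards [h1] with n hn1
  rw [smul_comm, hn1, smul_zero]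

lemma Tor.of_zsmul {k : ℤ} (hk : k ≠ 0) (h : Tor 𝒰 (fun n => k • z n)) : Tor 𝒰 z := by
  obtain ⟨q, hq, h⟩ := h
  refine ⟨q * k.natAbs, Nat.mul_pos hq (Int.natAbs_pos.mpr hk), ?_⟩
  filter_upwards [h] with n hn
  rw [mul_nsmul']
  rcases Int.natAbs_eq k with hk' | hk'
  · rw [hk', natCast_zsmul] at hn
    exact hn
  · rw [hk', neg_smul, natCast_zsmul, smul_neg, neg_eq_zero] at hn
    exact hn

lemma Tor.congr (h : Tor 𝒰 z) (hzw : ∀ᶠ n in (𝒰 : Filter ℕ), z n = w n) : Tor 𝒰 w := by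
  obtain ⟨q, hq, h⟩ := h
  refine ⟨q, hq, ?_⟩
  filter_upwards [h, hzw] with n hn hn'
  rw [← hn', hn]

lemma Tor.of_killed {L : ℕ} (hL : 0 < L) {τ : UnitAddCircle} (h : L • τ = 0) :
    Tor 𝒰 (fun _ => τ) := ⟨L, hL, Eventually.of_forall fun _ => h⟩

end Tor

/-- the coefficient -/
noncomputable def cf (N : ℤ) : ℂ := bernoulliFourierCoeff 1 N

lemma cf_zero : cf 0 = 0 := bernoulliFourierCoeff_zero one_ne_zero

lemma cf_eq (N : ℤ) : cf N = -(1 / (2 * Real.pi * Complex.I)) * (1 / N) := by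
  unfold cf
  rw [bernoulliFourierCoeff_eq one_ne_zero]
  rcases eq_or_ne N 0 with rfl | hN
  · simp
  · have h1 : (N : ℂ) ≠ 0 := by exact_mod_cast hN
    have h2 : (Real.pi : ℂ) ≠ 0 := by exact_mod_cast Real.pi_ne_zero
    simp only [Nat.factorial_one, Nat.cast_one, pow_one]
    field_simp

section Fourier

variable {ι : Type*} [Fintype ι] {m : ℕ → ℕ} {L : ℕ}
  {x : ℕ → ι → UnitAddCircle} {a : ℕ → UnitAddCircle} {C : Finset ι} {k : ι → ℤ}
  {τ : ι → UnitAddCircle}

/-- **The Fourier coefficients of the jump function of a class vanish.** -/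
theorem fourier_vanish [DecidableEq ι] (hm : ∀ n, 0 < m n) (hL : ∀ n, L ∣ m n)
    (hx : ∀ n i, m n • x n i = 0) (hrel : ∀ n (t : ℕ), t.Coprime (m n) → ∑ i, sw (t • x n i) = 0)
    (ha : ∀ n, m n • a n = 0) (hat : ¬ Tor 𝒰 a)
    (hk : ∀ i ∈ C, k i ≠ 0) (hτ : ∀ i ∈ C, L • τ i = 0)
    (hC : ∀ i ∈ C, ∀ᶠ n in (𝒰 : Filter ℕ), x n i = k i • a n + τ i)
    (hC' : ∀ i ∉ C, (∃ σ : UnitAddCircle, L • σ = 0 ∧ ∀ᶠ n in (𝒰 : Filter ℕ), x n i = σ) ∨
      (¬ Tor 𝒰 (fun n => x n i) ∧ ∀ p q : ℤ, p ≠ 0 → ¬ Tor 𝒰 (fun n => p • x n i + q • a n)))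
    {M : ℤ} (hM : M ≠ 0) :
    ∑ i ∈ C, (if k i ∣ M then cf (M / k i) * e ((M / k i) • τ i) else 0) = 0 := by
  have hL0 : 0 < L := Nat.pos_of_dvd_of_pos (hL 0) (hm 0)
  set α : ℕ → UnitAddCircle := fun n => (-M) • a n with hα
  have hαm : ∀ n, m n • α n = 0 := fun n => by
    rw [hα]; simp only; rw [smul_comm, ha, smul_zero]
  set c : ι → ℂ := fun i => if i ∈ C then
    (if k i ∣ M then cf (M / k i) * e ((M / k i) • τ i) else 0) else 0 with hc
  have hmult : ∀ {p : ℤ}, p ≠ 0 → ¬ Tor 𝒰 (fun n => p • a n) := fun hp h => hat (h.of_zsmul hp)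
  have hlim : ∀ i, Tendsto (fun n => avg (m n) L (fun t => (sw (t • x n i) : ℂ) * e (t • α n))) 𝒰
      (𝓝 (c i)) := by
    intro i
    have hPsi : ∀ N : ℤ, ¬ Tor 𝒰 (fun n => x n i) →
        (∀ j : ℤ, j ≠ N → ¬ Tor 𝒰 (fun n => j • x n i + α n)) →
        ∀ c' : ℂ, (∀ᶠ n in (𝒰 : Filter ℕ),
          cf N * avg (m n) L (fun t => e (t • (N • x n i + α n))) = c') →
        Tendsto (fun n => avg (m n) L (fun t => (sw (t • x n i) : ℂ) * e (t • α n))) 𝒰
          (𝓝 c') := by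
      intro N h1 h2 c' h3
      have h4 := tendsto_Psi (𝒰 := 𝒰) hm hL (fun n => hx n i) hαm h1 h2
      have h5 := h4.add_const c'
      rw [zero_add] at h5
      refine h5.congr' ?_
      filter_upwards [h3] with n hn
      unfold Psi
      rw [← hn]
      unfold cf
      ring
    by_cases hi : i ∈ C
    · have hxt : ¬ Tor 𝒰 (fun n => x n i) := by
        intro h
        have h1 := (h.congr (hC i hi)).sub (Tor.of_killed hL0 (hτ i hi))
        simp only [add_sub_cancel_right] at h1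
        exact hmult (hk i hi) h1
      have hlin : ∀ j : ℤ, ∀ᶠ n in (𝒰 : Filter ℕ),
          j • x n i + α n = (j * k i - M) • a n + j • τ i := by
        intro j
        filter_upwards [hC i hi] with n hn
        rw [hn, hα]
        simp only
        rw [smul_add, smul_smul, sub_smul, neg_smul]
        abel
      have hnt : ∀ j : ℤ, j * k i ≠ M → ¬ Tor 𝒰 (fun n => j • x n i + α n) := by
        intro j hj h
        have h1 := (h.congr (hlin j)).sub ((Tor.of_killed hL0 (hτ i hi)).zsmul j)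
        simp only [add_sub_cancel_right] at h1
        exact hmult (sub_ne_zero.mpr hj) h1
      by_cases hd : k i ∣ M
      · have hNk : M / k i * k i = M := Int.ediv_mul_cancel hd
        have hcc : c i = cf (M / k i) * e ((M / k i) • τ i) := by
          rw [hc]; simp only [if_pos hi, if_pos hd]
        rw [hcc]
        refine hPsi (M / k i) hxt (fun j hj => hnt j fun h => hj ?_) _ ?_
        · exact mul_right_cancel₀ (hk i hi) (h.trans hNk.symm)
        · filter_upwards [hlin (M / k i)] with n hn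
          rw [hn, hNk, sub_self, zero_smul, zero_add,
            avg_of_killed (hm n) (hL n) (z := (M / k i) • τ i)
              (by rw [smul_comm, hτ i hi, smul_zero]) e]
      · have hcc : c i = 0 := by
          rw [hc]; simp only [if_pos hi, if_neg hd]
        rw [hcc]
        refine hPsi 0 hxt (fun j _ => hnt j fun h => hd ⟨j, by rw [← h]; ring⟩) _ ?_
        exact Eventually.of_forall fun n => by rw [cf_zero, zero_mul]
    · have hcc : c i = 0 := by
        rw [hc]; simp only [if_neg hi]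
      rw [hcc]
      rcases hC' i hi with ⟨σ, hσ, hev⟩ | ⟨hxt, hpq⟩
      · have h1 : Tendsto (fun n => (sw σ : ℂ) * avg (m n) L (fun t => e (t • α n))) 𝒰
            (𝓝 ((sw σ : ℂ) * 0)) :=
          (tendsto_avg_e hm hL hαm (hmult (neg_ne_zero.mpr hM))).const_mul _
        rw [mul_zero] at h1
        refine h1.congr' ?_
        filter_upwards [hev] with n hn
        rw [← avg_mul_left, hn]
        refine avg_congr fun t ht => ?_
        have h2 : t • σ = σ := by
          rw [← mod_nsmul hσ t, (mem_T.mp ht).2.2, mod_nsmul hσ, one_nsmul]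
        rw [h2]
      · refine hPsi 0 hxt (fun j hj => hpq j (-M) hj) _ ?_
        exact Eventually.of_forall fun n => by rw [cf_zero, zero_mul]
  have hsum : Tendsto (fun n => ∑ i, avg (m n) L (fun t => (sw (t • x n i) : ℂ) * e (t • α n)))
      𝒰 (𝓝 (∑ i, c i)) := tendsto_finsetSum _ fun i _ => hlim i
  have hz : ∀ n, ∑ i, avg (m n) L (fun t => (sw (t • x n i) : ℂ) * e (t • α n)) = 0 := by
    intro n
    rw [← avg_sum]
    have h1 : ∀ t ∈ T (m n) L, ∑ i, (sw (t • x n i) : ℂ) * e (t • α n) = 0 := by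
      intro t ht
      rw [← sum_mul, ← Complex.ofReal_sum, hrel n t (mem_T.mp ht).2.1]
      simp
    rw [avg_congr h1]
    unfold avg
    simp
  simp only [hz] at hsum
  have h0 := tendsto_nhds_unique hsum tendsto_const_nhds
  rw [hc] at h0
  simpa using h0

end Fourier

end Pool.Agent.Q59.QP
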