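import Pool.Agent.Q59.QP.Formal

/-!
# The jump function of a class vanishes
-/

namespace Pool.Agent.Q59.QP

open Finset

/-- the points killed by `κ` -/
noncomputable def pt (κ r : ℕ) : UnitAddCircle := ((r / κ : ℝ) : UnitAddCircle)

section pt

variable {κ : ℕ}

lemma pt_eq (κ r : ℕ) : pt κ r = r • pt κ 1 := by
  unfold pt
  rw [← AddCircle.coe_nsmul]
  congr 1
  rw [nsmul_eq_mul, Nat.cast_one]
  ring

lemma addOrderOf_pt (hκ : 0 < κ) : addOrderOf (pt κ 1) = κ := by
  have h := AddCircle.addOrderOf_period_div (p := (1 : ℝ)) hκ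
  unfold pt
  rw [Nat.cast_one]
  exact h

lemma nsmul_pt (hκ : 0 < κ) (r : ℕ) : κ • pt κ r = 0 := by
  have h : κ • pt κ 1 = 0 := by
    have := addOrderOf_nsmul_eq_zero (pt κ 1)
    rwa [addOrderOf_pt hκ] at this
  rw [pt_eq, smul_comm, h, nsmul_zero]

lemma exists_pt (hκ : 0 < κ) {w : UnitAddCircle} (h : κ • w = 0) : ∃ r < κ, pt κ r = w := by
  obtain ⟨r, hr, h1⟩ := (AddCircle.nsmul_eq_zero_iff (p := (1 : ℝ)) hκ).mp h
  refine ⟨r, hr, ?_⟩
  rw [mul_one] at h1
  exact h1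

lemma pt_inj (hκ : 0 < κ) {r s : ℕ} (hr : r < κ) (hs : s < κ) (h : pt κ r = pt κ s) : r = s := by
  rw [pt_eq, pt_eq κ s, nsmul_eq_nsmul_iff_modEq, addOrderOf_pt hκ] at h
  exact Nat.ModEq.eq_of_lt_of_lt h hr hs

open Classical in
lemma sum_pt_eq (hκ : 0 < κ) (w : UnitAddCircle) :
    ∑ r ∈ range κ, (if pt κ r = w then (1 : ℂ) else 0) = if κ • w = 0 then 1 else 0 := by
  split_ifs with h
  · obtain ⟨s, hs, rfl⟩ := exists_pt hκ h
    rw [sum_eq_single s]
    · rw [if_pos rfl]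
    · intro r hr hrs
      exact if_neg fun h' => hrs (pt_inj hκ (mem_range.mp hr) hs h')
    · intro h'
      exact absurd (mem_range.mpr hs) h'
  · refine sum_eq_zero fun r _ => if_neg fun h' => h ?_
    rw [← h', nsmul_pt hκ]

lemma sum_e_pt (hκ : 0 < κ) (M : ℤ) :
    ∑ r ∈ range κ, e (M • pt κ r) = if (κ : ℤ) ∣ M then (κ : ℂ) else 0 := by
  have h1 : ∀ r, M • pt κ r = r • (M • pt κ 1) := fun r => by rw [pt_eq, smul_comm]
  split_ifs with h
  · have h2 : M • pt κ 1 = 0 := by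
      rw [← addOrderOf_dvd_iff_zsmul_eq_zero, addOrderOf_pt hκ]
      exact h
    rw [sum_congr rfl fun r _ => by rw [h1 r, h2, nsmul_zero, e_zero]]
    simp
  · rw [sum_congr rfl fun r _ => by rw [h1 r]]
    refine sum_e_eq_zero ?_ ?_
    · rw [smul_comm, nsmul_pt hκ, smul_zero]
    · intro h2
      rw [← addOrderOf_dvd_iff_zsmul_eq_zero, addOrderOf_pt hκ] at h2
      exact h h2

end pt

lemma exists_div (k : ℤ) (hk : k ≠ 0) (τ : UnitAddCircle) : ∃ y : UnitAddCircle, k • y = τ := by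
  obtain ⟨b, -, rfl⟩ := AddCircle.eq_coe_Ico τ
  refine ⟨((b / k : ℝ) : UnitAddCircle), ?_⟩
  rw [← AddCircle.coe_zsmul]
  congr 1
  rw [zsmul_eq_mul]
  have : (k : ℝ) ≠ 0 := by exact_mod_cast hk
  field_simp

lemma natAbs_nsmul_eq_zero {k : ℤ} {w : UnitAddCircle} : k.natAbs • w = 0 ↔ k • w = 0 := by
  rw [← addOrderOf_dvd_iff_nsmul_eq_zero, ← addOrderOf_dvd_iff_zsmul_eq_zero, Int.natCast_dvd]

section

variable {ι : Type*} {L : ℕ} {C : Finset ι} {k : ι → ℤ} {τ : ι → UnitAddCircle}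

open Classical in
/-- **The jump function of a class vanishes.** -/
theorem jump_vanish (hL : 0 < L) (hk : ∀ i ∈ C, k i ≠ 0) (hτ : ∀ i ∈ C, L • τ i = 0)
    (hF : ∀ M : ℤ, M ≠ 0 →
      ∑ i ∈ C, (if k i ∣ M then cf (M / k i) * e ((M / k i) • τ i) else 0) = 0)
    (y : UnitAddCircle) :
    ∑ i ∈ C, (k i).sign * (if k i • y + τ i = 0 then 1 else 0) = 0 := by
  have hy : ∀ i : ι, ∃ w : UnitAddCircle, i ∈ C → k i • w = -τ i := by
    intro i
    by_cases hi : i ∈ C
    · obtain ⟨w, hw⟩ := exists_div (k i) (hk i hi) (-τ i)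
      exact ⟨w, fun _ => hw⟩
    · exact ⟨0, fun h => absurd h hi⟩
  choose w hw using hy
  have hpos : ∀ i ∈ C, 0 < (k i).natAbs := fun i hi => Int.natAbs_pos.mpr (hk i hi)
  -- the Fourier coefficients
  have hfour : ∀ M : ℤ, M ≠ 0 → ∑ i ∈ C, ((k i).sign : ℂ) *
      ∑ r ∈ range (k i).natAbs, e (M • (w i + pt (k i).natAbs r)) = 0 := by
    intro M hM
    have h1 : ∀ i ∈ C, ((k i).sign : ℂ) *
        ∑ r ∈ range (k i).natAbs, e (M • (w i + pt (k i).natAbs r)) =
        -(M : ℂ) * (-(1 / (2 * Real.pi * Complex.I)))⁻¹ *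
          (if k i ∣ (-M) then cf (-M / k i) * e ((-M / k i) • τ i) else 0) := by
      intro i hi
      have h2 : ∀ r, e (M • (w i + pt (k i).natAbs r)) =
          e (M • w i) * e (M • pt (k i).natAbs r) := fun r => by rw [smul_add, e_add]
      simp only [h2]
      rw [← mul_sum, sum_e_pt (hpos i hi)]
      by_cases hd : k i ∣ M
      · rw [if_pos (Int.natAbs_dvd.mpr hd), if_pos (hd.trans (Int.dvd_neg.mpr dvd_rfl)), Int.neg_ediv_of_dvd hd, cf_eq]
        obtain ⟨N, hN⟩ := hd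
        have hk0 := hk i hi
        have hN0 : N ≠ 0 := by
          rintro rfl
          exact hM (by rw [hN, mul_zero])
        have hMk : M / k i = N := by rw [hN]; exact Int.mul_ediv_cancel_left N hk0
        have h3 : M • w i = (-N) • τ i := by
          rw [hN, mul_comm, mul_smul, hw i hi, neg_smul, smul_neg]
        have h4 : ((k i).sign : ℂ) * ((k i).natAbs : ℂ) = (k i : ℂ) := by
          have h := congrArg (Int.cast : ℤ → ℂ) (Int.sign_mul_natAbs (k i))
          rw [Int.cast_mul, Int.cast_natCast] at h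
          exact h
        rw [hMk, h3, mul_left_comm, h4]
        have h5 : (N : ℂ) ≠ 0 := by exact_mod_cast hN0
        have h6 : (Real.pi : ℂ) ≠ 0 := by exact_mod_cast Real.pi_ne_zero
        have h7 : (M : ℂ) = (k i : ℂ) * (N : ℂ) := by exact_mod_cast congrArg (Int.cast : ℤ → ℂ) hN
        rw [h7]
        push_cast
        field_simp
      · rw [if_neg (fun h => hd (Int.natAbs_dvd.mp h)), if_neg (fun h => hd (Int.dvd_neg.mp h))]
        ring
    rw [sum_congr rfl h1, ← mul_sum, hF (-M) (neg_ne_zero.mpr hM), mul_zero]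
  -- a common multiple of the orders
  set Q : ℕ := L * ∏ i ∈ C, (k i).natAbs with hQ
  have hQ0 : 0 < Q := Nat.mul_pos hL (prod_pos hpos)
  have hkQ : ∀ i ∈ C, (k i).natAbs ∣ Q := fun i hi => (dvd_prod_of_mem _ hi).mul_left L
  have hLkQ : ∀ i ∈ C, L * (k i).natAbs ∣ Q := fun i hi =>
    Nat.mul_dvd_mul_left L (dvd_prod_of_mem (fun i => (k i).natAbs) hi)
  have hQw : ∀ i ∈ C, Q • w i = 0 := by
    intro i hi
    obtain ⟨c, hc⟩ := hLkQ i hi
    have h1 : k i • (L • w i) = 0 := by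
      rw [smul_comm, hw i hi, smul_neg, hτ i hi, neg_zero]
    have h2 := natAbs_nsmul_eq_zero.mpr h1
    rw [hc, show L * (k i).natAbs * c = c * ((k i).natAbs * L) by ring, mul_nsmul', mul_nsmul', h2,
      nsmul_zero]
  have hQp : ∀ i ∈ C, ∀ r, Q • pt (k i).natAbs r = 0 := by
    intro i hi r
    obtain ⟨c, hc⟩ := hkQ i hi
    rw [hc, mul_comm, mul_nsmul', nsmul_pt (hpos i hi), nsmul_zero]
  by_cases hQy : Q • y = 0
  swap
  · refine sum_eq_zero fun i hi => ?_
    rw [if_neg, mul_zero]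
    intro h
    apply hQy
    have h1 : k i • (y - w i) = 0 := by
      rw [smul_sub, hw i hi, sub_neg_eq_add, h]
    have h2 := natAbs_nsmul_eq_zero.mpr h1
    obtain ⟨c, hc⟩ := hkQ i hi
    have h3 : Q • (y - w i) = 0 := by rw [hc, mul_comm, mul_nsmul', h2, nsmul_zero]
    rw [smul_sub, hQw i hi, sub_zero] at h3
    exact h3
  -- orthogonality
  have horth : ∀ v : UnitAddCircle, Q • v = 0 →
      ∑ M ∈ range Q, e (((M + 1 : ℕ) : ℤ) • v) = if v = 0 then (Q : ℂ) else 0 := by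
    intro v hv
    have h1 : ∀ M : ℕ, e (((M + 1 : ℕ) : ℤ) • v) = e v * e (M • v) := by
      intro M
      rw [natCast_zsmul, succ_nsmul, e_add, mul_comm]
    simp only [h1]
    rw [← mul_sum]
    split_ifs with h
    · subst h
      simp
    · rw [sum_e_eq_zero hv h, mul_zero]
  have hmain : (Q : ℂ) * ∑ i ∈ C, ((k i).sign : ℂ) * (if k i • y + τ i = 0 then 1 else 0) = 0 := by
    have h1 : ∑ M ∈ range Q, e (-(((M + 1 : ℕ) : ℤ) • y)) * (∑ i ∈ C, ((k i).sign : ℂ) *
        ∑ r ∈ range (k i).natAbs, e (((M + 1 : ℕ) : ℤ) • (w i + pt (k i).natAbs r))) = 0 := by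
      refine sum_eq_zero fun M _ => ?_
      rw [hfour _ (by positivity), mul_zero]
    refine Eq.trans ?_ h1
    have h2 : ∀ M : ℕ, e (-(((M + 1 : ℕ) : ℤ) • y)) * (∑ i ∈ C, ((k i).sign : ℂ) *
        ∑ r ∈ range (k i).natAbs, e (((M + 1 : ℕ) : ℤ) • (w i + pt (k i).natAbs r))) =
        ∑ i ∈ C, ((k i).sign : ℂ) * ∑ r ∈ range (k i).natAbs,
          e (((M + 1 : ℕ) : ℤ) • (w i + pt (k i).natAbs r - y)) := by
      intro M
      rw [mul_sum]
      refine sum_congr rfl fun i _ => ?_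
      rw [mul_left_comm, mul_sum]
      congr 1
      refine sum_congr rfl fun r _ => ?_
      rw [← e_add, smul_sub]
      congr 1
      abel
    rw [sum_congr rfl fun M _ => h2 M, sum_comm, mul_sum]
    refine sum_congr rfl fun i hi => ?_
    rw [← mul_sum, sum_comm]
    have h3 : ∀ r ∈ range (k i).natAbs, ∑ M ∈ range Q,
        e (((M + 1 : ℕ) : ℤ) • (w i + pt (k i).natAbs r - y)) =
        (Q : ℂ) * (if pt (k i).natAbs r = y - w i then 1 else 0) := by
      intro r _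
      rw [horth _ (by rw [smul_sub, smul_add, hQw i hi, hQp i hi, hQy]; simp)]
      have h4 : w i + pt (k i).natAbs r - y = 0 ↔ pt (k i).natAbs r = y - w i := by
        constructor
        · intro h
          rw [← sub_eq_zero, ← h]
          abel
        · intro h
          rw [h]
          abel
      by_cases h5 : pt (k i).natAbs r = y - w i
      · rw [if_pos (h4.mpr h5), if_pos h5, mul_one]
      · rw [if_neg (fun h => h5 (h4.mp h)), if_neg h5, mul_zero]
    rw [sum_congr rfl h3, ← mul_sum, sum_pt_eq (hpos i hi)]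
    have h4 : (k i).natAbs • (y - w i) = 0 ↔ k i • y + τ i = 0 := by
      rw [natAbs_nsmul_eq_zero, smul_sub, hw i hi, sub_neg_eq_add]
    by_cases h5 : k i • y + τ i = 0
    · rw [if_pos h5, if_pos (h4.mpr h5)]
      ring
    · rw [if_neg h5, if_neg (fun h => h5 (h4.mp h))]
      ring
  have hQc : (Q : ℂ) ≠ 0 := by exact_mod_cast hQ0.ne'
  have h0 := (mul_eq_zero.mp hmain).resolve_left hQc
  have h1 : ((∑ i ∈ C, (k i).sign * (if k i • y + τ i = 0 then 1 else 0) : ℤ) : ℂ) = 0 := by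
    rw [← h0]
    push_cast
    rfl
  exact_mod_cast h1

end

end Pool.Agent.Q59.QP
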