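import Pool.Agent.Q59.QP.Decay
import Pool.Agent.Q59.QP.Approx

/-!
# Limits of averages along an ultrafilter
-/

namespace Pool.Agent.Q59.QP

open Finset Filter Topology MeasureTheory

variable {𝒰 : Ultrafilter ℕ}

/-- bounded torsion along the ultrafilter -/
def Tor (𝒰 : Ultrafilter ℕ) (z : ℕ → UnitAddCircle) : Prop :=
  ∃ q : ℕ, 0 < q ∧ ∀ᶠ n in (𝒰 : Filter ℕ), q • z n = 0

lemma not_tor {z : ℕ → UnitAddCircle} (h : ¬ Tor 𝒰 z) {q : ℕ} (hq : 0 < q) :
    ∀ᶠ n in (𝒰 : Filter ℕ), q • z n ≠ 0 := by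
  rw [Ultrafilter.eventually_not]
  exact fun h' => h ⟨q, hq, h'⟩

lemma tendsto_avg_e {m : ℕ → ℕ} {L : ℕ} (hm : ∀ n, 0 < m n) (hL : ∀ n, L ∣ m n)
    {z : ℕ → UnitAddCircle} (hz : ∀ n, m n • z n = 0) (ht : ¬ Tor 𝒰 z) :
    Tendsto (fun n => avg (m n) L fun t => e (t • z n)) 𝒰 (𝓝 0) := by
  have hL0 : 0 < L := Nat.pos_of_dvd_of_pos (hL 0) (hm 0)
  rw [Metric.tendsto_nhds]
  intro ε hε
  obtain ⟨X, hX⟩ := exists_nat_gt (1 / ε)
  have hX0 : 0 < X := by
    have : (0 : ℝ) < X := lt_trans (by positivity) hX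
    exact_mod_cast this
  filter_upwards [not_tor ht (q := L * X.factorial) (Nat.mul_pos hL0 X.factorial_pos)] with n hn
  rw [dist_zero_right]
  refine lt_of_le_of_lt (norm_avg_e_le (hm n) (hL n) hX0 (hz n) hn) ?_
  rw [div_lt_iff₀ (by exact_mod_cast hX0)]
  rw [div_lt_iff₀ hε] at hX
  linarith

lemma integrable_cont (G : C(UnitAddCircle, ℂ)) :
    Integrable (G : UnitAddCircle → ℂ) AddCircle.haarAddCircle :=
  G.continuous.integrable_of_hasCompactSupport (HasCompactSupport.of_compactSpace _)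

lemma norm_fourierCoeff_le (G : C(UnitAddCircle, ℂ)) (N : ℤ) : ‖fourierCoeff G N‖ ≤ ‖G‖ := by
  unfold fourierCoeff
  have h := norm_integral_le_of_norm_le_const (μ := AddCircle.haarAddCircle (T := 1))
    (f := fun t => fourier (-N) t • G t) (C := ‖G‖) (ae_of_all _ fun t => by
      rw [norm_smul, fourier_apply, Circle.norm_coe, one_mul]
      exact G.norm_coe_le_norm t)
  simpa using h

/-- the difference of the average and the expected main term -/
noncomputable def Phi (m L : ℕ) (z α : UnitAddCircle) (N : ℤ) (G : C(UnitAddCircle, ℂ)) : ℂ :=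
  avg m L (fun t => G (t • z) * e (t • α)) -
    fourierCoeff G N * avg m L (fun t => e (t • (N • z + α)))

lemma Phi_add (m L : ℕ) (z α : UnitAddCircle) (N : ℤ) (G H : C(UnitAddCircle, ℂ)) :
    Phi m L z α N (G + H) = Phi m L z α N G + Phi m L z α N H := by
  unfold Phi
  have h1 : fourierCoeff (⇑(G + H)) N = fourierCoeff G N + fourierCoeff H N := by
    rw [ContinuousMap.coe_add, fourierCoeff.add (integrable_cont G) (integrable_cont H)]
    rfl
  have h2 : avg m L (fun t => (G + H) (t • z) * e (t • α)) =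
      avg m L (fun t => G (t • z) * e (t • α)) + avg m L (fun t => H (t • z) * e (t • α)) := by
    rw [← avg_add]
    exact avg_congr fun t _ => by rw [ContinuousMap.add_apply]; ring
  rw [h1, h2]
  ring

lemma Phi_smul (m L : ℕ) (z α : UnitAddCircle) (N : ℤ) (c : ℂ) (G : C(UnitAddCircle, ℂ)) :
    Phi m L z α N (c • G) = c * Phi m L z α N G := by
  unfold Phi
  have h1 : fourierCoeff (⇑(c • G)) N = c * fourierCoeff G N := by
    rw [ContinuousMap.coe_smul]
    exact fourierCoeff.const_smul _ _ _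
  have h2 : avg m L (fun t => (c • G) (t • z) * e (t • α)) =
      c * avg m L (fun t => G (t • z) * e (t • α)) := by
    rw [← avg_mul_left]
    exact avg_congr fun t _ => by rw [ContinuousMap.smul_apply, smul_eq_mul]; ring
  rw [h1, h2]
  ring

lemma norm_Phi_le (m L : ℕ) (z α : UnitAddCircle) (N : ℤ) (G : C(UnitAddCircle, ℂ)) :
    ‖Phi m L z α N G‖ ≤ 2 * ‖G‖ := by
  unfold Phi
  refine (norm_sub_le _ _).trans ?_
  rw [two_mul]
  refine add_le_add (norm_avg_le (norm_nonneg _) fun t _ => ?_) ?_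
  · rw [norm_mul, norm_e, mul_one]
    exact G.norm_coe_le_norm _
  · rw [norm_mul]
    have h1 : ‖avg m L (fun t => e (t • (N • z + α)))‖ ≤ 1 :=
      norm_avg_le zero_le_one fun t _ => (norm_e _).le
    calc ‖fourierCoeff G N‖ * ‖avg m L (fun t => e (t • (N • z + α)))‖
        ≤ ‖G‖ * 1 := mul_le_mul (norm_fourierCoeff_le G N) h1 (norm_nonneg _) (norm_nonneg _)
      _ = ‖G‖ := mul_one _

section

variable {m : ℕ → ℕ} {L : ℕ} {z α : ℕ → UnitAddCircle} {N : ℤ}

lemma tendsto_Phi_fourier (hm : ∀ n, 0 < m n) (hL : ∀ n, L ∣ m n)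
    (hz : ∀ n, m n • z n = 0) (hα : ∀ n, m n • α n = 0)
    (hN : ∀ k : ℤ, k ≠ N → ¬ Tor 𝒰 (fun n => k • z n + α n)) (k : ℤ) :
    Tendsto (fun n => Phi (m n) L (z n) (α n) N (fourier k)) 𝒰 (𝓝 0) := by
  have h1 : ∀ n, avg (m n) L (fun t => fourier k (t • z n) * e (t • α n)) =
      avg (m n) L (fun t => e (t • (k • z n + α n))) := by
    intro n
    refine avg_congr fun t _ => ?_
    rw [fourier_eq, ← e_add, nsmul_add, smul_comm]
  by_cases hk : k = N
  · subst hk
    have h2 : ∀ n, Phi (m n) L (z n) (α n) k (fourier k) = 0 := by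
      intro n
      unfold Phi
      rw [h1, fourierCoeff_fourier, Pi.single_eq_same, one_mul, sub_self]
    simp only [h2]
    exact tendsto_const_nhds
  · have h2 : ∀ n, Phi (m n) L (z n) (α n) N (fourier k) =
        avg (m n) L (fun t => e (t • (k • z n + α n))) := by
      intro n
      unfold Phi
      rw [h1, fourierCoeff_fourier, Pi.single_eq_of_ne (Ne.symm hk), zero_mul, sub_zero]
    simp only [h2]
    refine tendsto_avg_e hm hL (fun n => ?_) (hN k hk)
    rw [nsmul_add, hα, smul_comm, hz, smul_zero, add_zero]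

/-- **The limit for continuous functions.** -/
theorem tendsto_Phi (hm : ∀ n, 0 < m n) (hL : ∀ n, L ∣ m n)
    (hz : ∀ n, m n • z n = 0) (hα : ∀ n, m n • α n = 0)
    (hN : ∀ k : ℤ, k ≠ N → ¬ Tor 𝒰 (fun n => k • z n + α n)) (G : C(UnitAddCircle, ℂ)) :
    Tendsto (fun n => Phi (m n) L (z n) (α n) N G) 𝒰 (𝓝 0) := by
  have hspan : ∀ p ∈ Submodule.span ℂ (Set.range (@fourier 1)),
      Tendsto (fun n => Phi (m n) L (z n) (α n) N p) 𝒰 (𝓝 0) := by
    intro p hp
    induction hp using Submodule.span_induction with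
    | mem x hx =>
      obtain ⟨k, rfl⟩ := hx
      exact tendsto_Phi_fourier hm hL hz hα hN k
    | zero =>
      have h0 : ∀ n, Phi (m n) L (z n) (α n) N 0 = 0 := by
        intro n
        have h1 := norm_Phi_le (m n) L (z n) (α n) N 0
        rw [norm_zero, mul_zero] at h1
        exact norm_le_zero_iff.mp h1
      simp only [h0]
      exact tendsto_const_nhds
    | add x y _ _ hx hy =>
      simp only [Phi_add]
      simpa using hx.add hy
    | smul c x _ hx =>
      simp only [Phi_smul]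
      simpa using hx.const_mul c
  have hcl : G ∈ (Submodule.span ℂ (Set.range (@fourier 1))).topologicalClosure := by
    rw [span_fourier_closure_eq_top]
    trivial
  have hcl' : G ∈ closure ((Submodule.span ℂ (Set.range (@fourier 1)) : Submodule ℂ _) : Set _) :=
    hcl
  rw [Metric.mem_closure_iff] at hcl'
  rw [Metric.tendsto_nhds]
  intro ε hε
  obtain ⟨p, hp, hpG⟩ := hcl' (ε / 4) (by positivity)
  have h1 := hspan p hp
  rw [Metric.tendsto_nhds] at h1
  filter_upwards [h1 (ε / 2) (by positivity)] with n hn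
  rw [dist_zero_right] at hn ⊢
  have h2 : Phi (m n) L (z n) (α n) N G = Phi (m n) L (z n) (α n) N p +
      Phi (m n) L (z n) (α n) N (G - p) := by
    rw [← Phi_add, add_sub_cancel]
  rw [h2]
  have h3 := norm_Phi_le (m n) L (z n) (α n) N (G - p)
  rw [dist_eq_norm] at hpG
  calc ‖Phi (m n) L (z n) (α n) N p + Phi (m n) L (z n) (α n) N (G - p)‖
      ≤ ‖Phi (m n) L (z n) (α n) N p‖ + ‖Phi (m n) L (z n) (α n) N (G - p)‖ := norm_add_le _ _
    _ < ε := by linarith

/-- the average of the sawtooth function against a character, minus the main term -/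
noncomputable def Psi (m L : ℕ) (z α : UnitAddCircle) (N : ℤ) : ℂ :=
  avg m L (fun t => (sw (t • z) : ℂ) * e (t • α)) -
    bernoulliFourierCoeff 1 N * avg m L (fun t => e (t • (N • z + α)))

/-- **The limit for the sawtooth function.** -/
theorem tendsto_Psi (hm : ∀ n, 0 < m n) (hL : ∀ n, L ∣ m n)
    (hz : ∀ n, m n • z n = 0) (hα : ∀ n, m n • α n = 0) (hzt : ¬ Tor 𝒰 z)
    (hN : ∀ k : ℤ, k ≠ N → ¬ Tor 𝒰 (fun n => k • z n + α n)) :
    Tendsto (fun n => Psi (m n) L (z n) (α n) N) 𝒰 (𝓝 0) := by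
  have hzk : ∀ k : ℤ, k ≠ 0 → ¬ Tor 𝒰 (fun n => k • z n + 0) := by
    rintro k hk ⟨q, hq, h⟩
    refine hzt ⟨q * k.natAbs, Nat.mul_pos hq (Int.natAbs_pos.mpr hk), ?_⟩
    filter_upwards [h] with n hn
    rw [add_zero] at hn
    rw [mul_nsmul']
    rcases Int.natAbs_eq k with hk' | hk'
    · rw [hk', natCast_zsmul] at hn
      exact hn
    · rw [hk', neg_smul, natCast_zsmul, smul_neg, neg_eq_zero] at hn
      exact hn
  rw [Metric.tendsto_nhds]
  intro ε hε
  obtain ⟨K, hK⟩ := exists_nat_gt (16 / ε)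
  have hK0 : (0 : ℝ) < K := lt_trans (by positivity) hK
  have hK1 : 2 / ((K : ℝ) + 2) < ε / 8 := by
    rw [div_lt_iff₀ (by positivity)]
    rw [div_lt_iff₀ hε] at hK
    nlinarith
  have h1 := tendsto_Phi (𝒰 := 𝒰) hm hL hz hα hN (Gs K)
  have h2 := tendsto_Phi (𝒰 := 𝒰) (α := fun _ => 0) (N := 0) hm hL hz (fun n => nsmul_zero _) hzk
    (U K)
  rw [Metric.tendsto_nhds] at h1 h2
  filter_upwards [h1 (ε / 4) (by positivity), h2 (ε / 4) (by positivity)] with n hn1 hn2
  rw [dist_zero_right] at hn1 hn2 ⊢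
  -- the bump
  have h3 : ‖avg (m n) L (fun t => (uR K (t • z n) : ℂ))‖ ≤ ε / 4 + ε / 8 := by
    have h4 : Phi (m n) L (z n) 0 0 (U K) = avg (m n) L (fun t => (uR K (t • z n) : ℂ)) -
        fourierCoeff (U K) 0 * avg (m n) L (fun _ => 1) := by
      unfold Phi
      congr 2
      · funext t
        rw [U_apply, nsmul_zero, e_zero, mul_one]
      · congr 1
        funext t
        simp
    have h5 : ‖avg (m n) L (fun _ => (1 : ℂ))‖ ≤ 1 := norm_avg_le zero_le_one fun t _ => by simp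
    have h6 : ‖fourierCoeff (U K) 0‖ < ε / 8 := by
      rw [fourierCoeff_U, Complex.norm_real, Real.norm_eq_abs, abs_of_pos (by positivity)]
      exact hK1
    have h7 : avg (m n) L (fun t => (uR K (t • z n) : ℂ)) = Phi (m n) L (z n) 0 0 (U K) +
        fourierCoeff (U K) 0 * avg (m n) L (fun _ => 1) := by
      rw [h4, sub_add_cancel]
    rw [h7]
    refine (norm_add_le _ _).trans (add_le_add hn2.le ?_)
    rw [norm_mul]
    nlinarith [norm_nonneg (fourierCoeff (U K) 0), norm_nonneg (avg (m n) L (fun _ => (1 : ℂ)))]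
  -- the replacement of the sawtooth function
  have h4 : ‖avg (m n) L (fun t => ((sw (t • z n) : ℂ) - Gs K (t • z n)) * e (t • α n))‖ ≤
      ε / 4 + ε / 8 := by
    refine le_trans (norm_avg_le_avg (g := fun t => uR K (t • z n)) fun t _ => ?_) h3
    rw [norm_mul, norm_e, mul_one]
    exact norm_sw_sub_le K _
  have h5 : Psi (m n) L (z n) (α n) N = Phi (m n) L (z n) (α n) N (Gs K) +
      avg (m n) L (fun t => ((sw (t • z n) : ℂ) - Gs K (t • z n)) * e (t • α n)) +
      (fourierCoeff (Gs K) N - bernoulliFourierCoeff 1 N) *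
        avg (m n) L (fun t => e (t • (N • z n + α n))) := by
    unfold Psi Phi
    simp only [sub_mul]
    rw [avg_sub]
    ring
  rw [h5]
  have h6 : ‖(fourierCoeff (Gs K) N - bernoulliFourierCoeff 1 N) *
      avg (m n) L (fun t => e (t • (N • z n + α n)))‖ ≤ ε / 8 := by
    rw [norm_mul]
    have h7 := norm_fourierCoeff_sub_le K N
    have h8 : ‖avg (m n) L (fun t => e (t • (N • z n + α n)))‖ ≤ 1 :=
      norm_avg_le zero_le_one fun t _ => (norm_e _).le
    nlinarith [norm_nonneg (fourierCoeff (Gs K) N - bernoulliFourierCoeff 1 N),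
      norm_nonneg (avg (m n) L (fun t => e (t • (N • z n + α n))))]
  refine lt_of_le_of_lt (norm_add_le _ _) ?_
  have h9 := norm_add_le (Phi (m n) L (z n) (α n) N (Gs K))
    (avg (m n) L (fun t => ((sw (t • z n) : ℂ) - Gs K (t • z n)) * e (t • α n)))
  linarith

end

end Pool.Agent.Q59.QP
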