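import Pool.Agent.Q59.QP.Jump

/-!
# The multiplication theorem and formal relations
-/

namespace Pool.Agent.Q59.QP

open Finset

lemma sw_zero : sw 0 = 0 := by
  have := sw_coe (y := 0) le_rfl zero_lt_one
  simpa using this

lemma sw_neg (z : UnitAddCircle) : sw (-z) = -sw z := by
  obtain ⟨y, ⟨h0, h1⟩, rfl⟩ := AddCircle.eq_coe_Ico z
  rcases h0.eq_or_lt with h | h
  · rw [← h]
    simp [sw_zero]
  · have e1 : (-(y : UnitAddCircle)) = ((1 - y : ℝ) : UnitAddCircle) := by
      rw [AddCircle.coe_sub]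
      have : ((1 : ℝ) : UnitAddCircle) = 0 := AddCircle.coe_period 1
      rw [this, zero_sub]
    rw [e1, sw_coe (by linarith) (by linarith), sw_coe h0 h1, if_neg (by linarith),
      if_neg h.ne']
    ring

lemma pt_add (κ r s : ℕ) : pt κ (r + s) = pt κ r + pt κ s := by
  rw [pt_eq, add_nsmul, ← pt_eq, ← pt_eq]

lemma pt_self {κ : ℕ} (hκ : 0 < κ) : pt κ κ = 0 := by
  have := nsmul_pt hκ 1
  rwa [← pt_eq] at this

/-- sums over the translates by the points killed by `κ` -/
lemma sum_shift {M : Type*} [AddCommGroup M] {κ : ℕ} (hκ : 0 < κ) (F : UnitAddCircle → M) (j : ℕ) :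
    ∑ r ∈ range κ, F (pt κ j + pt κ r) = ∑ r ∈ range κ, F (pt κ r) := by
  induction j with
  | zero =>
    refine sum_congr rfl fun r _ => ?_
    congr 1
    rw [pt_eq κ 0, zero_nsmul, zero_add]
  | succ j ih =>
    rw [← ih]
    have h1 : ∀ r, F (pt κ (j + 1) + pt κ r) = F (pt κ j + pt κ (r + 1)) := by
      intro r
      rw [pt_add, pt_add κ r 1]
      congr 1
      abel
    simp only [h1]
    have h2 := sum_range_succ' (fun r => F (pt κ j + pt κ r)) κ
    have h3 := sum_range_succ (fun r => F (pt κ j + pt κ r)) κ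
    have h4 : F (pt κ j + pt κ κ) = F (pt κ j + pt κ 0) := by
      rw [pt_self hκ, pt_eq κ 0, zero_nsmul]
    rw [h3, h4] at h2
    exact (add_right_cancel h2).symm

/-- **The multiplication theorem.** -/
theorem sw_nsmul {κ : ℕ} (hκ : 0 < κ) (z : UnitAddCircle) :
    sw (κ • z) = ∑ r ∈ range κ, sw (z + pt κ r) := by
  obtain ⟨y, ⟨h0, h1⟩, rfl⟩ := AddCircle.eq_coe_Ico z
  have hκ' : (0 : ℝ) < κ := by exact_mod_cast hκ
  set j := ⌊(κ : ℝ) * y⌋₊ with hj
  set y0 : ℝ := y - j / κ with hy0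
  have hj1 : (j : ℝ) ≤ κ * y := Nat.floor_le (by positivity)
  have hj2 : (κ : ℝ) * y < j + 1 := Nat.lt_floor_add_one _
  have hy00 : 0 ≤ y0 := by
    rw [hy0, sub_nonneg, div_le_iff₀ hκ']
    linarith
  have hy01 : κ * y0 < 1 := by
    rw [hy0, mul_sub, mul_div_cancel₀ _ hκ'.ne']
    linarith
  have hz : (y : UnitAddCircle) = (y0 : UnitAddCircle) + pt κ j := by
    unfold pt
    rw [← AddCircle.coe_add, hy0, sub_add_cancel]
  have e1 : κ • (y : UnitAddCircle) = ((κ * y0 : ℝ) : UnitAddCircle) := by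
    rw [hz, nsmul_add, nsmul_pt hκ, add_zero, ← AddCircle.coe_nsmul, nsmul_eq_mul]
  have e2 : ∑ r ∈ range κ, sw ((y : UnitAddCircle) + pt κ r) =
      ∑ r ∈ range κ, sw ((y0 : UnitAddCircle) + pt κ r) := by
    rw [← sum_shift hκ (fun w => sw ((y0 : UnitAddCircle) + w)) j]
    refine sum_congr rfl fun r _ => ?_
    rw [hz, add_assoc]
  rw [e1, e2, sw_coe (by positivity) hy01]
  have e3 : ∀ r ∈ range κ, sw ((y0 : UnitAddCircle) + pt κ r) =
      if y0 + r / κ = 0 then 0 else y0 + r / κ - 1 / 2 := by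
    intro r hr
    unfold pt
    rw [← AddCircle.coe_add, sw_coe (by positivity)]
    have h2 : (r : ℝ) + 1 ≤ κ := by exact_mod_cast mem_range.mp hr
    have h3 : κ * (y0 + r / κ) < κ * 1 := by
      rw [mul_add, mul_div_cancel₀ _ hκ'.ne']
      linarith
    exact lt_of_mul_lt_mul_left h3 hκ'.le
  rw [sum_congr rfl e3]
  have hsum : ∑ r ∈ range κ, ((r : ℝ) / κ - 1 / 2) = -1 / 2 := by
    rw [sum_sub_distrib, ← sum_div, sum_const, card_range, nsmul_eq_mul]
    have h2 : (∑ r ∈ range κ, (r : ℝ)) * 2 = κ * (κ - 1) := by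
      have := Finset.sum_range_id_mul_two κ
      have h3 : ((∑ r ∈ range κ, r : ℕ) : ℝ) * 2 = (κ * (κ - 1 : ℕ) : ℕ) := by exact_mod_cast this
      rw [Nat.cast_sum] at h3
      rw [h3]
      push_cast [Nat.cast_sub hκ]
      ring
    have h3 : ∑ r ∈ range κ, (r : ℝ) = κ * (κ - 1) / 2 := by linarith
    rw [h3]
    field_simp
    ring
  rcases hy00.eq_or_lt with h | h
  · rw [← h]
    rw [if_pos (by simp)]
    have e4 : ∀ r ∈ range κ, (if (0 : ℝ) + r / κ = 0 then (0 : ℝ) else 0 + r / κ - 1 / 2) =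
        (r / κ - 1 / 2) + if r = 0 then 1 / 2 else 0 := by
      intro r _
      rcases Nat.eq_zero_or_pos r with hr | hr
      · subst hr
        simp
      · have h2 : (r : ℝ) / κ ≠ 0 := by positivity
        rw [zero_add, if_neg h2, if_neg hr.ne', add_zero]
    rw [sum_congr rfl e4, sum_add_distrib, hsum, sum_ite_eq', if_pos (mem_range.mpr hκ)]
    norm_num
  · rw [if_neg (by positivity)]
    have e4 : ∀ r ∈ range κ, (if y0 + (r : ℝ) / κ = 0 then (0 : ℝ) else y0 + r / κ - 1 / 2) =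
        y0 + (r / κ - 1 / 2) := by
      intro r _
      rw [if_neg (by positivity)]
      ring
    rw [sum_congr rfl e4, sum_add_distrib, hsum, sum_const, card_range, nsmul_eq_mul]
    ring

lemma sw_zsmul {k : ℤ} (hk : k ≠ 0) (z : UnitAddCircle) :
    sw (k • z) = (k.sign : ℝ) * ∑ r ∈ range k.natAbs, sw (z + pt k.natAbs r) := by
  have hpos : 0 < k.natAbs := Int.natAbs_pos.mpr hk
  rw [← sw_nsmul hpos]
  rcases lt_or_gt_of_ne hk with h | h
  · rw [Int.sign_eq_neg_one_of_neg h]
    have h1 : k • z = -(k.natAbs • z) := by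
      conv_lhs => rw [Int.eq_neg_comm.mp (Int.ofNat_natAbs_of_nonpos h.le), neg_smul, natCast_zsmul]
    rw [h1, sw_neg]
    push_cast
    ring
  · rw [Int.sign_eq_one_of_pos h]
    have h1 : k • z = k.natAbs • z := by
      conv_lhs => rw [← Int.natAbs_of_nonneg h.le, natCast_zsmul]
    rw [h1]
    push_cast
    ring

section

variable {ι : Type*} {C : Finset ι} {k : ι → ℤ} {τ : ι → UnitAddCircle}

open Classical in
/-- the jump function of a family -/
noncomputable def jump (C : Finset ι) (k : ι → ℤ) (τ : ι → UnitAddCircle) (y : UnitAddCircle) : ℤ :=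
  ∑ i ∈ C, (k i).sign * (if k i • y + τ i = 0 then 1 else 0)

open Classical in
/-- sums over the solutions -/
theorem sum_solutions {M : Type*} [AddCommGroup M] (hk : ∀ i ∈ C, k i ≠ 0)
    (hJ : ∀ y, jump C k τ y = 0) {w : ι → UnitAddCircle} (hw : ∀ i ∈ C, k i • w i = -τ i)
    (F : UnitAddCircle → M) :
    ∑ i ∈ C, (k i).sign • ∑ r ∈ range (k i).natAbs, F (w i + pt (k i).natAbs r) = 0 := by
  set Z : Finset UnitAddCircle := C.biUnion fun i =>
    (range (k i).natAbs).image fun r => w i + pt (k i).natAbs r with hZ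
  have h1 : ∀ i ∈ C, ∑ r ∈ range (k i).natAbs, F (w i + pt (k i).natAbs r) =
      ∑ v ∈ Z, if k i • v + τ i = 0 then F v else 0 := by
    intro i hi
    have hpos : 0 < (k i).natAbs := Int.natAbs_pos.mpr (hk i hi)
    have hinj : Set.InjOn (fun r => w i + pt (k i).natAbs r) (range (k i).natAbs : Set ℕ) := by
      intro r hr s hs h
      exact pt_inj hpos (mem_range.mp hr) (mem_range.mp hs) (add_left_cancel h)
    have himg : (range (k i).natAbs).image (fun r => w i + pt (k i).natAbs r) =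
        Z.filter fun v => k i • v + τ i = 0 := by
      ext v
      rw [mem_image, mem_filter]
      constructor
      · rintro ⟨r, hr, rfl⟩
        refine ⟨mem_biUnion.mpr ⟨i, hi, mem_image_of_mem _ hr⟩, ?_⟩
        have h2 : k i • pt (k i).natAbs r = 0 := natAbs_nsmul_eq_zero.mp (nsmul_pt hpos r)
        rw [smul_add, hw i hi, h2, add_zero, neg_add_cancel]
      · rintro ⟨-, hv⟩
        have h2 : (k i).natAbs • (v - w i) = 0 := by
          rw [natAbs_nsmul_eq_zero, smul_sub, hw i hi, sub_neg_eq_add, hv]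
        obtain ⟨r, hr, hr'⟩ := exists_pt hpos h2
        exact ⟨r, mem_range.mpr hr, by rw [hr']; abel⟩
    rw [← sum_filter, ← himg, sum_image hinj]
  rw [sum_congr rfl fun i hi => by rw [h1 i hi, smul_sum], sum_comm]
  refine sum_eq_zero fun v _ => ?_
  have h2 : ∀ i ∈ C, ((k i).sign • if k i • v + τ i = 0 then F v else 0) =
      ((k i).sign * (if k i • v + τ i = 0 then 1 else 0)) • F v := by
    intro i _
    split_ifs
    · rw [mul_one]
    · rw [smul_zero, mul_zero, zero_smul]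
  rw [sum_congr rfl h2, ← sum_smul]
  have := hJ v
  unfold jump at this
  rw [this, zero_smul]

/-- multiplication by `t` permutes the points killed by `κ` -/
lemma sum_pt_mul {M : Type*} [AddCommMonoid M] {κ t : ℕ} (hκ : 0 < κ) (ht : t.Coprime κ)
    (F : UnitAddCircle → M) : ∑ r ∈ range κ, F (t • pt κ r) = ∑ r ∈ range κ, F (pt κ r) := by
  have h1 : ∀ r, t • pt κ r = pt κ (t * r % κ) := by
    intro r
    rw [pt_eq, pt_eq κ (t * r % κ), mod_nsmul (nsmul_pt hκ 1), ← mul_nsmul']
  simp only [h1]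
  have hinj : Set.InjOn (fun r => t * r % κ) (range κ : Set ℕ) := by
    intro r hr s hs h
    have h2 : t * r ≡ t * s [MOD κ] := h
    have h3 := Nat.ModEq.cancel_left_of_coprime (by rwa [Nat.gcd_comm]) h2
    exact Nat.ModEq.eq_of_lt_of_lt h3 (mem_range.mp hr) (mem_range.mp hs)
  have himg : (range κ).image (fun r => t * r % κ) = range κ := by
    apply eq_of_subset_of_card_le
    · intro x hx
      obtain ⟨r, -, rfl⟩ := mem_image.mp hx
      exact mem_range.mpr (Nat.mod_lt _ hκ)
    · rw [card_image_of_injOn hinj]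
  calc ∑ r ∈ range κ, F (pt κ (t * r % κ))
      = ∑ x ∈ (range κ).image (fun r => t * r % κ), F (pt κ x) :=
        (sum_image (f := fun x => F (pt κ x)) hinj).symm
    _ = _ := by rw [himg]

/-- **Formal relations are relations.** -/
theorem sum_sw_eq_zero (hk : ∀ i ∈ C, k i ≠ 0) (hJ : ∀ y, jump C k τ y = 0) {t : ℕ}
    (ht : ∀ i ∈ C, t.Coprime (k i).natAbs) (y : UnitAddCircle) :
    ∑ i ∈ C, sw (t • (k i • y + τ i)) = 0 := by
  have hy : ∀ i : ι, ∃ w : UnitAddCircle, i ∈ C → k i • w = -τ i := by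
    intro i
    by_cases hi : i ∈ C
    · obtain ⟨w, hw⟩ := exists_div (k i) (hk i hi) (-τ i)
      exact ⟨w, fun _ => hw⟩
    · exact ⟨0, fun h => absurd h hi⟩
  choose w hw using hy
  have h1 := sum_solutions hk hJ hw (fun v => sw (t • (y - v)))
  rw [← h1]
  refine sum_congr rfl fun i hi => ?_
  have hpos : 0 < (k i).natAbs := Int.natAbs_pos.mpr (hk i hi)
  have h2 : t • (k i • y + τ i) = k i • (t • (y - w i)) := by
    rw [smul_comm (k i) t, smul_sub, hw i hi, sub_neg_eq_add]
  rw [h2, sw_zsmul (hk i hi), zsmul_eq_mul]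
  congr 1
  have h3 : ∀ r, t • (y - (w i + pt (k i).natAbs r)) = t • (y - w i) + -(t • pt (k i).natAbs r) := by
    intro r
    rw [← sub_sub, smul_sub, sub_eq_add_neg]
  simp only [h3]
  rw [sum_pt_mul hpos (ht i hi) (fun v => sw (t • (y - w i) + -v))]
  -- the points are symmetric
  have h4 : ∀ r, -pt (k i).natAbs r = ((k i).natAbs - 1) • pt (k i).natAbs r := by
    intro r
    have h5 := nsmul_pt hpos r
    rw [neg_eq_iff_add_eq_zero]
    conv_rhs => rw [← h5]
    conv_lhs => rw [← one_nsmul (pt (k i).natAbs r)]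
    rw [one_nsmul, ← succ_nsmul', Nat.sub_add_cancel hpos]
  simp only [h4]
  rw [sum_pt_mul hpos (F := fun v => sw (t • (y - w i) + v))]
  rw [Nat.coprime_comm]
  exact (Nat.coprime_self_sub_right hpos).mpr (Nat.coprime_one_right _)

end

end Pool.Agent.Q59.QP
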