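import Pool.Agent.Q59.QP.Struct

/-!
# Quasi-polynomials and the number of torsion points in affine sets
-/

namespace Pool.Agent.Q59.QP

open Finset

/-- quasi-polynomials (on the positive integers) -/
def IsQP (g : ℕ → ℚ) : Prop :=
  ∃ P : ℕ, 0 < P ∧ ∃ Q : ℕ → Polynomial ℚ, ∀ m, 0 < m → g m = (Q (m % P)).eval (m : ℚ)

section IsQP

variable {g h : ℕ → ℚ}

lemma IsQP.congr (hg : IsQP g) (hgh : ∀ m, 0 < m → g m = h m) : IsQP h := by
  obtain ⟨P, hP, Q, hQ⟩ := hg
  exact ⟨P, hP, Q, fun m hm => (hgh m hm).symm.trans (hQ m hm)⟩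

lemma IsQP.of_poly (Q : Polynomial ℚ) : IsQP (fun m => Q.eval (m : ℚ)) :=
  ⟨1, one_pos, fun _ => Q, fun _ _ => rfl⟩

lemma IsQP.of_periodic {P : ℕ} (hP : 0 < P) (hg : ∀ m, 0 < m → g m = g (m % P + P)) : IsQP g :=
  ⟨P, hP, fun r => Polynomial.C (g (r + P)), fun m hm => by rw [hg m hm, Polynomial.eval_C]⟩

lemma IsQP.op (op : ℚ → ℚ → ℚ) (opP : Polynomial ℚ → Polynomial ℚ → Polynomial ℚ)
    (hop : ∀ a b x, (opP a b).eval x = op (a.eval x) (b.eval x)) (hg : IsQP g) (hh : IsQP h) :
    IsQP (fun m => op (g m) (h m)) := by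
  obtain ⟨P, hP, Q, hQ⟩ := hg
  obtain ⟨P', hP', Q', hQ'⟩ := hh
  refine ⟨P * P', Nat.mul_pos hP hP', fun r => opP (Q (r % P)) (Q' (r % P')), fun m hm => ?_⟩
  simp only
  rw [hop, Nat.mod_mul_right_mod, Nat.mod_mul_left_mod, hQ m hm, hQ' m hm]

lemma IsQP.add (hg : IsQP g) (hh : IsQP h) : IsQP (fun m => g m + h m) :=
  IsQP.op (· + ·) (· + ·) (fun _ _ _ => Polynomial.eval_add) hg hh

lemma IsQP.sub (hg : IsQP g) (hh : IsQP h) : IsQP (fun m => g m - h m) :=
  IsQP.op (· - ·) (· - ·) (fun a b x => Polynomial.eval_sub a b x) hg hh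

lemma IsQP.mul (hg : IsQP g) (hh : IsQP h) : IsQP (fun m => g m * h m) :=
  IsQP.op (· * ·) (· * ·) (fun _ _ _ => Polynomial.eval_mul) hg hh

lemma IsQP.const (c : ℚ) : IsQP (fun _ => c) := by
  simpa using IsQP.of_poly (Polynomial.C c)

lemma IsQP.id : IsQP (fun m => (m : ℚ)) := by
  simpa using IsQP.of_poly Polynomial.X

lemma IsQP.prod {ι : Type*} (s : Finset ι) {g : ι → ℕ → ℚ} (hg : ∀ i ∈ s, IsQP (g i)) :
    IsQP (fun m => ∏ i ∈ s, g i m) := by
  classical
  induction s using Finset.induction_on with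
  | empty => simpa using IsQP.const 1
  | insert a s ha ih =>
    simp only [prod_insert ha]
    exact (hg a (mem_insert_self _ _)).mul (ih fun i hi => hg i (mem_insert_of_mem hi))

end IsQP

/-- the points killed by `m` -/
noncomputable def tm (m : ℕ) : Finset UnitAddCircle := by
  classical exact (range m).image (pt m)

lemma mem_tm {m : ℕ} (hm : 0 < m) {z : UnitAddCircle} : z ∈ tm m ↔ m • z = 0 := by
  classical
  unfold tm
  rw [mem_image]
  constructor
  · rintro ⟨r, -, rfl⟩
    exact nsmul_pt hm r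
  · intro h
    obtain ⟨r, hr, hr'⟩ := exists_pt hm h
    exact ⟨r, mem_range.mpr hr, hr'⟩

lemma card_tm {m : ℕ} (hm : 0 < m) : (tm m).card = m := by
  classical
  unfold tm
  rw [card_image_of_injOn, card_range]
  intro r hr s hs h
  exact pt_inj hm (mem_range.mp hr) (mem_range.mp hs) h

section TT

variable {ι : Type*} [Fintype ι] [DecidableEq ι]

/-- the tuples killed by `m` -/
noncomputable def TT (ι : Type*) [Fintype ι] [DecidableEq ι] (m : ℕ) :
    Finset (ι → UnitAddCircle) := Fintype.piFinset fun _ => tm m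

lemma mem_TT {m : ℕ} (hm : 0 < m) {x : ι → UnitAddCircle} : x ∈ TT ι m ↔ ∀ i, m • x i = 0 := by
  unfold TT
  rw [Fintype.mem_piFinset]
  exact forall_congr' fun i => mem_tm hm

/-- affine sets -/
def Aff (X : Set (ι → UnitAddCircle)) : Prop :=
  ∃ E : Set ((ι → ℤ) × UnitAddCircle), X = {x | ∀ p ∈ E, ∑ i, p.1 i • x i = p.2}

omit [DecidableEq ι] in
lemma Aff.inter {X Y : Set (ι → UnitAddCircle)} (hX : Aff X) (hY : Aff Y) : Aff (X ∩ Y) := by
  obtain ⟨E, rfl⟩ := hX
  obtain ⟨F, rfl⟩ := hY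
  refine ⟨E ∪ F, ?_⟩
  ext x
  simp only [Set.mem_inter_iff, Set.mem_ofPred_eq, Set.mem_union]
  constructor
  · rintro ⟨h1, h2⟩ p (hp | hp)
    · exact h1 p hp
    · exact h2 p hp
  · intro h
    exact ⟨fun p hp => h p (Or.inl hp), fun p hp => h p (Or.inr hp)⟩

omit [DecidableEq ι] in
lemma Aff.univ : Aff (Set.univ : Set (ι → UnitAddCircle)) := ⟨∅, by simp⟩

/-- the one dimensional count -/
lemma isQP_one {a : ℤ} (ha : a ≠ 0) {y0 : UnitAddCircle} {N0 : ℕ} (hN0 : 0 < N0)
    (hy0 : N0 • y0 = 0) :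
    IsQP (fun m => ((((tm m).filter fun y => a • y = a • y0).card : ℕ) : ℚ)) := by
  classical
  set N : ℕ := N0 * a.natAbs with hN
  have hNpos : 0 < N := Nat.mul_pos hN0 (Int.natAbs_pos.mpr ha)
  have hkill : ∀ y : UnitAddCircle, a • y = a • y0 → N • y = 0 := by
    intro y hy
    have h1 : a • (y - y0) = 0 := by rw [smul_sub, hy, sub_self]
    have h2 := natAbs_nsmul_eq_zero.mpr h1
    have h3 : N • (y - y0) = 0 := by rw [hN, mul_nsmul', h2, nsmul_zero]
    have h4 : N • y0 = 0 := by rw [hN, mul_comm, mul_nsmul', hy0, nsmul_zero]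
    rw [smul_sub, h4, sub_zero] at h3
    exact h3
  have heq : ∀ m, 0 < m → (tm m).filter (fun y => a • y = a • y0) =
      ((tm N).filter fun y => a • y = a • y0).filter fun y => m • y = 0 := by
    intro m hm
    ext y
    simp only [mem_filter, mem_tm hm, mem_tm hNpos]
    constructor
    · rintro ⟨h1, h2⟩
      exact ⟨⟨hkill y h2, h2⟩, h1⟩
    · rintro ⟨⟨-, h2⟩, h1⟩
      exact ⟨h1, h2⟩
  refine IsQP.congr (g := fun m => ((((tm N).filter fun y => a • y = a • y0).filter
    fun y => m • y = 0).card : ℚ)) (IsQP.of_periodic hNpos fun m _ => ?_) fun m hm => ?_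
  · congr 2
    refine filter_congr fun y hy => ?_
    have h1 : N • y = 0 := (mem_tm hNpos).mp (mem_filter.mp hy).1
    rw [add_nsmul, h1, add_zero, mod_nsmul h1]
  · rw [heq m hm]

/-- **Affine sets have a quasi-polynomial number of torsion points.** -/
theorem Aff.isQP {X : Set (ι → UnitAddCircle)} (hX : Aff X) [DecidablePred (· ∈ X)] :
    IsQP (fun m => ((((TT ι m).filter (· ∈ X)).card : ℕ) : ℚ)) := by
  classical
  obtain ⟨E, hE⟩ := hX
  by_cases hne : ∃ x0 ∈ X, ∃ m0 : ℕ, 0 < m0 ∧ ∀ i, m0 • x0 i = 0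
  swap
  · push Not at hne
    refine (IsQP.const 0).congr fun m hm => ?_
    symm
    rw [Nat.cast_eq_zero, card_eq_zero, filter_eq_empty_iff]
    intro x hx hxX
    obtain ⟨i, hi⟩ := hne x hxX m hm
    exact hi ((mem_TT hm).mp hx i)
  obtain ⟨x0, hx0, m0, hm0, hx0m⟩ := hne
  -- the pairing
  let F : (ι → UnitAddCircle) ≃ₗ[ℤ] ((ι → ℤ) →ₗ[ℤ] UnitAddCircle) := (Pi.basisFun ℤ ι).constr ℤ
  have hF : ∀ (x : ι → UnitAddCircle) (v : ι → ℤ), F x v = ∑ i, v i • x i := by
    intro x v
    change (Pi.basisFun ℤ ι).constr ℤ x v = _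
    rw [Module.Basis.constr_apply_fintype]
    rfl
  set B : Submodule ℤ (ι → ℤ) := Submodule.span ℤ (Prod.fst '' E) with hB
  obtain ⟨n, snf⟩ := Submodule.smithNormalForm (Pi.basisFun ℤ ι) B
  -- membership
  have hmem : ∀ x, x ∈ X ↔ ∀ b ∈ B, F x b = F x0 b := by
    intro x
    rw [hE] at hx0 ⊢
    simp only [Set.mem_ofPred_eq] at hx0 ⊢
    constructor
    · intro hx b hb
      rw [hB] at hb
      induction hb using Submodule.span_induction with
      | mem b hb =>
        obtain ⟨p, hp, rfl⟩ := hb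
        rw [hF, hF, hx p hp, hx0 p hp]
      | zero => rw [map_zero, map_zero]
      | add b c _ _ h1 h2 => rw [map_add, map_add, h1, h2]
      | smul r b _ h1 => rw [map_smul, map_smul, h1]
    · intro hx p hp
      have h1 := hx p.1 (Submodule.subset_span ⟨p, hp, rfl⟩)
      rw [hF, hF, hx0 p hp] at h1
      exact h1
  -- the new coordinates
  let φ : (ι → UnitAddCircle) ≃ₗ[ℤ] (ι → UnitAddCircle) := F.trans (snf.bM.constr ℤ).symm
  have hφ : ∀ x l, φ x l = F x (snf.bM l) := by
    intro x l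
    have h1 : snf.bM.constr ℤ (φ x) = F x := by
      change snf.bM.constr ℤ ((snf.bM.constr ℤ).symm (F x)) = F x
      rw [LinearEquiv.apply_symm_apply]
    rw [← h1, Module.Basis.constr_basis]
  have hmem' : ∀ x, x ∈ X ↔ ∀ i, snf.a i • φ x (snf.f i) = snf.a i • φ x0 (snf.f i) := by
    intro x
    rw [hmem]
    constructor
    · intro h i
      have h1 := h _ (snf.bN i).2
      rw [snf.snf, map_smul, map_smul] at h1
      rw [hφ, hφ]
      exact h1
    · intro h b hb
      have h1 : (F x - F x0).comp B.subtype = 0 := by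
        apply snf.bN.ext
        intro i
        have h2 := h i
        rw [hφ, hφ] at h2
        simp only [LinearMap.comp_apply, Submodule.subtype_apply, LinearMap.sub_apply,
          LinearMap.zero_apply]
        rw [snf.snf, map_smul, map_smul, h2, sub_self]
      have h3 := LinearMap.congr_fun h1 ⟨b, hb⟩
      simp only [LinearMap.comp_apply, Submodule.subtype_apply, LinearMap.sub_apply,
        LinearMap.zero_apply] at h3
      exact sub_eq_zero.mp h3
  have ha : ∀ i, snf.a i ≠ 0 := by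
    intro i h0
    have h1 := snf.snf i
    rw [h0, zero_smul] at h1
    exact snf.bN.ne_zero i (Subtype.ext h1)
  have hTT : ∀ m, 0 < m → ∀ x, x ∈ TT ι m ↔ φ x ∈ TT ι m := by
    intro m hm x
    rw [mem_TT hm, mem_TT hm]
    have h1 : (∀ i, m • x i = 0) ↔ m • x = 0 := by
      rw [funext_iff]
      rfl
    have h2 : (∀ i, m • φ x i = 0) ↔ m • φ x = 0 := by
      rw [funext_iff]
      rfl
    rw [h1, h2, ← map_nsmul, LinearEquiv.map_eq_zero_iff]
  -- the count
  set Yl : ℕ → ι → Finset UnitAddCircle := fun m l =>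
    (tm m).filter fun y => ∀ i, snf.f i = l → snf.a i • y = snf.a i • φ x0 l with hYl
  have hcount : ∀ m, 0 < m → ((TT ι m).filter (· ∈ X)).card = ∏ l, (Yl m l).card := by
    intro m hm
    rw [← Fintype.card_piFinset]
    refine card_bij (fun x _ => φ x) ?_ ?_ ?_
    · intro x hx
      rw [mem_filter, hTT m hm] at hx
      rw [Fintype.mem_piFinset]
      intro l
      rw [hYl]
      simp only
      rw [mem_filter, mem_tm hm]
      refine ⟨(mem_TT hm).mp hx.1 l, ?_⟩
      rintro i rfl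
      exact (hmem' x).mp hx.2 i
    · intro x _ y _ h
      exact φ.injective h
    · intro y hy
      rw [Fintype.mem_piFinset] at hy
      refine ⟨φ.symm y, ?_, φ.apply_symm_apply y⟩
      rw [mem_filter, hTT m hm, hmem', φ.apply_symm_apply]
      constructor
      · rw [mem_TT hm]
        intro l
        exact (mem_tm hm).mp (mem_filter.mp (hy l)).1
      · intro i
        exact (mem_filter.mp (hy (snf.f i))).2 i rfl
  refine IsQP.congr (g := fun m => ∏ l, ((Yl m l).card : ℚ)) (IsQP.prod _ fun l _ => ?_)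
    fun m hm => by rw [hcount m hm, Nat.cast_prod]
  have hx0φ : ∀ l, m0 • φ x0 l = 0 := by
    intro l
    have h1 := (hTT m0 hm0 x0).mp ((mem_TT hm0).mpr hx0m)
    exact (mem_TT hm0).mp h1 l
  by_cases hl : ∃ i, snf.f i = l
  · obtain ⟨i, rfl⟩ := hl
    refine (isQP_one (ha i) hm0 (hx0φ (snf.f i))).congr fun m _ => ?_
    rw [hYl]
    simp only
    congr 2
    refine filter_congr fun y _ => ?_
    constructor
    · intro h j hj
      have : j = i := snf.f.injective hj
      rw [this]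
      exact h
    · intro h
      exact h i rfl
  · refine IsQP.id.congr fun m hm => ?_
    rw [hYl]
    simp only
    rw [filter_true_of_mem fun y _ i hi => absurd ⟨i, hi⟩ hl, card_tm hm]

end TT

end Pool.Agent.Q59.QP
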