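import Pool.Agent.Q59.QP.Mult

/-!
# The relations form a finite union of torsion cosets
-/

namespace Pool.Agent.Q59.QP

open Finset Filter Topology

/-- the multisets of torsion points killed by the Galois conjugates of the sawtooth function -/
def Rel {ι : Type*} [Fintype ι] (x : ι → UnitAddCircle) : Prop :=
  ∃ m : ℕ, 0 < m ∧ (∀ i, m • x i = 0) ∧ ∀ t : ℕ, t.Coprime m → ∑ i, sw (t • x i) = 0

/-- the data of a coset -/
structure Datum (ι : Type*) where
  /-- the class of an index -/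
  c : ι → ι
  /-- the multiplicities -/
  k : ι → ℤ
  /-- the translation -/
  τ : ι → UnitAddCircle

/-- the points of the coset -/
def Datum.Mem {ι : Type*} (D : Datum ι) (x : ι → UnitAddCircle) : Prop :=
  ∃ a : ι → UnitAddCircle, ∀ i, x i = D.k i • a (D.c i) + D.τ i

open Classical in
/-- the formal relations -/
structure Datum.Formal {ι : Type*} [Fintype ι] (D : Datum ι) : Prop where
  /-- the constant part -/
  tors : ∃ L : ℕ, 0 < L ∧ (∀ i, L • D.τ i = 0) ∧
    ∀ t : ℕ, t.Coprime L → ∑ i with D.k i = 0, sw (t • D.τ i) = 0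
  /-- the classes -/
  jump : ∀ r y, jump (univ.filter fun i => D.c i = r ∧ D.k i ≠ 0) D.k D.τ y = 0

lemma exists_lift {t m : ℕ} (M : ℕ) (hm : 0 < m) (hM : 0 < M) (ht : t.Coprime m) :
    ∃ t' : ℕ, t' ≡ t [MOD m] ∧ t'.Coprime M := by
  have : NeZero (m * M) := ⟨(Nat.mul_pos hm hM).ne'⟩
  obtain ⟨u, hu⟩ := ZMod.unitsMap_surjective (Dvd.intro M rfl : m ∣ m * M)
    (ZMod.unitOfCoprime t ht)
  refine ⟨(u : ZMod (m * M)).val, ?_, ?_⟩
  · rw [← ZMod.natCast_eq_natCast_iff]
    have h1 := congrArg (Units.val) hu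
    rw [ZMod.unitsMap_val, ZMod.coe_unitOfCoprime] at h1
    rw [← h1, ZMod.cast_eq_val]
  · exact (ZMod.val_coe_unit_coprime u).coprime_mul_left_right

lemma smul_congr {m t t' : ℕ} {z : UnitAddCircle} (hz : m • z = 0) (h : t' ≡ t [MOD m]) :
    t' • z = t • z := by
  rw [← mod_nsmul hz t', h, mod_nsmul hz]

section

variable {ι : Type*} [Fintype ι]

open Classical in
lemma sum_split (c : ι → ι) (k : ι → ℤ) (F : ι → ℝ) :
    ∑ i, F i = (∑ i with k i = 0, F i) +
      ∑ r, ∑ i with c i = r ∧ k i ≠ 0, F i := by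
  rw [← sum_filter_add_sum_filter_not univ (fun i => k i = 0) F]
  congr 1
  rw [← sum_fiberwise (univ.filter fun i => ¬ k i = 0) c F]
  refine sum_congr rfl fun r _ => ?_
  rw [filter_filter]
  refine sum_congr ?_ fun _ _ => rfl
  ext i
  simp only [mem_filter, mem_univ, true_and]
  tauto

/-- the product of the multiplicities -/
noncomputable def kprod (k : ι → ℤ) : ℕ := ∏ i, if k i = 0 then 1 else (k i).natAbs

lemma kprod_pos (k : ι → ℤ) : 0 < kprod k := by
  unfold kprod
  refine prod_pos fun i _ => ?_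
  split_ifs with h
  · exact one_pos
  · exact Int.natAbs_pos.mpr h

lemma natAbs_dvd_kprod (k : ι → ℤ) {i : ι} (h : k i ≠ 0) : (k i).natAbs ∣ kprod k := by
  have := dvd_prod_of_mem (fun i => if k i = 0 then 1 else (k i).natAbs) (mem_univ i)
  simp only [if_neg h] at this
  exact this

/-- **Formal relations are relations.** -/
theorem Datum.Formal.rel {D : Datum ι} (hD : D.Formal) {x : ι → UnitAddCircle} (hx : D.Mem x)
    {m : ℕ} (hm : 0 < m) (hmx : ∀ i, m • x i = 0) {t : ℕ} (ht : t.Coprime m) :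
    ∑ i, sw (t • x i) = 0 := by
  classical
  obtain ⟨a, ha⟩ := hx
  obtain ⟨L, hL, hτ, hL0⟩ := hD.tors
  obtain ⟨t', h1, h2⟩ := exists_lift (L * kprod D.k) hm (Nat.mul_pos hL (kprod_pos _)) ht
  have h3 : ∀ i, sw (t • x i) = sw (t' • x i) := fun i => by rw [smul_congr (hmx i) h1]
  simp only [h3]
  rw [sum_split D.c D.k]
  have h4 : ∑ i with D.k i = 0, sw (t' • x i) = 0 := by
    rw [← hL0 t' h2.coprime_mul_right_right]
    refine sum_congr rfl fun i hi => ?_
    rw [ha i, (mem_filter.mp hi).2, zero_smul, zero_add]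
  rw [h4, zero_add]
  refine sum_eq_zero fun r _ => ?_
  have h5 := sum_sw_eq_zero (fun i hi => (mem_filter.mp hi).2.2) (hD.jump r) (t := t')
    (fun i hi => Nat.Coprime.coprime_dvd_right (natAbs_dvd_kprod D.k (mem_filter.mp hi).2.2)
      h2.coprime_mul_left_right) (a r)
  rw [← h5]
  refine sum_congr rfl fun i hi => ?_
  rw [ha i, (mem_filter.mp hi).2.1]

variable {𝒰 : Ultrafilter ℕ}

lemma tor_const {z : ℕ → UnitAddCircle} (h : Tor 𝒰 z) :
    ∃ σ : UnitAddCircle, (∃ q : ℕ, 0 < q ∧ q • σ = 0) ∧ ∀ᶠ n in (𝒰 : Filter ℕ), z n = σ := by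
  obtain ⟨q, hq, h⟩ := h
  have h1 : ∀ᶠ n in (𝒰 : Filter ℕ), ∃ r ∈ (range q : Set ℕ), z n = pt q r := by
    filter_upwards [h] with n hn
    obtain ⟨r, hr, hr'⟩ := exists_pt hq hn
    exact ⟨r, by simpa using hr, hr'.symm⟩
  rw [Ultrafilter.eventually_exists_mem_iff (finite_toSet _)] at h1
  obtain ⟨r, -, hr⟩ := h1
  exact ⟨pt q r, ⟨q, hq, nsmul_pt hq r⟩, hr⟩

variable (𝒰) in
/-- linked indices -/
def Link (x : ℕ → ι → UnitAddCircle) (i j : ι) : Prop :=
  ∃ p q : ℤ, p ≠ 0 ∧ q ≠ 0 ∧ Tor 𝒰 (fun n => p • x n i + q • x n j)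

omit [Fintype ι] in
lemma link_equiv (x : ℕ → ι → UnitAddCircle) : Equivalence (Link 𝒰 x) where
  refl i := by
    refine ⟨1, -1, one_ne_zero, by norm_num, 1, one_pos, Eventually.of_forall fun n => ?_⟩
    simp
  symm := by
    rintro i j ⟨p, q, hp, hq, h⟩
    refine ⟨q, p, hq, hp, h.congr (Eventually.of_forall fun n => add_comm _ _)⟩
  trans := by
    rintro i j l ⟨p, q, hp, hq, h⟩ ⟨p', q', hp', hq', h'⟩
    refine ⟨p' * p, -(q * q'), mul_ne_zero hp' hp, neg_ne_zero.mpr (mul_ne_zero hq hq'), ?_⟩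
    refine ((h.zsmul p').sub (h'.zsmul q)).congr (Eventually.of_forall fun n => ?_)
    simp only [smul_add, smul_smul, neg_smul]
    rw [mul_comm p' q]
    abel

/-- **The limit datum.** -/
theorem exists_datum (x : ℕ → ι → UnitAddCircle) (hR : ∀ n, Rel (x n)) :
    ∃ D : Datum ι, D.Formal ∧ ∀ᶠ n in (𝒰 : Filter ℕ), D.Mem (x n) := by
  classical
  choose m hm hx hrel using hR
  let S : Setoid ι := ⟨Link 𝒰 x, link_equiv x⟩
  set c : ι → ι := fun i => (Quotient.mk S i).out with hc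
  have hcL : ∀ i, Link 𝒰 x i (c i) := fun i =>
    (link_equiv x).symm (Quotient.exact (Quotient.out_eq (Quotient.mk S i)))
  have hcc : ∀ i j, Link 𝒰 x i j → c i = c j := by
    intro i j h
    rw [hc]
    simp only
    rw [Quotient.sound (s := S) h]
  -- the coefficients
  have hpq : ∀ i, ∃ p q : ℤ, p ≠ 0 ∧ Tor 𝒰 (fun n => p • x n i + q • x n (c i)) ∧
      (q = 0 ↔ Tor 𝒰 (fun n => x n i)) := by
    intro i
    by_cases h : Tor 𝒰 (fun n => x n i)
    · refine ⟨1, 0, one_ne_zero, h.congr (Eventually.of_forall fun n => by simp), ?_⟩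
      simpa using h
    · obtain ⟨p, q, hp, hq, h1⟩ := hcL i
      exact ⟨p, q, hp, h1, ⟨fun h0 => absurd h0 hq, fun h0 => absurd h0 h⟩⟩
  choose p q hp hpqT hq0 using hpq
  set P : ℤ := ∏ i, p i with hP
  have hP0 : P ≠ 0 := prod_ne_zero_iff.mpr fun i _ => hp i
  have hpP : ∀ i, ∃ P' : ℤ, P = p i * P' := fun i => dvd_prod_of_mem p (mem_univ i)
  choose P' hP' using hpP
  have hP'0 : ∀ i, P' i ≠ 0 := fun i h => hP0 (by rw [hP' i, h, mul_zero])
  have hdiv : ∀ r n, ∃ y : UnitAddCircle, P • y = x n r := fun r n => exists_div P hP0 _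
  choose a ha using hdiv
  set K : ι → ℤ := fun i => -(q i * P' i) with hK
  have hK0 : ∀ i, K i = 0 ↔ Tor 𝒰 (fun n => x n i) := by
    intro i
    rw [← hq0 i, hK]
    simp [hP'0 i]
  have hres : ∀ i, Tor 𝒰 (fun n => x n i - K i • a (c i) n) := by
    intro i
    refine Tor.of_zsmul (hp i) ((hpqT i).congr (Eventually.of_forall fun n => ?_))
    rw [smul_sub, smul_smul, hK]
    simp only
    rw [← ha (c i) n, smul_smul, sub_eq_add_neg, ← neg_smul]
    congr 2
    rw [hP' i]
    ring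
  choose σ hσt hσ using fun i => tor_const (hres i)
  choose Lf hLf hLfσ using hσt
  set L : ℕ := ∏ i, Lf i with hLdef
  have hL0 : 0 < L := prod_pos fun i _ => hLf i
  have hLσ : ∀ i, L • σ i = 0 := by
    intro i
    obtain ⟨d, hd⟩ := dvd_prod_of_mem Lf (mem_univ i)
    rw [hLdef, hd, mul_comm, mul_nsmul', hLfσ, nsmul_zero]
  have hxe : ∀ i, ∀ᶠ n in (𝒰 : Filter ℕ), x n i = K i • a (c i) n + σ i := by
    intro i
    filter_upwards [hσ i] with n hn
    rw [← hn]
    abel
  -- the modulus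
  set m' : ℕ → ℕ := fun n => m n * (L * P.natAbs) with hm'
  have hPpos : 0 < P.natAbs := Int.natAbs_pos.mpr hP0
  have hm'0 : ∀ n, 0 < m' n := fun n => Nat.mul_pos (hm n) (Nat.mul_pos hL0 hPpos)
  have hLm' : ∀ n, L ∣ m' n := fun n => ⟨m n * P.natAbs, by rw [hm']; ring⟩
  have hx' : ∀ n i, m' n • x n i = 0 := by
    intro n i
    rw [hm']
    simp only
    rw [mul_comm, mul_nsmul', hx, nsmul_zero]
  have hrel' : ∀ n (t : ℕ), t.Coprime (m' n) → ∑ i, sw (t • x n i) = 0 := fun n t ht =>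
    hrel n t ht.coprime_mul_right_right
  have ha' : ∀ r n, m' n • a r n = 0 := by
    intro r n
    have h1 : P • (m n • a r n) = 0 := by rw [smul_comm, ha, hx]
    have h2 := natAbs_nsmul_eq_zero.mpr h1
    rw [hm']
    simp only
    rw [show m n * (L * P.natAbs) = L * (P.natAbs * m n) by ring, mul_nsmul', mul_nsmul', h2,
      nsmul_zero]
  -- the classes
  have hjump : ∀ r y, jump (univ.filter fun i => c i = r ∧ K i ≠ 0) K σ y = 0 := by
    intro r y
    rcases (univ.filter fun i => c i = r ∧ K i ≠ 0).eq_empty_or_nonempty with hemp | ⟨i0, hi0⟩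
    · rw [hemp]
      unfold jump
      rw [sum_empty]
    obtain ⟨-, hci0, hKi0⟩ := mem_filter.mp hi0
    have hti0 : ¬ Tor 𝒰 (fun n => x n i0) := fun h => hKi0 ((hK0 i0).mpr h)
    have hcr : c r = r := by
      rw [← hci0]
      exact (hcc _ _ (hcL i0)).symm
    have htr : ¬ Tor 𝒰 (fun n => x n r) := by
      intro h
      obtain ⟨p1, q1, hp1, hq1, h1⟩ := hcL i0
      rw [hci0] at h1
      apply hti0
      refine Tor.of_zsmul hp1 ((h1.sub (h.zsmul q1)).congr (Eventually.of_forall fun n => ?_))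
      simp
    have hta : ¬ Tor 𝒰 (a r) := by
      intro h
      exact htr ((h.zsmul P).congr (Eventually.of_forall fun n => ha r n))
    have hF := fun (M : ℤ) (hM : M ≠ 0) => fourier_vanish (𝒰 := 𝒰) (L := L) hm'0 hLm' hx' hrel'
      (a := a r) (ha' r) hta (C := univ.filter fun i => c i = r ∧ K i ≠ 0) (k := K) (τ := σ)
      (fun i hi => (mem_filter.mp hi).2.2) (fun i _ => hLσ i)
      (fun i hi => by
        have h1 := hxe i
        rw [(mem_filter.mp hi).2.1] at h1
        exact h1)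
      (fun i hi => by
        by_cases hKi : K i = 0
        · left
          refine ⟨σ i, hLσ i, ?_⟩
          filter_upwards [hxe i] with n hn
          rw [hn, hKi, zero_smul, zero_add]
        · right
          have hir : c i ≠ r := fun h => hi (mem_filter.mpr ⟨mem_univ i, h, hKi⟩)
          have hti : ¬ Tor 𝒰 (fun n => x n i) := fun h => hKi ((hK0 i).mpr h)
          refine ⟨hti, fun p1 q1 hp1 h => ?_⟩
          have h1 : Tor 𝒰 (fun n => (P * p1) • x n i + q1 • x n r) := by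
            refine (h.zsmul P).congr (Eventually.of_forall fun n => ?_)
            rw [smul_add, smul_smul, smul_comm P q1, ha]
          by_cases hq1 : q1 = 0
          · subst hq1
            simp only [zero_smul, add_zero] at h1
            exact hti (h1.of_zsmul (mul_ne_zero hP0 hp1))
          · have h2 : Link 𝒰 x i r := ⟨P * p1, q1, mul_ne_zero hP0 hp1, hq1, h1⟩
            exact hir ((hcc i r h2).trans hcr)) hM
    exact jump_vanish hL0 (fun i hi => (mem_filter.mp hi).2.2) (fun i _ => hLσ i) hF y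
  refine ⟨⟨c, K, σ⟩, ⟨⟨L, hL0, hLσ, fun t ht => ?_⟩, hjump⟩, ?_⟩
  · -- the constant part
    have hall : ∀ᶠ n in (𝒰 : Filter ℕ), ∀ i, x n i = K i • a (c i) n + σ i :=
      eventually_all.mpr hxe
    obtain ⟨n, hn⟩ := hall.exists
    obtain ⟨t', h1, h2⟩ := exists_lift (m' n * kprod K) hL0
      (Nat.mul_pos (hm'0 n) (kprod_pos _)) ht
    have h3 := hrel' n t' h2.coprime_mul_right_right
    rw [sum_split c K] at h3
    have h4 : ∑ r, ∑ i with c i = r ∧ K i ≠ 0, sw (t' • x n i) = 0 := by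
      refine sum_eq_zero fun r _ => ?_
      have h5 := sum_sw_eq_zero (fun i hi => (mem_filter.mp hi).2.2) (hjump r) (t := t')
        (fun i hi => Nat.Coprime.coprime_dvd_right (natAbs_dvd_kprod K (mem_filter.mp hi).2.2)
          h2.coprime_mul_left_right) (a r n)
      rw [← h5]
      refine sum_congr rfl fun i hi => ?_
      rw [hn i, (mem_filter.mp hi).2.1]
    rw [h4, add_zero] at h3
    rw [← h3]
    refine sum_congr rfl fun i hi => ?_
    have h6 : K i = 0 := (mem_filter.mp hi).2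
    rw [hn i, h6, zero_smul, zero_add]
    simp only
    rw [smul_congr (hLσ i) h1]
  · filter_upwards [eventually_all.mpr hxe] with n hn
    exact ⟨fun r => a r n, hn⟩

/-- bounded data -/
def Datum.Bounded (H : ℕ) (D : Datum ι) : Prop :=
  ∀ i, (D.k i).natAbs ≤ H ∧ H.factorial • D.τ i = 0

lemma exists_bounded {D : Datum ι} (hD : D.Formal) : ∃ H0 : ℕ, ∀ H, H0 ≤ H → D.Bounded H := by
  obtain ⟨L, hL, hτ, -⟩ := hD.tors
  refine ⟨L + ∑ i, (D.k i).natAbs, fun H hH i => ⟨?_, ?_⟩⟩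
  · have := single_le_sum (f := fun i => (D.k i).natAbs) (fun _ _ => Nat.zero_le _) (mem_univ i)
    omega
  · obtain ⟨d, hd⟩ := Nat.dvd_factorial hL (show L ≤ H by omega)
    rw [hd, mul_comm, mul_nsmul', hτ, nsmul_zero]

/-- **Finiteness.** -/
theorem exists_bound (ι : Type*) [Fintype ι] : ∃ H : ℕ, ∀ x : ι → UnitAddCircle, Rel x →
    ∃ D : Datum ι, D.Formal ∧ D.Bounded H ∧ D.Mem x := by
  by_contra hcon
  push Not at hcon
  choose x hx hno using hcon
  obtain ⟨D, hD, hev⟩ := exists_datum (𝒰 := hyperfilter ℕ) x hx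
  obtain ⟨H0, hH0⟩ := exists_bounded hD
  have h1 : ∀ᶠ n in (hyperfilter ℕ : Filter ℕ), H0 ≤ n :=
    Filter.Eventually.filter_mono (by
      rw [← Nat.cofinite_eq_atTop] 
      exact hyperfilter_le_cofinite) (eventually_ge_atTop H0)
  obtain ⟨n, hn1, hn2⟩ := (hev.and h1).exists
  exact hno n D hD (hH0 n hn2) hn1

end

end Pool.Agent.Q59.QP
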